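import Pool.Agent.Work.MP_cbc9f3_lc.Cohen3

/-!
# The combinatorial theorem

If there is a name for a new `ω`-sequence of elements of the ground model, then below every
condition there is a condition and a name for a function from `ω` onto `l`, for every `l ⊆ k`.
-/

namespace CF

universe u

variable {M : Type u} [ZFM M]

theorem exists_prg {k q : M} (hk : Card k) (hω : Sub (omega : M) k) (hq : Cnd k q) :
    ∃ r, Prg k r ∧ ∀ x n i, x ∈ k → n ∈ k → ¬ opair (ff r x n) i ∈ q := by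
  obtain ⟨r0, hf, hmem, hinj⟩ := exists_pairing hk hω
  have hr0 : Prg k r0 := by
    refine ⟨fun x n hx hn => hmem _ (opair_mem_prod.2 ⟨hx, hn⟩), ?_⟩
    intro x n y m hx hn hy hm e
    exact opair_inj.1 (hinj _ _ (opair_mem_prod.2 ⟨hx, hn⟩) (opair_mem_prod.2 ⟨hy, hm⟩) e)
  obtain ⟨c, hc, hcq⟩ : ∃ c, c ∈ k ∧ ∀ x i, x ∈ k → ¬ opair (ff r0 x c) i ∈ q := by
    by_contra hcon
    push Not at hcon
    refine not_small_self hk ((hq.2.2.img (fun z => col k r0 (fst z))).sub hω ?_)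
    intro c hc
    obtain ⟨x, i, hx, hi⟩ := hcon c hc
    refine mem_img.2 ⟨_, hi, ?_⟩
    rw [fst_opair, col_ff hr0 hx hc]
  have hff : ∀ x n, x ∈ k → n ∈ k → ff (lam (prod k k) (fun z => ff r0 (ap r0 z) c)) x n =
      ff r0 (ff r0 x n) c := by
    intro x n hx hn
    unfold ff
    rw [ap_lam (opair_mem_prod.2 ⟨hx, hn⟩)]
  refine ⟨lam (prod k k) (fun z => ff r0 (ap r0 z) c), ⟨?_, ?_⟩, ?_⟩
  · intro x n hx hn
    rw [hff x n hx hn]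
    exact hr0.mem _ _ (hr0.mem _ _ hx hn) hc
  · intro x n y m hx hn hy hm e
    rw [hff x n hx hn, hff y m hy hm] at e
    have e1 := (hr0.inj _ _ _ _ (hr0.mem _ _ hx hn) hc (hr0.mem _ _ hy hm) hc e).1
    exact hr0.inj _ _ _ _ hx hn hy hm e1
  · intro x n i hx hn
    rw [hff x n hx hn]
    exact hcq _ i (hr0.mem _ _ hx hn)

section
variable {k P W p0 : M} (hk : Card k) (hω : Sub (omega : M) k)
  (hP : ∀ p, p ∈ P ↔ Cnd k p)

include hk hω hP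

theorem cohen_main {l qs : M} (hl : Sub l k) (hl0 : (empt : M) ∈ l) (hp0 : p0 ∈ P) (hqs : qs ∈ P)
    (hmono : ∀ q r n x, q ∈ P → r ∈ P → Sub q r → opair (opair q n) x ∈ W →
      opair (opair r n) x ∈ W)
    (hreg : ∀ q, q ∈ P → ∀ n x, (∀ r, r ∈ P → Sub q r → ∃ r', r' ∈ P ∧ Sub r r' ∧
      opair (opair r' n) x ∈ W) → opair (opair q n) x ∈ W)
    (hfun : ∀ q, q ∈ P → Sub p0 q → ∀ n x y, opair (opair q n) x ∈ W →
      opair (opair q n) y ∈ W → x = y)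
    (htot : ∀ q, q ∈ P → Sub p0 q → ∀ n, n ∈ (omega : M) → ∃ r x, r ∈ P ∧ Sub q r ∧
      opair (opair r n) x ∈ W)
    (hnew : ∀ q, q ∈ P → Sub p0 q → ∃ n, n ∈ (omega : M) ∧ ¬ Dec W q n) :
    ∃ (t : M) (R : M → M → M → Prop), t ∈ P ∧ Sub qs t ∧ Dfn (fun v => R (v 0) (v 1) (v 2)) ∧
      (∀ q r, q ∈ P → r ∈ P → Sub q r → ∀ n x, R q n x → R r n x) ∧
      (∀ q, q ∈ P → Sub t q → ∀ n x y, R q n x → R q n y → x = y) ∧
      (∀ q, q ∈ P → Sub t q → ∀ n, ∃ r x, r ∈ P ∧ Sub q r ∧ x ∈ l ∧ R r n x) ∧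
      (∀ q, q ∈ P → Sub t q → ∀ x, x ∈ l → ∃ r n, r ∈ P ∧ Sub q r ∧ n ∈ (omega : M) ∧
        R r n x) := by
  have h0k : (empt : M) ∈ k := hω _ empt_mem_omega
  have hcq := (hP _).1 hqs
  have hc0 := (hP _).1 hp0
  obtain ⟨r, hr, havoid⟩ := exists_prg hk hω hcq
  -- the lift of `p0`
  obtain ⟨p1, hp1⟩ : ∃ p1 : M, p1 = img p0 (fun z => opair (ff r (fst z) empt) (snd z)) := ⟨_, rfl⟩
  have hp1m : ∀ z, z ∈ p1 → ∃ x i, opair x i ∈ p0 ∧ z = opair (ff r x empt) i := by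
    intro z hz
    rw [hp1] at hz
    obtain ⟨w, hw, rfl⟩ := mem_img.1 hz
    obtain ⟨x, i, hx, hi, rfl⟩ := mem_prod.1 (hc0.1 w hw)
    exact ⟨x, i, hw, by rw [fst_opair, snd_opair]⟩
  have hp1c : Cnd k p1 := by
    refine ⟨?_, ?_, ?_⟩
    · intro z hz
      obtain ⟨x, i, hx, rfl⟩ := hp1m z hz
      have := hc0.mem_k hx
      exact opair_mem_prod.2 ⟨hr.mem _ _ this.1 h0k, this.2⟩
    · intro y i j hi hj
      obtain ⟨x1, i1, h1, e1⟩ := hp1m _ hi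
      obtain ⟨x2, i2, h2, e2⟩ := hp1m _ hj
      obtain ⟨rfl, rfl⟩ := opair_inj.1 e1
      obtain ⟨e3, rfl⟩ := opair_inj.1 e2
      have e4 := (hr.inj _ _ _ _ (hc0.mem_k h1).1 h0k (hc0.mem_k h2).1 h0k e3).1
      subst e4
      exact hc0.2.1 _ _ _ h1 h2
    · rw [hp1]
      exact hc0.2.2.img _
  obtain ⟨t, ht⟩ : ∃ t : M, t = un qs p1 := ⟨_, rfl⟩
  have htc : Cnd k t := by
    rw [ht]
    refine hcq.un hk hω hp1c ?_
    intro y i j hi hj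
    obtain ⟨x, i', hx, e⟩ := hp1m _ hj
    rw [(opair_inj.1 e).1] at hi
    exact absurd hi (havoid _ _ _ (hc0.mem_k hx).1 h0k)
  have hp0A : Sub p0 (Aq k r t) := by
    intro z hz
    obtain ⟨x, i, hx, hi, rfl⟩ := mem_prod.1 (hc0.1 z hz)
    refine opair_mem_Aq.2 ⟨hx, hi, ?_⟩
    rw [ht, hp1]
    exact mem_un.2 (Or.inr (mem_img.2 ⟨_, hz, by rw [fst_opair, snd_opair]⟩))
  have hp0A' : ∀ q, Sub t q → Sub p0 (Aq k r q) := fun q h => hp0A.trans (Aq_mono h)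
  refine ⟨t, fun q n e => (∃ q1 x, Sub q1 q ∧ Good k r P W q1 n x ∧
      e = cases (col k r x ∈ l) (col k r x) empt) ∨
    (e = empt ∧ ¬ ∃ q' q1 x, q' ∈ P ∧ Sub q q' ∧ Sub q1 q' ∧ Good k r P W q1 n x),
    (hP _).2 htc, ht ▸ sub_un_left _ _, inferInstance, ?_, ?_, ?_, ?_⟩
  · rintro q q' hq hq' hqq' n e (⟨q1, x, h1, h2, h3⟩ | ⟨h1, h2⟩)
    · exact Or.inl ⟨q1, x, h1.trans hqq', h2, h3⟩
    · refine Or.inr ⟨h1, ?_⟩
      rintro ⟨q2, q1, x, h3, h4, h5⟩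
      exact h2 ⟨q2, q1, x, h3, hqq'.trans h4, h5⟩
  · rintro q hq htq n e e' (⟨q1, x, h1, h2, h3⟩ | ⟨h1, h2⟩) (⟨q1', x', h1', h2', h3'⟩ | ⟨h1', h2'⟩)
    · have := good_unique hk hω hr hP h2 h2' hq h1 h1'
      subst this
      rw [h3, h3']
    · exact absurd ⟨q, q1, x, hq, Sub.refl q, h1, h2⟩ h2'
    · exact absurd ⟨q, q1', x', hq, Sub.refl q, h1', h2'⟩ h2
    · rw [h1, h1']
  · intro q hq htq n
    by_cases h : ∃ q' q1 x, q' ∈ P ∧ Sub q q' ∧ Sub q1 q' ∧ Good k r P W q1 n x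
    · obtain ⟨q', q1, x, hq', hqq', h1, h2⟩ := h
      refine ⟨q', cases (col k r x ∈ l) (col k r x) empt, hq', hqq', ?_,
        Or.inl ⟨q1, x, h1, h2, rfl⟩⟩
      by_cases h3 : col k r x ∈ l
      · rw [cases_pos h3]; exact h3
      · rw [cases_neg h3]; exact hl0
    · exact ⟨q, empt, hq, Sub.refl q, hl0, Or.inr ⟨rfl, h⟩⟩
  · intro q hq htq e he
    obtain ⟨p, n, x, hp, hqp, hn, hg, hx⟩ := good_dense hk hω hr hP hmono hreg hfun htot hnew hq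
      (hp0A' q htq) (hl e he)
    refine ⟨p, n, hp, hqp, hn, Or.inl ⟨p, x, Sub.refl p, hg, ?_⟩⟩
    rw [hx, cases_pos he]

end

end CF
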