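import Pool.Agent.Work.MP_cbc9f3_lc.Collapse
import Pool.Agent.Work.MP_cbc9f3_lc.Cohen4

/-!
# If `Add(k, 1)` collapses `ω₁`, then it makes `k` countable
-/

namespace CF

universe u

variable {M : Type u} [ZFM M]

theorem answer {k P a1 a : M} {Q : M → M → M → Prop} {c : M → M} (hk : Card k)
    (hω : Sub (omega : M) k) (hP : ∀ p, p ∈ P ↔ Cnd k p) (h : Frc P (fun q p => Sub p q) Q)
    (hc : Chk c) (ha1 : Card a1) (hω1 : (omega : M) ∈ a1)
    (hmin : ∀ b, b ∈ a1 → Card b → ¬ (omega : M) ∈ b) {p : M} (hp : p ∈ P)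
    (hcol : F P (fun q p => Sub p q) Q (.neg .card) p (fun _ => c a1))
    (ha : Ord a) (hωa : (omega : M) ∈ a) (hak : Sub a k) {q0 : M} (hq0 : q0 ∈ P) :
    F P (fun q p => Sub p q) Q (.neg .card) q0 (fun _ => c a) := by
  have h0 : (empt : M) ∈ P := by
    rw [hP]
    exact ⟨fun x hx => absurd hx (not_mem_empt _), fun x i j hx => absurd hx (not_mem_empt _),
      small_empt hω⟩
  have htop : ∀ p, p ∈ P → Sub empt p := fun p _ x hx => absurd hx (not_mem_empt _)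
  obtain ⟨s, b, R, hs, hsp, hb, hRd, hRmono, hRreg, hRfun, hRtot, hRonto⟩ :=
    collapse_elim h h0 htop hc ha1.1 hp hcol
  have i1 : ∀ (s t r : (ℕ → M) → M) [DT s] [DT t] [DT r], Dfn (fun v => R (s v) (t v) (r v)) :=
    fun s t r hs ht hr => Dfn.comp3 hRd hs ht hr
  -- index by `ω`
  have hbne : ∃ n, n ∈ b := by
    obtain ⟨r, n, _, _, hn, _⟩ := hRonto s hs (Sub.refl s) omega hω1
    exact ⟨n, hn⟩
  obtain ⟨g, hg⟩ := exists_onto_of_mem (Sub.refl omega) ha1.1 hω1 hmin hb hbne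
  obtain ⟨W, hW⟩ : ∃ W : M, ∀ q n x, opair (opair q n) x ∈ W ↔ q ∈ P ∧ n ∈ (omega : M) ∧
      x ∈ a1 ∧ R q (ap g n) x := by
    refine ⟨sep (prod (prod P omega) a1) (fun z => ∃ q n x, z = opair (opair q n) x ∧
      R q (ap g n) x), fun q n x => ?_⟩
    rw [mem_sep, opair_mem_prod, opair_mem_prod]
    constructor
    · rintro ⟨⟨⟨hq, hn⟩, hx⟩, q', n', x', e, hR⟩
      obtain ⟨e1, rfl⟩ := opair_inj.1 e
      obtain ⟨rfl, rfl⟩ := opair_inj.1 e1
      exact ⟨hq, hn, hx, hR⟩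
    · rintro ⟨hq, hn, hx, hR⟩
      exact ⟨⟨⟨hq, hn⟩, hx⟩, q, n, x, rfl, hR⟩
  have hmono : ∀ q r n x, q ∈ P → r ∈ P → Sub q r → opair (opair q n) x ∈ W →
      opair (opair r n) x ∈ W := by
    intro q r n x hq hr hqr hqW
    rw [hW] at hqW ⊢
    exact ⟨hr, hqW.2.1, hqW.2.2.1, hRmono q r hq hr hqr _ _ hqW.2.2.2⟩
  have hreg : ∀ q, q ∈ P → ∀ n x, (∀ r, r ∈ P → Sub q r → ∃ r', r' ∈ P ∧ Sub r r' ∧
      opair (opair r' n) x ∈ W) → opair (opair q n) x ∈ W := by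
    intro q hq n x hd
    obtain ⟨r', hr', _, h1⟩ := hd q hq (Sub.refl q)
    rw [hW] at h1
    rw [hW]
    refine ⟨hq, h1.2.1, h1.2.2.1, hRreg q hq _ _ fun r hr hqr => ?_⟩
    obtain ⟨r', hr', hrr', h2⟩ := hd r hr hqr
    rw [hW] at h2
    exact ⟨r', hr', hrr', h2.2.2.2⟩
  have hfun : ∀ q, q ∈ P → Sub s q → ∀ n x y, opair (opair q n) x ∈ W →
      opair (opair q n) y ∈ W → x = y := by
    intro q hq hsq n x y h1 h2
    rw [hW] at h1 h2
    exact hRfun q hq hsq _ x y h1.2.2.2 h2.2.2.2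
  have htot : ∀ q, q ∈ P → Sub s q → ∀ n, n ∈ (omega : M) → ∃ r x, r ∈ P ∧ Sub q r ∧
      opair (opair r n) x ∈ W := by
    intro q hq hsq n hn
    obtain ⟨r, x, hr, hqr, hx, hR⟩ := hRtot q hq hsq (ap g n) (hg.2.1 n hn)
    exact ⟨r, x, hr, hqr, (hW _ _ _).2 ⟨hr, hn, hx, hR⟩⟩
  have hnew : ∀ q, q ∈ P → Sub s q → ∃ n, n ∈ (omega : M) ∧ ¬ Dec W q n := by
    intro q hq hsq
    by_contra hcon
    push Not at hcon
    refine ha1.2 omega hω1 _ (onto_lam (a := omega) (b := a1)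
      (fun n => sUn (sep a1 (fun x => opair (opair q n) x ∈ W))) ?_ ?_)
    · intro n hn
      obtain ⟨x, hx⟩ := hcon n hn
      have : sep a1 (fun x => opair (opair q n) x ∈ W) = sing x := by
        refine ext fun y => ?_
        rw [mem_sep, mem_sing]
        constructor
        · rintro ⟨_, hy⟩
          exact hfun q hq hsq n y x hy hx
        · rintro rfl
          exact ⟨((hW _ _ _).1 hx).2.2.1, hx⟩
      rw [this, sUn_sing]
      exact ((hW _ _ _).1 hx).2.2.1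
    · intro x hx
      obtain ⟨r, m, hr, hqr, hm, hR⟩ := hRonto q hq hsq x hx
      obtain ⟨n, hn, rfl⟩ := hg.2.2 m hm
      obtain ⟨x', hx'⟩ := hcon n hn
      have e : x = x' := hRfun r hr (hsq.trans hqr) _ x x' hR
        (hRmono q r hq hr hqr _ _ ((hW _ _ _).1 hx').2.2.2)
      subst e
      refine ⟨n, hn, ?_⟩
      have : sep a1 (fun x => opair (opair q n) x ∈ W) = sing x := by
        refine ext fun y => ?_
        rw [mem_sep, mem_sing]
        constructor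
        · rintro ⟨_, hy⟩
          exact hfun q hq hsq n y x hy hx'
        · rintro rfl
          exact ⟨hx, hx'⟩
      rw [this, sUn_sing]
  refine h.f_reg _ hq0 fun q hq _ => ?_
  have ha0 : (empt : M) ∈ a := ha.empt_mem ⟨_, hωa⟩
  obtain ⟨t, R', ht, hqt, hR'd, h1, h2, h3, h4⟩ := cohen_main hk hω hP (l := a) hak ha0 hs hq hmono
    hreg hfun htot hnew
  refine ⟨t, ht, hqt, ?_⟩
  exact collapse_intro h h0 htop hc (k := a) (a := omega) ht hωa R' (hR := hR'd) h1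
    (fun q hq htq n x y _ => h2 q hq htq n x y)
    (fun q hq htq n _ => h3 q hq htq n)
    (fun q hq htq x hx => h4 q hq htq x hx)

end CF
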