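import Pool.Agent.Work.MP_cbc9f3_lc.Defs

/-!
# Automatic definability in a model of ZF

`ZFM M`: the type `M` carries a relation `x ∈ y` which makes it a model of ZF.
`Dfn R`: the predicate `R` on assignments `ℕ → M` is definable with parameters; `DT t`: the
function `t` from assignments to `M` is definable with parameters. Both are classes and are found
automatically by instance search.
-/

namespace CF

universe u

/-- A model of ZF. -/
class ZFM (M : Type u) where
  E : M → M → Prop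
  zf : IsZF E

variable {M : Type u} [ZFM M]

instance instMem : Membership M M := ⟨fun a x => ZFM.E x a⟩

theorem mem_def (x a : M) : x ∈ a ↔ ZFM.E x a := Iff.rfl

/-- interleaving of two assignments -/
def mix {M : Type u} (v c : ℕ → M) : ℕ → M := fun n => if n % 2 = 0 then v (n / 2) else c (n / 2)

/-- A predicate on assignments is definable (with parameters). -/
class Dfn (R : (ℕ → M) → Prop) : Prop where
  out : ∃ (φ : Fml) (c : ℕ → M), ∀ v, R v ↔ Sat ZFM.E φ (mix v c)

/-- A function on assignments has a definable graph. -/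
class DT (t : (ℕ → M) → M) : Prop where
  out : Dfn (fun w => w 0 = t (fun n => w (n + 1)))

/-! ### Renaming -/

def lift (f : ℕ → ℕ) : ℕ → ℕ
  | 0 => 0
  | n + 1 => f n + 1

def Fml.ren : (ℕ → ℕ) → Fml → Fml
  | f, .mem i j => .mem (f i) (f j)
  | f, .eq i j => .eq (f i) (f j)
  | f, .neg φ => .neg (φ.ren f)
  | f, .and φ ψ => .and (φ.ren f) (ψ.ren f)
  | f, .all φ => .all (φ.ren (lift f))

theorem cons_lift (f : ℕ → ℕ) (x : M) (v : ℕ → M) :
    (fun n => cons x v (lift f n)) = cons x (fun n => v (f n)) := by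
  funext n
  cases n <;> rfl

omit [ZFM M] in
theorem cons_lift' (f : ℕ → ℕ) (x : M) (v : ℕ → M) :
    (fun n => cons x v (lift f n)) = cons x (fun n => v (f n)) := by
  funext n
  cases n <;> rfl

omit [ZFM M] in
theorem sat_ren (E : M → M → Prop) (φ : Fml) : ∀ (f : ℕ → ℕ) (v : ℕ → M),
    Sat E (φ.ren f) v ↔ Sat E φ (fun n => v (f n)) := by
  induction φ with
  | mem i j => intro f v; rfl
  | eq i j => intro f v; rfl
  | neg φ ih => intro f v; exact not_congr (ih f v)
  | and φ ψ ih1 ih2 => intro f v; exact and_congr (ih1 f v) (ih2 f v)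
  | all φ ih =>
    intro f v
    refine forall_congr' fun x => ?_
    rw [ih, cons_lift']

theorem Dfn.ren {R : (ℕ → M) → Prop} (h : Dfn R) (f : ℕ → ℕ) : Dfn (fun v => R (fun n => v (f n))) := by
  obtain ⟨φ, c, hφ⟩ := h.out
  refine ⟨φ.ren (fun n => if n % 2 = 0 then 2 * f (n / 2) else n), c, fun v => ?_⟩
  rw [hφ, sat_ren]
  refine iff_of_eq (congrArg _ ?_)
  funext n
  unfold mix
  by_cases hn : n % 2 = 0
  · simp [hn]
  · simp [hn]

theorem Dfn.congr {R S : (ℕ → M) → Prop} (h : Dfn R) (hRS : ∀ v, S v ↔ R v) : Dfn S := by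
  obtain ⟨φ, c, hφ⟩ := h.out
  exact ⟨φ, c, fun v => (hRS v).trans (hφ v)⟩

/-! ### Instances -/

section inst
variable {s t : (ℕ → M) → M} {P Q : (ℕ → M) → Prop}

instance dfn_not [h : Dfn P] : Dfn (fun v => ¬ P v) := by
  obtain ⟨φ, c, hφ⟩ := h.out
  exact ⟨.neg φ, c, fun v => not_congr (hφ v)⟩

instance dfn_and [h1 : Dfn P] [h2 : Dfn Q] : Dfn (fun v => P v ∧ Q v) := by
  obtain ⟨φ, c, hφ⟩ := h1.out
  obtain ⟨ψ, d, hψ⟩ := h2.out
  refine ⟨.and (φ.ren (fun n => if n % 2 = 0 then n else 4 * (n / 2) + 1))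
    (ψ.ren (fun n => if n % 2 = 0 then n else 4 * (n / 2) + 3)), mix c d, fun v => ?_⟩
  refine and_congr ?_ ?_
  · rw [hφ, sat_ren]
    refine iff_of_eq (congrArg _ ?_)
    funext n
    unfold mix
    by_cases hn : n % 2 = 0
    · simp [hn]
    · have h1 : (4 * (n / 2) + 1) % 2 = 1 := by omega
      have h2 : (4 * (n / 2) + 1) / 2 = 2 * (n / 2) := by omega
      have h3 : (2 * (n / 2)) % 2 = 0 := by omega
      have h4 : (2 * (n / 2)) / 2 = n / 2 := by omega
      simp [hn, h1, h2, h3]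
  · rw [hψ, sat_ren]
    refine iff_of_eq (congrArg _ ?_)
    funext n
    unfold mix
    by_cases hn : n % 2 = 0
    · simp [hn]
    · have h1 : (4 * (n / 2) + 3) % 2 = 1 := by omega
      have h2 : (4 * (n / 2) + 3) / 2 = 2 * (n / 2) + 1 := by omega
      have h3 : (2 * (n / 2) + 1) % 2 = 1 := by omega
      have h4 : (2 * (n / 2) + 1) / 2 = n / 2 := by omega
      simp [hn, h1, h2, h3, h4]

instance dfn_all {R : (ℕ → M) → M → Prop} [h : Dfn (fun w => R (fun n => w (n + 1)) (w 0))] :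
    Dfn (fun v => ∀ x, R v x) := by
  obtain ⟨φ, c, hφ⟩ := h.out
  refine ⟨.all (φ.ren (fun n => if n = 0 then 0 else if n % 2 = 0 then n - 1 else n + 1)), c,
    fun v => ?_⟩
  refine forall_congr' fun x => ?_
  have := hφ (cons x v)
  rw [sat_ren]
  refine Iff.trans (?_ : R v x ↔ _) (this.trans ?_)
  · exact Iff.rfl
  · refine iff_of_eq (congrArg _ ?_)
    funext n
    match n with
    | 0 => rfl
    | n + 1 =>
      by_cases hn : (n + 1) % 2 = 0
      · obtain ⟨k, hk⟩ : ∃ k, n + 1 = 2 * k + 2 := ⟨(n + 1) / 2 - 1, by omega⟩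
        rw [hk]
        have e1 : (2 * k + 2) % 2 = 0 := by omega
        have e2 : (2 * k + 2) / 2 = k + 1 := by omega
        have e3 : (2 * k + 2) - 1 = 2 * k + 1 := by omega
        have e4 : (2 * k) % 2 = 0 := by omega
        have e5 : (2 * k) / 2 = k := by omega
        simp [mix, e2, cons]
      · obtain ⟨k, hk⟩ : ∃ k, n + 1 = 2 * k + 1 := ⟨n / 2, by omega⟩
        rw [hk]
        have e1 : (2 * k + 1) % 2 = 1 := by omega
        have e2 : (2 * k + 1) / 2 = k := by omega
        simp [mix, e1, e2, cons]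

theorem dfn_eq_var (i j : ℕ) : Dfn (fun v : ℕ → M => v i = v j) := by
  by_cases hM : Nonempty M
  · refine ⟨.eq (2 * i) (2 * j), fun _ => hM.some, fun v => ?_⟩
    simp [Sat, mix]
  · exact ⟨.eq 0 0, fun _ => (hM ⟨(ZFM.zf (M := M)).nonempty.some⟩).elim, fun v =>
      (hM ⟨v 0⟩).elim⟩

theorem dfn_mem_var (i j : ℕ) : Dfn (fun v : ℕ → M => v i ∈ v j) := by
  refine ⟨.mem (2 * i) (2 * j), fun _ => (ZFM.zf (M := M)).nonempty.some, fun v => ?_⟩
  simp [Sat, mix, mem_def]

instance dfn_const (p : Prop) : Dfn (fun _ : ℕ → M => p) := by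
  by_cases hp : p
  · exact (dfn_eq_var 0 0).congr fun v => by simp [hp]
  · exact (dfn_not (h := dfn_eq_var 0 0)).congr fun v => by simp [hp]

instance dfn_ex {R : (ℕ → M) → M → Prop} [h : Dfn (fun w => R (fun n => w (n + 1)) (w 0))] :
    Dfn (fun v => ∃ x, R v x) := by
  have : Dfn (fun v => ¬ ∀ x, ¬ R v x) := inferInstance
  exact this.congr fun v => by simp

instance dfn_or [Dfn P] [Dfn Q] : Dfn (fun v => P v ∨ Q v) := by
  have : Dfn (fun v => ¬ (¬ P v ∧ ¬ Q v)) := inferInstance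
  exact this.congr fun v => by tauto

instance dfn_imp [Dfn P] [Dfn Q] : Dfn (fun v => P v → Q v) := by
  have : Dfn (fun v => ¬ (P v ∧ ¬ Q v)) := inferInstance
  exact this.congr fun v => by tauto

instance dfn_iff [Dfn P] [Dfn Q] : Dfn (fun v => P v ↔ Q v) := by
  have : Dfn (fun v => (P v → Q v) ∧ (Q v → P v)) := inferInstance
  exact this.congr fun v => by tauto

instance dt_var (i : ℕ) : DT (fun v : ℕ → M => v i) := ⟨dfn_eq_var 0 (i + 1)⟩

instance dt_const (c : M) : DT (fun _ : ℕ → M => c) := by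
  refine ⟨⟨.eq 0 1, fun _ => c, fun v => ?_⟩⟩
  simp [Sat, mix]

theorem DT.ren {t : (ℕ → M) → M} (h : DT t) (f : ℕ → ℕ) : DT (fun v => t (fun n => v (f n))) :=
  ⟨h.out.ren (lift f)⟩

theorem Dfn.subst {R : (ℕ → M) → M → Prop} (h : Dfn (fun w => R (fun n => w (n + 1)) (w 0)))
    {t : (ℕ → M) → M} (ht : DT t) : Dfn (fun v => R v (t v)) := by
  have h1 := ht.out
  have : Dfn (fun v => ∃ x, x = t v ∧ R v x) := by
    refine dfn_ex (R := fun v x => x = t v ∧ R v x) (h := ?_)
    exact dfn_and (h1 := h1) (h2 := h)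
  exact this.congr fun v => by simp

theorem Dfn.comp1 {R : M → Prop} (h : Dfn (fun v => R (v 0))) {t : (ℕ → M) → M} (ht : DT t) :
    Dfn (fun v => R (t v)) :=
  Dfn.subst (R := fun _ x => R x) h ht

theorem Dfn.comp2 {R : M → M → Prop} (h : Dfn (fun v => R (v 0) (v 1))) {s t : (ℕ → M) → M}
    (hs : DT s) (ht : DT t) : Dfn (fun v => R (s v) (t v)) := by
  refine Dfn.subst (R := fun v x => R x (t v)) ?_ hs
  refine Dfn.subst (R := fun w y => R (w 0) y) ?_ (ht.ren (fun n => n + 1))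
  exact h.ren (fun n => if n = 0 then 1 else 0)

theorem Dfn.comp3 {R : M → M → M → Prop} (h : Dfn (fun v => R (v 0) (v 1) (v 2)))
    {s t r : (ℕ → M) → M} (hs : DT s) (ht : DT t) (hr : DT r) :
    Dfn (fun v => R (s v) (t v) (r v)) := by
  refine Dfn.subst (R := fun v x => R x (t v) (r v)) ?_ hs
  refine Dfn.subst (R := fun w y => R (w 0) y (r (fun n => w (n + 1)))) ?_
    (ht.ren (fun n => n + 1))
  refine Dfn.subst (R := fun w y => R (w 1) (w 0) y) ?_ (hr.ren (fun n => n + 1 + 1))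
  exact h.ren (fun n => if n = 0 then 2 else if n = 1 then 1 else 0)

theorem Dfn.comp4 {R : M → M → M → M → Prop} (h : Dfn (fun v => R (v 0) (v 1) (v 2) (v 3)))
    {s t r l : (ℕ → M) → M} (hs : DT s) (ht : DT t) (hr : DT r) (hl : DT l) :
    Dfn (fun v => R (s v) (t v) (r v) (l v)) := by
  refine Dfn.subst (R := fun v x => R x (t v) (r v) (l v)) ?_ hs
  refine Dfn.subst (R := fun w y => R (w 0) y (r (fun n => w (n + 1))) (l (fun n => w (n + 1)))) ?_
    (ht.ren (fun n => n + 1))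
  refine Dfn.subst (R := fun w y => R (w 1) (w 0) y (l (fun n => w (n + 1 + 1)))) ?_
    (hr.ren (fun n => n + 1 + 1))
  refine Dfn.subst (R := fun w y => R (w 2) (w 1) (w 0) y) ?_ (hl.ren (fun n => n + 1 + 1 + 1))
  exact h.ren (fun n => if n = 0 then 3 else if n = 1 then 2 else if n = 2 then 1 else 0)

instance dfn_mem [hs : DT s] [ht : DT t] : Dfn (fun v => s v ∈ t v) :=
  Dfn.comp2 (dfn_mem_var 0 1) hs ht

instance dfn_eq [hs : DT s] [ht : DT t] : Dfn (fun v => s v = t v) :=
  Dfn.comp2 (dfn_eq_var 0 1) hs ht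

/-- A function is definable if its graph is. -/
theorem DT.of_graph {t : (ℕ → M) → M} {R : (ℕ → M) → M → Prop}
    (h : Dfn (fun w => R (fun n => w (n + 1)) (w 0))) (ht : ∀ v x, x = t v ↔ R v x) : DT t :=
  ⟨h.congr fun w => ht _ _⟩

theorem DT.subst {t : (ℕ → M) → M → M} (h : DT (fun w => t (fun n => w (n + 1)) (w 0)))
    {s : (ℕ → M) → M} (hs : DT s) : DT (fun v => t v (s v)) := by
  refine ⟨?_⟩
  have h1 : DT (fun w : ℕ → M => s (fun n => w (n + 1))) := hs.ren _
  refine Dfn.subst (R := fun w x => w 0 = t (fun n => w (n + 1)) x) ?_ h1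
  have := h.out.ren (fun n => if n = 0 then 1 else if n = 1 then 0 else n)
  exact this

theorem DT.comp1 {t : M → M} (h : DT (fun v => t (v 0))) {s : (ℕ → M) → M} (hs : DT s) :
    DT (fun v => t (s v)) :=
  DT.subst (t := fun _ x => t x) h hs

theorem DT.comp2 {t : M → M → M} (h : DT (fun v => t (v 0) (v 1))) {s r : (ℕ → M) → M}
    (hs : DT s) (hr : DT r) : DT (fun v => t (s v) (r v)) := by
  refine DT.subst (t := fun v x => t x (r v)) ?_ hs
  refine DT.subst (t := fun w y => t (w 0) y) ?_ (hr.ren (fun n => n + 1))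
  exact h.ren (fun n => if n = 0 then 1 else 0)

theorem DT.comp3 {t : M → M → M → M} (h : DT (fun v => t (v 0) (v 1) (v 2)))
    {s r l : (ℕ → M) → M} (hs : DT s) (hr : DT r) (hl : DT l) :
    DT (fun v => t (s v) (r v) (l v)) := by
  refine DT.subst (t := fun v x => t x (r v) (l v)) ?_ hs
  refine DT.subst (t := fun w y => t (w 0) y (l (fun n => w (n + 1)))) ?_
    (hr.ren (fun n => n + 1))
  refine DT.subst (t := fun w y => t (w 1) (w 0) y) ?_ (hl.ren (fun n => n + 1 + 1))
  exact h.ren (fun n => if n = 0 then 2 else if n = 1 then 1 else 0)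

/-- fixing the parameters -/
theorem Dfn.fix {R : (ℕ → M) → M → Prop} (h : Dfn (fun w => R (fun n => w (n + 1)) (w 0)))
    (v : ℕ → M) : Dfn (fun w => R v (w 0)) := by
  obtain ⟨φ, c, hφ⟩ := h.out
  -- parameters: `v` at even places, `c` at odd places
  refine ⟨φ.ren (fun n => if n = 0 then 0 else if n % 2 = 0 then 2 * (2 * (n / 2 - 1)) + 1
    else 2 * (2 * (n / 2) + 1) + 1), mix v c, fun w => ?_⟩
  have := hφ (cons (w 0) v)
  rw [sat_ren]
  refine Iff.trans (?_ : R v (w 0) ↔ _) (this.trans ?_)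
  · exact Iff.rfl
  · refine iff_of_eq (congrArg _ ?_)
    funext n
    match n with
    | 0 => simp [mix, cons]
    | n + 1 =>
      by_cases hn : (n + 1) % 2 = 0
      · obtain ⟨k, hk⟩ : ∃ k, n + 1 = 2 * k + 2 := ⟨(n + 1) / 2 - 1, by omega⟩
        rw [hk]
        have e1 : (2 * k + 2) % 2 = 0 := by omega
        have e2 : (2 * k + 2) / 2 = k + 1 := by omega
        have e3 : (2 * (2 * k) + 1) % 2 = 1 := by omega
        have e4 : (2 * (2 * k) + 1) / 2 = 2 * k := by omega
        have e5 : (2 * k) / 2 = k := by omega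
        simp [mix, e1, e2, e3, e4, cons]
      · obtain ⟨k, hk⟩ : ∃ k, n + 1 = 2 * k + 1 := ⟨n / 2, by omega⟩
        rw [hk]
        have e1 : (2 * k + 1) % 2 = 1 := by omega
        have e2 : (2 * k + 1) / 2 = k := by omega
        have e3 : (2 * (2 * k + 1) + 1) % 2 = 1 := by omega
        have e4 : (2 * (2 * k + 1) + 1) / 2 = 2 * k + 1 := by omega
        simp [mix, e1, e2, e3, e4, cons]

end inst

end CF
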