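import Pool.Agent.Work.MP_cbc9f3_lc.Answer

/-!
# The notions of the statement in terms of the internal notions
-/

namespace CF

universe u

variable {M : Type u} [ZFM M]

section sat
variable {v : ℕ → M} {φ ψ : Fml}

theorem sat_imp : Sat ZFM.E (.imp φ ψ) v ↔ (Sat ZFM.E φ v → Sat ZFM.E ψ v) := by
  show ¬ (Sat ZFM.E φ v ∧ ¬ Sat ZFM.E ψ v) ↔ _
  tauto

theorem sat_or : Sat ZFM.E (.or φ ψ) v ↔ (Sat ZFM.E φ v ∨ Sat ZFM.E ψ v) := by
  show ¬ (¬ Sat ZFM.E φ v ∧ ¬ Sat ZFM.E ψ v) ↔ _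
  tauto

theorem sat_and : Sat ZFM.E (.and φ ψ) v ↔ (Sat ZFM.E φ v ∧ Sat ZFM.E ψ v) := Iff.rfl

theorem sat_neg : Sat ZFM.E (.neg φ) v ↔ ¬ Sat ZFM.E φ v := Iff.rfl

theorem sat_iff : Sat ZFM.E (.iff φ ψ) v ↔ (Sat ZFM.E φ v ↔ Sat ZFM.E ψ v) := by
  unfold Fml.iff
  rw [sat_and, sat_imp, sat_imp]
  tauto

theorem sat_ex : Sat ZFM.E (.ex φ) v ↔ ∃ x, Sat ZFM.E φ (cons x v) := by
  show ¬ (∀ x, ¬ Sat ZFM.E φ (cons x v)) ↔ _
  push Not
  rfl

theorem sat_all : Sat ZFM.E (.all φ) v ↔ ∀ x, Sat ZFM.E φ (cons x v) := Iff.rfl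

theorem sat_mem {i j : ℕ} : Sat ZFM.E (.mem i j) v ↔ v i ∈ v j := Iff.rfl

theorem sat_eq {i j : ℕ} : Sat ZFM.E (.eq i j) v ↔ v i = v j := Iff.rfl

theorem sat_upair {i j k : ℕ} : Sat ZFM.E (.upair i j k) v ↔ v i = upair (v j) (v k) := by
  unfold Fml.upair
  rw [sat_all]
  constructor
  · intro h
    refine ext fun x => ?_
    have h1 := h x
    rw [sat_iff, sat_or, sat_mem, sat_eq, sat_eq] at h1
    exact h1.trans mem_upair.symm
  · intro h x
    rw [sat_iff, sat_or, sat_mem, sat_eq, sat_eq]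
    show x ∈ v i ↔ (x = v j ∨ x = v k)
    rw [h]
    exact mem_upair

theorem sat_opair {i j k : ℕ} : Sat ZFM.E (.opair i j k) v ↔ v i = opair (v j) (v k) := by
  unfold Fml.opair
  rw [sat_ex]
  constructor
  · rintro ⟨d, h⟩
    rw [sat_ex] at h
    obtain ⟨c, h⟩ := h
    rw [sat_and, sat_and, sat_upair, sat_upair, sat_upair] at h
    obtain ⟨h1, h2, h3⟩ := h
    have e1 : c = upair (v j) (v j) := h1
    have e2 : d = upair (v j) (v k) := h2
    have e3 : v i = upair c d := h3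
    rw [e3, e1, e2]
    rfl
  · intro h
    refine ⟨upair (v j) (v k), ?_⟩
    rw [sat_ex]
    refine ⟨upair (v j) (v j), ?_⟩
    rw [sat_and, sat_and, sat_upair, sat_upair, sat_upair]
    exact ⟨rfl, rfl, h⟩

theorem sat_app {i j k : ℕ} : Sat ZFM.E (.app i j k) v ↔ opair (v i) (v j) ∈ v k := by
  unfold Fml.app
  rw [sat_ex]
  constructor
  · rintro ⟨z, h⟩
    rw [sat_and, sat_opair, sat_mem] at h
    obtain ⟨h1, h2⟩ := h
    have e1 : z = opair (v i) (v j) := h1
    have e2 : z ∈ v k := h2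
    exact e1 ▸ e2
  · intro h
    refine ⟨opair (v i) (v j), ?_⟩
    rw [sat_and, sat_opair, sat_mem]
    exact ⟨rfl, h⟩

theorem sat_ord {i : ℕ} : Sat ZFM.E (.ord i) v ↔ Ord (v i) := by
  unfold Fml.ord
  rw [sat_and]
  refine and_congr ?_ ?_
  · rw [sat_all]
    refine forall_congr' fun x => ?_
    rw [sat_imp, sat_mem, sat_all]
    refine imp_congr Iff.rfl (forall_congr' fun y => ?_)
    rw [sat_imp, sat_mem, sat_mem]
    exact Iff.rfl
  · rw [sat_all]
    refine forall_congr' fun x => ?_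
    rw [sat_imp, sat_mem, sat_all]
    refine imp_congr Iff.rfl (forall_congr' fun y => ?_)
    rw [sat_imp, sat_mem, sat_all]
    refine imp_congr Iff.rfl (forall_congr' fun z => ?_)
    rw [sat_imp, sat_mem, sat_mem]
    exact Iff.rfl

theorem sat_onto {i j k : ℕ} : Sat ZFM.E (.onto i j k) v ↔ Onto (v i) (v j) (v k) := by
  have key : Sat ZFM.E (.onto i j k) v ↔
      (∀ z, z ∈ v i → ∃ x y, (x ∈ v j ∧ y ∈ v k) ∧ z = opair x y) ∧
      (∀ x, x ∈ v j → ∃ y, opair x y ∈ v i) ∧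
      (∀ x y y', (opair x y ∈ v i ∧ opair x y' ∈ v i) → y = y') ∧
      (∀ y, y ∈ v k → ∃ x, opair x y ∈ v i) := by
    unfold Fml.onto
    rw [sat_and, sat_and, sat_and]
    refine and_congr ?_ (and_congr ?_ (and_congr ?_ ?_))
    · rw [sat_all]
      refine forall_congr' fun z => ?_
      rw [sat_imp, sat_mem, sat_ex]
      refine imp_congr Iff.rfl (exists_congr fun x => ?_)
      rw [sat_ex]
      refine exists_congr fun y => ?_
      rw [sat_and, sat_and, sat_mem, sat_mem, sat_opair]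
      exact Iff.rfl
    · rw [sat_all]
      refine forall_congr' fun x => ?_
      rw [sat_imp, sat_mem, sat_ex]
      refine imp_congr Iff.rfl (exists_congr fun y => ?_)
      rw [sat_app]
      exact Iff.rfl
    · rw [sat_all]
      refine forall_congr' fun x => ?_
      rw [sat_all]
      refine forall_congr' fun y => ?_
      rw [sat_all]
      refine forall_congr' fun y' => ?_
      rw [sat_imp, sat_and, sat_app, sat_app, sat_eq]
      exact Iff.rfl
    · rw [sat_all]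
      refine forall_congr' fun y => ?_
      rw [sat_imp, sat_mem, sat_ex]
      refine imp_congr Iff.rfl (exists_congr fun x => ?_)
      rw [sat_app]
      exact Iff.rfl
  rw [key]
  constructor
  · rintro ⟨h1, h2, h3, h4⟩
    have hf : IsFun (v i) (v j) := by
      refine ⟨fun z hz => ?_, fun x hx => ?_⟩
      · obtain ⟨x, y, hxy, e⟩ := h1 z hz
        exact ⟨x, y, hxy.1, e⟩
      · obtain ⟨y, hy⟩ := h2 x hx
        exact ⟨y, hy, fun y' hy' => h3 x y' y ⟨hy', hy⟩⟩
    refine ⟨hf, fun x hx => ?_, fun y hy => ?_⟩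
    · obtain ⟨x', y', hxy, e⟩ := h1 _ (hf.opair_ap hx)
      rw [(opair_inj.1 e).2]
      exact hxy.2
    · obtain ⟨x, hx⟩ := h4 y hy
      exact ⟨x, (hf.opair_iff.1 hx).1, (hf.opair_iff.1 hx).2.symm⟩
  · rintro ⟨hf, h1, h2⟩
    refine ⟨fun z hz => ?_, fun x hx => ⟨_, hf.opair_ap hx⟩, ?_, fun y hy => ?_⟩
    · obtain ⟨x, hx, rfl⟩ := hf.mem_iff.1 hz
      exact ⟨x, _, ⟨hx, h1 x hx⟩, rfl⟩
    · rintro x y y' ⟨e1, e2⟩
      rw [(hf.opair_iff.1 e1).2, (hf.opair_iff.1 e2).2]
    · obtain ⟨x, hx, rfl⟩ := h2 y hy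
      exact ⟨x, hf.opair_ap hx⟩

theorem sat_card : Sat ZFM.E .card v ↔ Card (v 0) := by
  unfold Fml.card
  rw [sat_and, sat_ord]
  refine and_congr_right fun _ => ?_
  rw [sat_all]
  refine forall_congr' fun x => ?_
  rw [sat_imp, sat_mem, sat_all]
  refine imp_congr Iff.rfl (forall_congr' fun f => ?_)
  rw [sat_neg, sat_onto]
  exact Iff.rfl

end sat

theorem isOrd_iff {a : M} : IsOrd ZFM.E a ↔ Ord a := sat_ord

theorem isCard_iff {a : M} : IsCard ZFM.E a ↔ Card a := sat_card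

theorem isOnto_iff {f a b : M} : IsOnto ZFM.E f a b ↔ Onto f a b := sat_onto

theorem isZero_iff {a : M} : IsZero ZFM.E a ↔ a = empt :=
  ⟨fun h => eq_empt h, fun h => h ▸ fun x => not_mem_empt x⟩

theorem isOne_iff {a : M} : IsOne ZFM.E a ↔ a = one := by
  constructor
  · intro h
    refine ext fun x => ?_
    exact (h x).trans (isZero_iff.trans mem_sing.symm)
  · rintro rfl x
    exact mem_sing.trans isZero_iff.symm

/-! ### Alephs -/

theorem isLim_omega : IsLim ZFM.E (omega : M) := by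
  refine ⟨isOrd_iff.2 ord_omega, ⟨empt, empt_mem_omega⟩, fun x hx => ?_⟩
  exact ⟨succ x, succ_mem_omega hx, mem_succ.2 (Or.inr rfl)⟩

theorem omega_sub_of_isLim {a : M} (h : IsLim ZFM.E a) : Sub omega a := by
  obtain ⟨ha, hne, hs⟩ := h
  rw [isOrd_iff] at ha
  have h0 : (empt : M) ∈ a := ha.empt_mem hne
  refine omega_induction (fun x => x ∈ a) h0 ?_
  intro x _ hx
  obtain ⟨y, hy, hxy⟩ := hs x hx
  have hyo := ha.mem hy
  rcases (ha.mem hx).succ.trichotomy ha with h1 | h1 | h1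
  · exact h1
  · exfalso
    have hy' : y ∈ a := hy
    rw [← h1] at hy'
    rcases mem_succ.1 hy' with h2 | h2
    · exact not_mem_mem h2 hxy
    · subst h2
      exact not_mem_self _ hxy
  · exfalso
    rcases mem_succ.1 h1 with h2 | h2
    · exact not_mem_mem h2 hx
    · subst h2
      exact not_mem_self _ hx

theorem isAleph_zero {a : M} (h : IsAleph ZFM.E 0 a) : a = omega := by
  obtain ⟨h1, h2⟩ := h
  have h3 := omega_sub_of_isLim h1
  have h4 : Ord a := isOrd_iff.1 h1.1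
  rcases (ord_omega).trichotomy h4 with h5 | h5 | h5
  · exact absurd isLim_omega (h2 _ h5)
  · exact h5.symm
  · exact absurd (h3 _ h5) (not_mem_self a)

theorem isAleph_ord {n : ℕ} {a : M} (h : IsAleph ZFM.E n a) : Ord a := by
  cases n with
  | zero => exact isOrd_iff.1 h.1.1
  | succ n => exact (isCard_iff.1 h.1).1

theorem isAleph_unique {n : ℕ} : ∀ {a b : M}, IsAleph ZFM.E n a → IsAleph ZFM.E n b → a = b := by
  induction n with
  | zero =>
    intro a b ha hb
    rw [isAleph_zero ha, isAleph_zero hb]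
  | succ n ih =>
    intro a b ha hb
    have hao := isAleph_ord ha
    have hbo := isAleph_ord hb
    obtain ⟨ha1, c, hc, hca, ha2⟩ := ha
    obtain ⟨hb1, d, hd, hdb, hb2⟩ := hb
    have := ih hc hd
    subst this
    rcases hao.trichotomy hbo with h | h | h
    · exact absurd hca (hb2 a h ha1)
    · exact h
    · exact absurd hdb (ha2 b h hb1)

theorem omega_sub_isAleph {n : ℕ} {a : M} (h : IsAleph ZFM.E n a) : Sub omega a := by
  induction n generalizing a with
  | zero => rw [isAleph_zero h]; exact Sub.refl _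
  | succ n ih =>
    have hao := isAleph_ord h
    obtain ⟨_, c, hc, hca, _⟩ := h
    exact (ih hc).trans (hao.1 c hca)

theorem omega_mem_isAleph {n : ℕ} {a : M} (h : IsAleph ZFM.E (n + 1) a) : (omega : M) ∈ a := by
  have hao := isAleph_ord h
  obtain ⟨_, c, hc, hca, _⟩ := h
  have h1 := omega_sub_isAleph hc
  rcases (ord_omega.sub_iff (isAleph_ord hc)).1 h1 with h2 | h2
  · exact hao.trans hca h2
  · exact h2 ▸ hca

/-! ### Conditions -/

theorem isCond_iff {k p : M} : IsCond ZFM.E k p ↔ Cnd k p := by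
  have hfun : (∀ x y y', App ZFM.E x y p → App ZFM.E x y' p → y = y') ↔
      ∀ x i j, opair x i ∈ p → opair x j ∈ p → i = j := by
    simp only [app_iff]
  have hsub : (∀ z, ZFM.E z p → ∃ x y, IsOPair ZFM.E z x y ∧ ZFM.E x k ∧
      (IsZero ZFM.E y ∨ IsOne ZFM.E y)) ↔ Sub p (prod k two) := by
    refine forall_congr' fun z => imp_congr Iff.rfl ?_
    rw [mem_prod]
    refine exists_congr fun x => exists_congr fun y => ?_
    rw [isOPair_iff, isZero_iff, isOne_iff, mem_two, ← mem_def]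
    tauto
  unfold IsCond Cnd
  rw [hfun, hsub]
  refine and_congr_right fun h1 => and_congr_right fun h2 => ?_
  have hdom : ∀ d, IsDom ZFM.E d p ↔ d = dom p := by
    intro d
    constructor
    · intro h
      refine ext fun x => (h x).trans ?_
      rw [mem_dom]
      simp only [app_iff]
    · rintro rfl x
      refine Iff.trans mem_dom ?_
      simp only [app_iff]
  constructor
  · rintro ⟨d, b, f, hd, hb, hf⟩
    rw [hdom] at hd
    subst hd
    rw [isOnto_iff] at hf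
    have h3 : Small k (dom p) := ⟨b, f, hb, hf⟩
    have h4 : p = img (dom p) (fun x => opair x (ap p x)) := by
      refine ext fun z => ?_
      rw [mem_img]
      constructor
      · intro hz
        obtain ⟨x, i, _, _, rfl⟩ := mem_prod.1 (h1 z hz)
        refine ⟨x, mem_dom.2 ⟨i, hz⟩, ?_⟩
        rw [ap_eq_of_unique hz fun y' hy' => h2 _ _ _ hy' hz]
      · rintro ⟨x, hx, rfl⟩
        obtain ⟨i, hi⟩ := mem_dom.1 hx
        rw [ap_eq_of_unique hi fun y' hy' => h2 _ _ _ hy' hi]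
        exact hi
    rw [h4]
    exact h3.img _
  · intro hs
    have h4 : dom p = img p fst := by
      refine ext fun x => ?_
      rw [mem_img, mem_dom]
      constructor
      · rintro ⟨i, hi⟩
        exact ⟨_, hi, (fst_opair _ _).symm⟩
      · rintro ⟨z, hz, rfl⟩
        obtain ⟨x, i, _, _, rfl⟩ := mem_prod.1 (h1 z hz)
        rw [fst_opair]
        exact ⟨i, hz⟩
    obtain ⟨b, f, hb, hf⟩ : Small k (dom p) := by
      rw [h4]
      exact hs.img _
    exact ⟨dom p, b, f, (hdom _).2 rfl, hb, isOnto_iff.2 hf⟩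

theorem isAdd_iff {k P : M} : IsAdd ZFM.E k P ↔ ∀ p, p ∈ P ↔ Cnd k p := by
  refine forall_congr' fun p => ?_
  rw [isCond_iff]
  exact Iff.rfl

theorem exists_add (k : M) : ∃ P, IsAdd ZFM.E k P := by
  refine ⟨sep (pow (prod k two)) (fun p => Cnd k p), isAdd_iff.2 fun p => ?_⟩
  rw [mem_sep, mem_pow]
  exact ⟨fun h => h.2, fun h => ⟨h.1, h⟩⟩

/-! ### Definability -/

theorem dfn_of_formula2 (φ : Fml) (v : ℕ → M) :
    Dfn (fun w => Sat ZFM.E φ (cons (w 0) (cons (w 1) v))) := by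
  refine ⟨φ.ren (fun n => if n = 0 then 0 else if n = 1 then 2 else 2 * (n - 2) + 1), v,
    fun w => ?_⟩
  rw [sat_ren]
  refine iff_of_eq (congrArg _ ?_)
  funext n
  match n with
  | 0 => simp [mix, cons]
  | 1 => simp [mix, cons]
  | n + 2 =>
    have e1 : (2 * n + 1) % 2 = 1 := by omega
    have e2 : (2 * n + 1) / 2 = n := by omega
    simp [mix, cons, e1, e2]

theorem dfn_of_formula3 (φ : Fml) (v : ℕ → M) :
    Dfn (fun w => Sat ZFM.E φ (cons (w 0) (cons (w 1) (cons (w 2) v)))) := by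
  refine ⟨φ.ren (fun n => if n = 0 then 0 else if n = 1 then 2 else if n = 2 then 4 else
    2 * (n - 3) + 1), v, fun w => ?_⟩
  rw [sat_ren]
  refine iff_of_eq (congrArg _ ?_)
  funext n
  match n with
  | 0 => simp [mix, cons]
  | 1 => simp [mix, cons]
  | 2 => simp [mix, cons]
  | n + 3 =>
    have e1 : (2 * n + 1) % 2 = 1 := by omega
    have e2 : (2 * n + 1) / 2 = n := by omega
    simp [mix, cons, e1, e2]

theorem formula_of_dfn2 {R : M → M → Prop} (h : Dfn (fun w => R (w 0) (w 1))) :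
    ∃ (φ : Fml) (v : ℕ → M), ∀ x y, R x y ↔ Sat ZFM.E φ (cons x (cons y v)) := by
  obtain ⟨φ, c, hφ⟩ := h.out
  refine ⟨φ.ren (fun n => if n = 0 then 0 else if n = 2 then 1 else n + 2),
    mix (fun _ => empt) c, fun x y => ?_⟩
  have h1 := hφ (cons x (cons y (fun _ => empt)))
  rw [sat_ren]
  refine Iff.trans (?_ : R x y ↔ _) (h1.trans (iff_of_eq (congrArg _ ?_)))
  · exact Iff.rfl
  funext n
  match n with
  | 0 => simp [mix, cons]
  | 1 => simp [mix, cons]
  | 2 => simp [mix, cons]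
  | n + 3 =>
    by_cases hn : (n + 3) % 2 = 0
    · obtain ⟨k, hk⟩ : ∃ k, n + 3 = 2 * k + 4 := ⟨(n + 3) / 2 - 2, by omega⟩
      rw [hk]
      have e1 : (2 * k + 4) % 2 = 0 := by omega
      have e2 : (2 * k + 4) / 2 = k + 2 := by omega
      simp [mix, e2, cons]
    · obtain ⟨k, hk⟩ : ∃ k, n + 3 = 2 * k + 3 := ⟨(n + 3) / 2 - 1, by omega⟩
      rw [hk]
      have e1 : (2 * k + 3) % 2 = 1 := by omega
      have e2 : (2 * k + 3) / 2 = k + 1 := by omega
      simp [mix, e1, e2, cons]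

theorem formula_of_dfn3 {R : M → M → M → Prop} (h : Dfn (fun w => R (w 0) (w 1) (w 2))) :
    ∃ (φ : Fml) (v : ℕ → M), ∀ x y z, R x y z ↔ Sat ZFM.E φ (cons x (cons y (cons z v))) := by
  obtain ⟨φ, c, hφ⟩ := h.out
  refine ⟨φ.ren (fun n => if n = 0 then 0 else if n = 2 then 1 else if n = 4 then 2 else n + 3),
    mix (fun _ => empt) c, fun x y z => ?_⟩
  have h1 := hφ (cons x (cons y (cons z (fun _ => empt))))
  rw [sat_ren]
  refine Iff.trans (?_ : R x y z ↔ _) (h1.trans (iff_of_eq (congrArg _ ?_)))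
  · exact Iff.rfl
  funext n
  match n with
  | 0 => simp [mix, cons]
  | 1 => simp [mix, cons]
  | 2 => simp [mix, cons]
  | 3 => simp [mix, cons]
  | 4 => simp [mix, cons]
  | n + 5 =>
    by_cases hn : (n + 5) % 2 = 0
    · obtain ⟨k, hk⟩ : ∃ k, n + 5 = 2 * k + 6 := ⟨(n + 5) / 2 - 3, by omega⟩
      rw [hk]
      have e1 : (2 * k + 6) % 2 = 0 := by omega
      have e2 : (2 * k + 6) / 2 = k + 3 := by omega
      simp [mix, e2, cons]
    · obtain ⟨k, hk⟩ : ∃ k, n + 5 = 2 * k + 5 := ⟨(n + 5) / 2 - 2, by omega⟩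
      rw [hk]
      have e1 : (2 * k + 5) % 2 = 1 := by omega
      have e2 : (2 * k + 5) / 2 = k + 2 := by omega
      simp [mix, e1, e2, cons]

theorem isCheck_iff {c : M → M} : IsCheck ZFM.E c ↔ Chk c := by
  constructor
  · rintro ⟨⟨φ, v, hφ⟩, hs⟩
    refine ⟨⟨?_⟩, ?_⟩
    · have h1 := (dfn_of_formula2 φ v).ren (fun n => if n = 0 then 1 else 0)
      exact h1.congr fun w => hφ _ _
    · intro x z
      refine (hs x z).trans (exists_congr fun y => ?_)
      constructor
      · rintro ⟨o, h1, h2, h3⟩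
        rw [isZero_iff] at h2
        rw [isOPair_iff] at h3
        exact ⟨h1, h2 ▸ h3⟩
      · rintro ⟨h1, h2⟩
        exact ⟨empt, h1, isZero_iff.2 rfl, isOPair_iff.2 h2⟩
  · intro h
    refine ⟨?_, ?_⟩
    · obtain ⟨φ, v, hφ⟩ := formula_of_dfn2 (R := fun x y => y = c x) (by
        have := h.dfn.out.ren (fun n => if n = 0 then 1 else 0)
        exact this)
      exact ⟨φ, v, hφ⟩
    · intro x z
      refine (h.spec x z).trans (exists_congr fun y => ?_)
      constructor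
      · rintro ⟨h1, h2⟩
        exact ⟨empt, h1, isZero_iff.2 rfl, isOPair_iff.2 h2⟩
      · rintro ⟨o, h1, h2, h3⟩
        rw [isZero_iff] at h2
        rw [isOPair_iff] at h3
        exact ⟨h1, h2 ▸ h3⟩

theorem isForceEq_iff {P : M} {Q : M → M → M → Prop} :
    IsForceEq ZFM.E P (Le ZFM.E) Q ↔ Frc P (fun q p => Sub p q) Q := by
  constructor
  · rintro ⟨⟨φ, v, hφ⟩, hs⟩
    refine ⟨fun p _ => Sub.refl p, fun p q r _ _ _ h1 h2 => h2.trans h1, inferInstance, ?_, ?_⟩
    · exact (dfn_of_formula3 φ v).congr fun w => hφ _ _ _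
    · intro p hp x y
      have := hs p hp x y
      simp only [app_iff] at this
      exact this
  · intro h
    refine ⟨formula_of_dfn3 h.dfn_Q, ?_⟩
    intro p hp x y
    simp only [app_iff]
    exact h.spec p hp x y

theorem exists_unique_check : ∃! c : M → M, IsCheck ZFM.E c := by
  obtain ⟨c, hc⟩ := exists_chk (M := M)
  exact ⟨c, isCheck_iff.2 hc, fun c' hc' => (isCheck_iff.1 hc').unique hc⟩

theorem exists_forceEq (P : M) : ∃ Q, IsForceEq ZFM.E P (Le ZFM.E) Q := by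
  have i : Dfn (fun v : ℕ → M => (fun q p => Sub p q) (v 0) (v 1)) :=
    (inferInstance : Dfn (fun v : ℕ → M => Sub (v 1) (v 0)))
  obtain ⟨Q, hQ⟩ := exists_frc P (fun q p => Sub p q) (hle := i) (fun p _ => Sub.refl p)
    (fun p q r _ _ _ h1 h2 => h2.trans h1)
  exact ⟨Q, isForceEq_iff.2 hQ⟩

end CF
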