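import Pool.Agent.Work.MP_cbc9f3_lc.Logic

/-!
# Check names, names of pairs
-/

namespace CF

universe u

variable {M : Type u} [ZFM M]

/-- `c` is the function of check names -/
structure Chk (c : M → M) : Prop where
  dfn : DT (fun v => c (v 0))
  spec : ∀ x z, z ∈ c x ↔ ∃ y, y ∈ x ∧ z = opair (c y) empt

theorem exists_chk : ∃ c : M → M, Chk c := by
  obtain ⟨F, hF, hrec⟩ := exists_mem_rec (M := M) (fun x g => img x (fun y => opair (ap g y) empt))
  refine ⟨F, hF, fun x z => ?_⟩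
  rw [hrec x, mem_img]
  constructor
  · rintro ⟨y, hy, rfl⟩
    exact ⟨y, hy, by rw [ap_lam hy]⟩
  · rintro ⟨y, hy, rfl⟩
    exact ⟨y, hy, by rw [ap_lam hy]⟩

theorem Chk.unique {c c' : M → M} (h : Chk c) (h' : Chk c') : c = c' := by
  have i1 : ∀ (s : (ℕ → M) → M) [DT s], DT (fun v => c (s v)) := fun s hs => DT.comp1 h.dfn hs
  have i2 : ∀ (s : (ℕ → M) → M) [DT s], DT (fun v => c' (s v)) := fun s hs => DT.comp1 h'.dfn hs
  funext x
  refine mem_induction (fun x => c x = c' x) ?_ x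
  intro x ih
  refine ext fun z => ?_
  rw [h.spec, h'.spec]
  exact exists_congr fun y => and_congr_right fun hy => by rw [ih y hy]

/-- name of the unordered pair -/
noncomputable def nup (x y : M) : M := upair (opair x empt) (opair y empt)

/-- name of the ordered pair -/
noncomputable def nop (x y : M) : M := nup (nup x x) (nup x y)

theorem Chk.upair {c : M → M} (h : Chk c) (a b : M) : c (upair a b) = nup (c a) (c b) := by
  refine ext fun z => ?_
  rw [h.spec, nup, mem_upair]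
  constructor
  · rintro ⟨y, hy, rfl⟩
    rcases mem_upair.1 hy with rfl | rfl
    · exact Or.inl rfl
    · exact Or.inr rfl
  · rintro (rfl | rfl)
    · exact ⟨a, mem_upair.2 (Or.inl rfl), rfl⟩
    · exact ⟨b, mem_upair.2 (Or.inr rfl), rfl⟩

theorem Chk.opair {c : M → M} (h : Chk c) (a b : M) : c (opair a b) = nop (c a) (c b) := by
  unfold CF.opair sing nop
  rw [h.upair, h.upair, h.upair]

section
variable {P : M} {le : M → M → Prop} {Q : M → M → M → Prop} (h : Frc P le Q)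
  (h0 : (empt : M) ∈ P) (htop : ∀ p, p ∈ P → le p empt)

include h h0 htop

theorem mem_nup {p w x y : M} (hp : p ∈ P) : FMem P le Q p w (nup x y) ↔
    ∀ q, q ∈ P → le q p → ∃ r, r ∈ P ∧ le r q ∧ (Q r w x ∨ Q r w y) := by
  constructor
  · intro hm q hq hqp
    obtain ⟨s, u, t, hs, hsq, hu, _, _, hS⟩ := hm q hq hqp
    refine ⟨s, hs, hsq, ?_⟩
    rcases mem_upair.1 hu with e | e
    · exact Or.inl ((opair_inj.1 e).1 ▸ hS)
    · exact Or.inr ((opair_inj.1 e).1 ▸ hS)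
  · intro hd q hq hqp
    obtain ⟨r, hr, hrq, h1 | h1⟩ := hd q hq hqp
    · exact ⟨r, x, empt, hr, hrq, mem_upair.2 (Or.inl rfl), h0, htop r hr, h1⟩
    · exact ⟨r, y, empt, hr, hrq, mem_upair.2 (Or.inr rfl), h0, htop r hr, h1⟩

theorem nup_cases {p w x y a b : M} (hp : p ∈ P) (hm : FMem P le Q p w (nup x y))
    (h1 : ∀ q, q ∈ P → le q p → Q q w x → Q q a b)
    (h2 : ∀ q, q ∈ P → le q p → Q q w y → Q q a b) : Q p a b := by
  refine h.reg hp fun q hq hqp => ?_
  obtain ⟨r, hr, hrq, h3 | h3⟩ := (mem_nup h h0 htop hp).1 hm q hq hqp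
  · exact ⟨r, hr, hrq, h1 r hr (h.trans _ _ _ hr hq hp hrq hqp) h3⟩
  · exact ⟨r, hr, hrq, h2 r hr (h.trans _ _ _ hr hq hp hrq hqp) h3⟩

theorem mem_nup_left {p x y : M} (hp : p ∈ P) : FMem P le Q p x (nup x y) :=
  (mem_nup h h0 htop hp).2 fun q hq _ => ⟨q, hq, h.refl q hq, Or.inl (h.eq_refl x q hq)⟩

theorem mem_nup_right {p x y : M} (hp : p ∈ P) : FMem P le Q p y (nup x y) :=
  (mem_nup h h0 htop hp).2 fun q hq _ => ⟨q, hq, h.refl q hq, Or.inr (h.eq_refl y q hq)⟩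

theorem nup_congr {p x y x' y' : M} (hp : p ∈ P) (hx : Q p x x') (hy : Q p y y') :
    Q p (nup x y) (nup x' y') := by
  refine h.extensionality hp fun q z hq hqp => ?_
  rw [mem_nup h h0 htop hq, mem_nup h h0 htop hq]
  refine forall_congr' fun r => forall_congr' fun hr => forall_congr' fun hrq =>
    exists_congr fun s => and_congr_right fun hs => and_congr_right fun hsr => ?_
  have hsp := h.trans _ _ _ hs hr hp hsr (h.trans _ _ _ hr hq hp hrq hqp)
  have hx' := h.mono hp hs hsp hx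
  have hy' := h.mono hp hs hsp hy
  refine or_congr ⟨fun h1 => h.eq_trans _ _ _ s hs h1 hx', fun h1 => ?_⟩
    ⟨fun h1 => h.eq_trans _ _ _ s hs h1 hy', fun h1 => ?_⟩
  · exact h.eq_trans _ _ _ s hs h1 (h.eq_symm _ _ s hs hx')
  · exact h.eq_trans _ _ _ s hs h1 (h.eq_symm _ _ s hs hy')

theorem nop_congr {p x y x' y' : M} (hp : p ∈ P) (hx : Q p x x') (hy : Q p y y') :
    Q p (nop x y) (nop x' y') :=
  nup_congr h h0 htop hp (nup_congr h h0 htop hp hx hx) (nup_congr h h0 htop hp hx hy)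

theorem nup_same {p x x' y' : M} (hp : p ∈ P) (hQ : Q p (nup x' y') (nup x x)) :
    Q p x x' ∧ Q p x y' := by
  have h1 : FMem P le Q p x' (nup x x) :=
    h.mem_congr_right hp hQ (mem_nup_left h h0 htop hp)
  have h2 : FMem P le Q p y' (nup x x) :=
    h.mem_congr_right hp hQ (mem_nup_right h h0 htop hp)
  exact ⟨nup_cases h h0 htop hp h1 (fun q hq _ h3 => h.eq_symm _ _ q hq h3)
    (fun q hq _ h3 => h.eq_symm _ _ q hq h3), nup_cases h h0 htop hp h2
    (fun q hq _ h3 => h.eq_symm _ _ q hq h3) (fun q hq _ h3 => h.eq_symm _ _ q hq h3)⟩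

theorem nop_inj {p x y x' y' : M} (hp : p ∈ P) (hQ : Q p (nop x y) (nop x' y')) :
    Q p x x' ∧ Q p y y' := by
  have hQ' := h.eq_symm _ _ p hp hQ
  -- first coordinates
  have hx : Q p x x' := by
    have h1 : FMem P le Q p (nup x x) (nop x' y') :=
      h.mem_congr_right hp hQ (mem_nup_left h h0 htop hp)
    refine nup_cases h h0 htop hp h1 (fun q hq _ h2 => ?_) (fun q hq _ h2 => ?_)
    · exact (nup_same h h0 htop hq (h.eq_symm _ _ q hq h2)).1
    · exact (nup_same h h0 htop hq (h.eq_symm _ _ q hq h2)).1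
  refine ⟨hx, ?_⟩
  -- `y' = x → y = y'`
  have key : ∀ q, q ∈ P → le q p → Q q y x → Q q y y' := by
    intro q hq hqp hyx
    have hQq := h.mono hp hq hqp hQ'
    have h1 : FMem P le Q q (nup x' y') (nop x y) :=
      h.mem_congr_right hq hQq (mem_nup_right h h0 htop hq)
    refine nup_cases h h0 htop hq h1 (fun r hr hrq h2 => ?_) (fun r hr hrq h2 => ?_)
    · exact h.eq_trans _ _ _ r hr (h.mono hq hr hrq hyx) (nup_same h h0 htop hr h2).2
    · have h3 : FMem P le Q r y' (nup x y) :=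
        h.mem_congr_right hr h2 (mem_nup_right h h0 htop hr)
      refine nup_cases h h0 htop hr h3 (fun s hs hsr h4 => ?_) (fun s hs hsr h4 => ?_)
      · exact h.eq_trans _ _ _ s hs (h.mono hr hs hsr (h.mono hq hr hrq hyx))
          (h.eq_symm _ _ s hs h4)
      · exact h.eq_symm _ _ s hs h4
  have h1 : FMem P le Q p (nup x y) (nop x' y') :=
    h.mem_congr_right hp hQ (mem_nup_right h h0 htop hp)
  refine nup_cases h h0 htop hp h1 (fun q hq hqp h2 => ?_) (fun q hq hqp h2 => ?_)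
  · refine key q hq hqp ?_
    have h3 := nup_same h h0 htop hq h2
    exact h.eq_trans _ _ _ q hq (h.eq_symm _ _ q hq h3.2) h3.1
  · have h3 : FMem P le Q q y (nup x' y') :=
      h.mem_congr_right hq h2 (mem_nup_right h h0 htop hq)
    refine nup_cases h h0 htop hq h3 (fun r hr hrq h4 => ?_) (fun r hr hrq h4 => h4)
    have hrp := h.trans _ _ _ hr hq hp hrq hqp
    exact key r hr hrp (h.eq_trans _ _ _ r hr h4 (h.eq_symm _ _ r hr (h.mono hp hr hrp hx)))

/-! ### the formulas for pairs -/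

theorem f_upair {i j k : ℕ} {p : M} {v : ℕ → M} (hp : p ∈ P) :
    F P le Q (.upair i j k) p v ↔ Q p (v i) (nup (v j) (v k)) := by
  unfold Fml.upair
  rw [f_all]
  have key : ∀ x q, q ∈ P → (F P le Q (.or (.eq 0 (j + 1)) (.eq 0 (k + 1))) q (cons x v) ↔
      FMem P le Q q x (nup (v j) (v k))) := by
    intro x q hq
    rw [f_or, mem_nup h h0 htop hq]
    exact Iff.rfl
  constructor
  · intro hf
    refine h.extensionality hp fun q z hq hqp => ?_
    have h1 := (h.f_iff hp).1 (hf z) q hq hqp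
    rw [f_mem, key z q hq] at h1
    exact h1
  · intro hQ x
    rw [h.f_iff hp]
    intro q hq hqp
    rw [f_mem, key x q hq]
    have hQq := h.mono hp hq hqp hQ
    exact ⟨fun h1 => h.mem_congr_right hq hQq h1,
      fun h1 => h.mem_congr_right hq (h.eq_symm _ _ q hq hQq) h1⟩

theorem f_opair {i j k : ℕ} {p : M} {v : ℕ → M} (hp : p ∈ P) :
    F P le Q (.opair i j k) p v ↔ Q p (v i) (nop (v j) (v k)) := by
  unfold Fml.opair
  rw [f_ex]
  constructor
  · intro hf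
    refine h.reg hp fun q hq hqp => ?_
    obtain ⟨r, d, hr, hrq, h1⟩ := hf q hq hqp
    rw [f_ex] at h1
    obtain ⟨s, c, hs, hsr, h2, h3, h4⟩ := h1 r hr (h.refl r hr)
    refine ⟨s, hs, h.trans _ _ _ hs hr hq hsr hrq, ?_⟩
    have h2' := (f_upair h h0 htop hs).1 h2
    have h3' := (f_upair h h0 htop hs).1 h3
    have h4' := (f_upair h h0 htop hs).1 h4
    exact h.eq_trans _ _ _ s hs h4' (nup_congr h h0 htop hs h2' h3')
  · intro hQ q hq hqp
    refine ⟨q, nup (v j) (v k), hq, h.refl q hq, ?_⟩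
    rw [f_ex]
    intro r hr hrq
    refine ⟨r, nup (v j) (v j), hr, h.refl r hr, ?_, ?_, ?_⟩
    · exact (f_upair h h0 htop hr).2 (h.eq_refl _ r hr)
    · exact (f_upair h h0 htop hr).2 (h.eq_refl _ r hr)
    · exact (f_upair h h0 htop hr).2 (h.mono hp hr (h.trans _ _ _ hr hq hp hrq hqp) hQ)

theorem f_app {i j k : ℕ} {p : M} {v : ℕ → M} (hp : p ∈ P) :
    F P le Q (.app i j k) p v ↔ FMem P le Q p (nop (v i) (v j)) (v k) := by
  unfold Fml.app
  rw [f_ex]
  constructor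
  · intro hf
    refine h.mem_reg hp fun q hq hqp => ?_
    obtain ⟨r, z, hr, hrq, h1, h2⟩ := hf q hq hqp
    have h3 : FMem P le Q r z (v k) := (f_mem (i := 0) (j := k + 1) (v := cons z v)).1 h2
    have h4 : Q r z (nop (v i) (v j)) :=
      (f_opair (i := 0) (j := i + 1) (k := j + 1) (v := cons z v) h h0 htop hr).1 h1
    exact ⟨r, hr, hrq, h.mem_congr_left hr h4 h3⟩
  · intro hm q hq hqp
    refine ⟨q, nop (v i) (v j), hq, h.refl q hq, ?_, ?_⟩
    · exact (f_opair h h0 htop hq).2 (h.eq_refl _ q hq)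
    · exact (f_mem (i := 0) (j := k + 1) (v := cons _ v)).2 (h.mem_mono hp hq hqp hm)

variable {c : M → M} (hc : Chk c)

include hc

theorem mem_chk {p x a : M} (hp : p ∈ P) : FMem P le Q p x (c a) ↔
    ∀ q, q ∈ P → le q p → ∃ r b, r ∈ P ∧ le r q ∧ b ∈ a ∧ Q r x (c b) := by
  constructor
  · intro hm q hq hqp
    obtain ⟨s, w, t, hs, hsq, hw, _, _, hS⟩ := hm q hq hqp
    obtain ⟨b, hb, e⟩ := (hc.spec _ _).1 hw
    exact ⟨s, b, hs, hsq, hb, (opair_inj.1 e).1 ▸ hS⟩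
  · intro hd q hq hqp
    obtain ⟨r, b, hr, hrq, hb, h1⟩ := hd q hq hqp
    exact ⟨r, c b, empt, hr, hrq, (hc.spec _ _).2 ⟨b, hb, rfl⟩, h0, htop r hr, h1⟩

theorem eq_chk : ∀ x y p : M, p ∈ P → (Q p (c x) (c y) ↔ x = y) := by
  have hQ := h.dfn_Q
  have i1 : ∀ (s t r : (ℕ → M) → M) [DT s] [DT t] [DT r], Dfn (fun v => Q (s v) (t v) (r v)) :=
    fun s t r hs ht hr => Dfn.comp3 hQ hs ht hr
  have i2 : ∀ (s : (ℕ → M) → M) [DT s], DT (fun v => c (s v)) := fun s hs => DT.comp1 hc.dfn hs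
  refine mem_induction (fun x => ∀ y p : M, p ∈ P → (Q p (c x) (c y) ↔ x = y)) ?_
  intro x ih y p hp
  constructor
  · intro hxy
    rw [h.spec p hp] at hxy
    refine ext fun u => ⟨fun hu => ?_, fun hu => ?_⟩
    · obtain ⟨s, w, t, hs, _, hw, _, _, hS⟩ := hxy.1 (c u) empt p
        ((hc.spec _ _).2 ⟨u, hu, rfl⟩) h0 hp (h.refl p hp) (htop p hp)
      obtain ⟨b, hb, e⟩ := (hc.spec _ _).1 hw
      obtain ⟨rfl, _⟩ := opair_inj.1 e
      exact (ih u hu b s hs).1 hS ▸ hb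
    · obtain ⟨s, z, r, hs, _, hz, _, _, hS⟩ := hxy.2 (c u) empt p
        ((hc.spec _ _).2 ⟨u, hu, rfl⟩) h0 hp (h.refl p hp) (htop p hp)
      obtain ⟨b, hb, e⟩ := (hc.spec _ _).1 hz
      obtain ⟨rfl, _⟩ := opair_inj.1 e
      exact (ih b hb u s hs).1 hS ▸ hb
  · rintro rfl
    exact h.eq_refl _ p hp

theorem mem_chk_chk {p a b : M} (hp : p ∈ P) : FMem P le Q p (c a) (c b) ↔ a ∈ b := by
  rw [mem_chk h h0 htop hc hp]
  constructor
  · intro hd
    obtain ⟨r, d, hr, _, hd, h1⟩ := hd p hp (h.refl p hp)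
    exact (eq_chk h h0 htop hc _ _ r hr).1 h1 ▸ hd
  · intro hab q hq _
    exact ⟨q, a, hq, h.refl q hq, hab, h.eq_refl _ q hq⟩

/-- an ordinal of the model is forced to be an ordinal -/
theorem f_ord {i : ℕ} {p a : M} {v : ℕ → M} (hp : p ∈ P) (hv : v i = c a) (ha : Ord a) :
    F P le Q (.ord i) p v := by
  unfold Fml.ord
  refine ⟨h.f_ball' hp ?_, h.f_ball' hp ?_⟩
  · intro w t q hw ht hq hqp _
    rw [hv] at hw
    obtain ⟨b, hb, e⟩ := (hc.spec _ _).1 hw
    obtain ⟨rfl, _⟩ := opair_inj.1 e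
    refine h.f_ball' (i := 0) hq ?_
    intro w' t' q' hw' ht' hq' _ _
    obtain ⟨d, hd, e'⟩ := (hc.spec _ _).1 hw'
    obtain ⟨rfl, _⟩ := opair_inj.1 e'
    rw [f_mem]
    show FMem P le Q q' (c d) (v i)
    rw [hv, mem_chk_chk h h0 htop hc hq']
    exact ha.trans hb hd
  · intro w t q hw ht hq hqp _
    rw [hv] at hw
    obtain ⟨b, hb, e⟩ := (hc.spec _ _).1 hw
    obtain ⟨rfl, _⟩ := opair_inj.1 e
    refine h.f_ball' (i := 0) hq ?_
    intro w' t' q' hw' ht' hq' _ _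
    obtain ⟨d, hd, e'⟩ := (hc.spec _ _).1 hw'
    obtain ⟨rfl, _⟩ := opair_inj.1 e'
    refine h.f_ball' (i := 0) hq' ?_
    intro w'' t'' q'' hw'' ht'' hq'' _ _
    obtain ⟨k, hk, e''⟩ := (hc.spec _ _).1 hw''
    obtain ⟨rfl, _⟩ := opair_inj.1 e''
    rw [f_mem]
    show FMem P le Q q'' (c k) (c b)
    rw [mem_chk_chk h h0 htop hc hq'']
    exact (ha.mem hb).trans hd hk

end

end CF
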