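import Pool.Agent.Work.MP_cbc9f3_lc.Small

/-!
# Conditions of `Add(k, 1)`, rows, labels
-/

namespace CF

universe u

variable {M : Type u} [ZFM M]

/-- `1` -/
noncomputable def one : M := sing empt

theorem one_ne_empt : (one : M) ≠ empt := by
  intro h
  have h1 : (empt : M) ∈ (one : M) := mem_sing.2 rfl
  rw [h] at h1
  exact not_mem_empt _ h1

/-- `2` -/
noncomputable def two : M := upair empt one

theorem mem_two {i : M} : i ∈ (two : M) ↔ i = empt ∨ i = one := mem_upair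

instance dt_one : DT (fun _ : ℕ → M => (one : M)) := dt_const _

instance dt_two : DT (fun _ : ℕ → M => (two : M)) := dt_const _

/-- conditions -/
def Cnd (k p : M) : Prop :=
  Sub p (prod k two) ∧ (∀ x i j, opair x i ∈ p → opair x j ∈ p → i = j) ∧ Small k p

instance dfn_cnd {k : M} {s : (ℕ → M) → M} [hs : DT s] : Dfn (fun v => Cnd k (s v)) :=
  Dfn.comp1 (R := Cnd k) (by unfold Cnd; infer_instance) hs

/-- the value of the pairing function -/
noncomputable def ff (r x n : M) : M := ap r (opair x n)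

instance dt_ff {r : M} {s t : (ℕ → M) → M} [hs : DT s] [ht : DT t] :
    DT (fun v => ff r (s v) (t v)) :=
  DT.comp2 (t := ff r) (by unfold ff; infer_instance) hs ht

/-- `r` is an injection of `k × k` into `k` -/
structure Prg (k r : M) : Prop where
  mem : ∀ x n, x ∈ k → n ∈ k → ff r x n ∈ k
  inj : ∀ x n y m, x ∈ k → n ∈ k → y ∈ k → m ∈ k → ff r x n = ff r y m → x = y ∧ n = m

/-- the row of an element -/
noncomputable def row (k r y : M) : M := sUn (sep k (fun x => ∃ n, n ∈ k ∧ ff r x n = y))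

/-- the column of an element -/
noncomputable def col (k r y : M) : M := sUn (sep k (fun n => ∃ x, x ∈ k ∧ ff r x n = y))

instance dt_row {k r : M} {s : (ℕ → M) → M} [hs : DT s] : DT (fun v => row k r (s v)) :=
  DT.comp1 (t := row k r) (by unfold row; infer_instance) hs

instance dt_col {k r : M} {s : (ℕ → M) → M} [hs : DT s] : DT (fun v => col k r (s v)) :=
  DT.comp1 (t := col k r) (by unfold col; infer_instance) hs

theorem sUn_sing (a : M) : sUn (sing a) = a := ext fun x => by simp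

theorem row_ff {k r x n : M} (h : Prg k r) (hx : x ∈ k) (hn : n ∈ k) : row k r (ff r x n) = x := by
  unfold row
  have : sep k (fun y => ∃ m, m ∈ k ∧ ff r y m = ff r x n) = sing x := by
    refine ext fun y => ?_
    rw [mem_sep, mem_sing]
    constructor
    · rintro ⟨hy, m, hm, e⟩
      exact (h.inj y m x n hy hm hx hn e).1
    · rintro rfl
      exact ⟨hx, n, hn, rfl⟩
  rw [this, sUn_sing]

theorem col_ff {k r x n : M} (h : Prg k r) (hx : x ∈ k) (hn : n ∈ k) : col k r (ff r x n) = n := by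
  unfold col
  have : sep k (fun m => ∃ y, y ∈ k ∧ ff r y m = ff r x n) = sing n := by
    refine ext fun m => ?_
    rw [mem_sep, mem_sing]
    constructor
    · rintro ⟨hm, y, hy, e⟩
      exact (h.inj y m x n hy hm hx hn e).2
    · rintro rfl
      exact ⟨hn, x, hx, rfl⟩
  rw [this, sUn_sing]

/-- the part of `q` in column `0` -/
noncomputable def Aq (k r q : M) : M :=
  sep (prod k two) (fun z => ∃ x i, z = opair x i ∧ opair (ff r x empt) i ∈ q)

instance dt_Aq {k r : M} {s : (ℕ → M) → M} [hs : DT s] : DT (fun v => Aq k r (s v)) :=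
  DT.comp1 (t := Aq k r) (by unfold Aq; infer_instance) hs

/-- the label of the row `x` in `q` is `n` -/
def Lab (k r q x n : M) : Prop :=
  x ∈ k ∧ n ∈ k ∧ opair (ff r x (succ n)) one ∈ q ∧ ∀ m, m ∈ n → opair (ff r x (succ m)) empt ∈ q

instance dfn_lab {k r : M} {s t u : (ℕ → M) → M} [hs : DT s] [ht : DT t] [hu : DT u] :
    Dfn (fun v => Lab k r (s v) (t v) (u v)) :=
  Dfn.comp3 (R := Lab k r) (by unfold Lab; infer_instance) hs ht hu

/-- the row `x` meets the domain of `q` -/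
def Tch (k r q x : M) : Prop := x ∈ k ∧ ∃ n i, n ∈ k ∧ opair (ff r x n) i ∈ q

instance dfn_tch {k r : M} {s t : (ℕ → M) → M} [hs : DT s] [ht : DT t] :
    Dfn (fun v => Tch k r (s v) (t v)) :=
  Dfn.comp2 (R := Tch k r) (by unfold Tch; infer_instance) hs ht

/-- every row which meets the domain of `q` has a value in column `0` and a label -/
def Full (k r q : M) : Prop :=
  ∀ x, Tch k r q x → (∃ i, opair (ff r x empt) i ∈ q) ∧ ∃ n, Lab k r q x n

instance dfn_full {k r : M} {s : (ℕ → M) → M} [hs : DT s] : Dfn (fun v => Full k r (s v)) :=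
  Dfn.comp1 (R := Full k r) (by unfold Full; infer_instance) hs

/-- `s` decides the value at `n` -/
def Dec (W s n : M) : Prop := ∃ a, opair (opair s n) a ∈ W

instance dfn_dec {W : M} {s t : (ℕ → M) → M} [hs : DT s] [ht : DT t] :
    Dfn (fun v => Dec W (s v) (t v)) :=
  Dfn.comp2 (R := Dec W) (by unfold Dec; infer_instance) hs ht

/-- the key property -/
def Good (k r P W q n x : M) : Prop :=
  q ∈ P ∧ Full k r q ∧ x ∈ k ∧ (∀ i, i ∈ succ n → Dec W (Aq k r q) i) ∧
    (∀ y z, Lab k r q y z → ¬ x ∈ z) ∧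
      ∀ s, s ∈ P → (∃ u, u ∈ P ∧ Sub s u ∧ Sub (Aq k r q) u) → (∀ i, i ∈ succ n → Dec W s i) →
        ∃ y j, opair y j ∈ s ∧ Lab k r q y x

instance dfn_good {k r P W : M} {s t u : (ℕ → M) → M} [hs : DT s] [ht : DT t] [hu : DT u] :
    Dfn (fun v => Good k r P W (s v) (t v) (u v)) :=
  Dfn.comp3 (R := Good k r P W) (by unfold Good; infer_instance) hs ht hu

/-! ### Basic facts -/

section
variable {k r : M} (hk : Card k) (hω : Sub (omega : M) k) (hr : Prg k r)

theorem Cnd.mem_k {p x i : M} (hp : Cnd k p) (h : opair x i ∈ p) : x ∈ k ∧ i ∈ (two : M) :=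
  opair_mem_prod.1 (hp.1 _ h)

theorem opair_mem_Aq {q x i : M} : opair x i ∈ Aq k r q ↔
    x ∈ k ∧ i ∈ (two : M) ∧ opair (ff r x empt) i ∈ q := by
  unfold Aq
  rw [mem_sep, opair_mem_prod]
  constructor
  · rintro ⟨⟨hx, hi⟩, x', i', e, h⟩
    obtain ⟨rfl, rfl⟩ := opair_inj.1 e
    exact ⟨hx, hi, h⟩
  · rintro ⟨hx, hi, h⟩
    exact ⟨⟨hx, hi⟩, x, i, rfl, h⟩

theorem Aq_mono {q q' : M} (h : Sub q q') : Sub (Aq k r q) (Aq k r q') := by
  intro z hz
  obtain ⟨x, i, _, _, rfl⟩ := mem_prod.1 (mem_sep.1 hz).1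
  rw [opair_mem_Aq] at hz ⊢
  exact ⟨hz.1, hz.2.1, h _ hz.2.2⟩

include hω hr in
theorem Cnd.Aq {q : M} (hq : Cnd k q) : Cnd k (Aq k r q) := by
  refine ⟨fun z hz => (mem_sep.1 hz).1, ?_, ?_⟩
  · intro x i j hi hj
    rw [opair_mem_Aq] at hi hj
    exact hq.2.1 _ _ _ hi.2.2 hj.2.2
  · refine (hq.2.2.img (fun z => opair (row k r (fst z)) (snd z))).sub hω ?_
    intro z hz
    obtain ⟨x, i, hx, _, rfl⟩ := mem_prod.1 (mem_sep.1 hz).1
    rw [opair_mem_Aq] at hz
    refine mem_img.2 ⟨_, hz.2.2, ?_⟩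
    rw [fst_opair, snd_opair, row_ff hr hx (hω _ empt_mem_omega)]

include hk in
theorem Lab.unique {q x n m : M} (hq : Cnd k q) (h1 : Lab k r q x n) (h2 : Lab k r q x m) :
    n = m := by
  rcases (hk.1.mem h1.2.1).trichotomy (hk.1.mem h2.2.1) with h | h | h
  · exact absurd (hq.2.1 _ _ _ h1.2.2.1 (h2.2.2.2 n h)) one_ne_empt
  · exact h
  · exact absurd (hq.2.1 _ _ _ h2.2.2.1 (h1.2.2.2 m h)) one_ne_empt

theorem Lab.mono {q q' x n : M} (h : Sub q q') (h1 : Lab k r q x n) : Lab k r q' x n :=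
  ⟨h1.1, h1.2.1, h _ h1.2.2.1, fun m hm => h _ (h1.2.2.2 m hm)⟩

include hk hω in
theorem Lab.tch {q x n : M} (h1 : Lab k r q x n) : Tch k r q x :=
  ⟨h1.1, succ n, one, hk.succ_mem hω h1.2.1, h1.2.2.1⟩

include hk hω in
theorem Cnd.un {p q : M} (hp : Cnd k p) (hq : Cnd k q)
    (h : ∀ x i j, opair x i ∈ p → opair x j ∈ q → i = j) : Cnd k (un p q) := by
  refine ⟨?_, ?_, hp.2.2.un hk hω hq.2.2⟩
  · intro z hz
    rcases mem_un.1 hz with hz | hz
    · exact hp.1 z hz
    · exact hq.1 z hz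
  · intro x i j hi hj
    rcases mem_un.1 hi with hi | hi <;> rcases mem_un.1 hj with hj | hj
    · exact hp.2.1 _ _ _ hi hj
    · exact h _ _ _ hi hj
    · exact (h _ _ _ hj hi).symm
    · exact hq.2.1 _ _ _ hi hj

theorem sub_un_left (a b : M) : Sub a (un a b) := fun _ h => mem_un.2 (Or.inl h)

theorem sub_un_right (a b : M) : Sub b (un a b) := fun _ h => mem_un.2 (Or.inr h)

theorem sUn_succ {a : M} (ha : Ord a) : sUn (succ a) = a := by
  refine ext fun x => ?_
  rw [mem_sUn]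
  constructor
  · rintro ⟨y, hy, hx⟩
    rcases mem_succ.1 hy with hy | rfl
    · exact ha.trans hy hx
    · exact hx
  · intro hx
    exact ⟨a, mem_succ.2 (Or.inr rfl), hx⟩

include hω hr in
theorem small_tch {q : M} (hq : Cnd k q) : Small k (sep k (fun x => Tch k r q x)) := by
  refine (hq.2.2.img (fun z => row k r (fst z))).sub hω ?_
  intro x hx
  obtain ⟨hx, _, n, i, hn, h⟩ := mem_sep.1 hx
  refine mem_img.2 ⟨_, h, ?_⟩
  rw [fst_opair, row_ff hr hx hn]

include hk hω hr in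
/-- the labels of a condition are bounded -/
theorem exists_lab_bound {q : M} (hq : Cnd k q) :
    ∃ b, b ∈ k ∧ ∀ x n, Lab k r q x n → n ∈ b := by
  have hs : Small k (sUn (sep k (fun n => ∃ x, Lab k r q x n))) := by
    refine (hq.2.2.img (fun z => sUn (col k r (fst z)))).sub hω ?_
    intro m hm
    obtain ⟨n, hn, hmn⟩ := mem_sUn.1 hm
    obtain ⟨hn, x, hx⟩ := mem_sep.1 hn
    have hmk : m ∈ k := hk.1.trans hn hmn
    refine mem_img.2 ⟨_, hx.2.2.2 m hmn, ?_⟩
    rw [fst_opair, col_ff hr hx.1 (hk.succ_mem hω hmk), sUn_succ (hk.1.mem hmk)]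
  obtain ⟨b, hb, h⟩ := exists_bound hk hω (fun n hn => (mem_sep.1 hn).1) hs
  exact ⟨b, hb, fun x n hx => h n (mem_sep.2 ⟨hx.2.1, x, hx⟩)⟩

include hk hω hr in
/-- every column is unbounded -/
theorem exists_big {b y : M} (hb : b ∈ k) (hy : y ∈ k) :
    ∃ x, x ∈ k ∧ ¬ x ∈ b ∧ col k r x = y := by
  by_contra hcon
  push Not at hcon
  refine not_small_self hk ((small_of_mem hb).img (fun z => row k r z) |>.sub hω ?_)
  intro z hz
  refine mem_img.2 ⟨ff r z y, ?_, (row_ff hr hz hy).symm⟩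
  by_contra hno
  exact hcon _ (hr.mem z y hz hy) hno (col_ff hr hz hy)

end

end CF
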