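import Pool.Agent.Work.MP_cbc9f3_lc.Cohen

/-!
# Extending a condition to a full one
-/

namespace CF

universe u

variable {M : Type u} [ZFM M]

section
variable {k r : M} (hk : Card k) (hω : Sub (omega : M) k) (hr : Prg k r)

include hk hω hr

theorem exists_full {q : M} (hq : Cnd k q) : ∃ p, Cnd k p ∧ Sub q p ∧ Full k r p := by
  have h0k : (empt : M) ∈ k := hω _ empt_mem_omega
  have hpar : ∀ x n, x ∈ k → n ∈ k → ff r x n ∈ k := hr.mem
  -- new zeros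
  let X0 : M := sep (prod k two) (fun z => ∃ x, Tch k r q x ∧ z = opair (ff r x empt) empt ∧
    ¬ ∃ i, opair (ff r x empt) i ∈ q)
  -- new ones
  let X1 : M := sep (prod k two) (fun z => ∃ x n, Tch k r q x ∧ n ∈ k ∧
    z = opair (ff r x (succ n)) one ∧ (¬ ∃ i, opair (ff r x (succ n)) i ∈ q) ∧
    ∀ m, m ∈ n → opair (ff r x (succ m)) empt ∈ q)
  have hX0 : ∀ z, z ∈ X0 ↔ z ∈ prod k two ∧ ∃ x, Tch k r q x ∧ z = opair (ff r x empt) empt ∧
    ¬ ∃ i, opair (ff r x empt) i ∈ q := fun z => mem_sep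
  have hX1 : ∀ z, z ∈ X1 ↔ z ∈ prod k two ∧ ∃ x n, Tch k r q x ∧ n ∈ k ∧
    z = opair (ff r x (succ n)) one ∧ (¬ ∃ i, opair (ff r x (succ n)) i ∈ q) ∧
    ∀ m, m ∈ n → opair (ff r x (succ m)) empt ∈ q := fun z => mem_sep
  have hnu : ∀ x n n', n ∈ k → n' ∈ k → (¬ ∃ i, opair (ff r x (succ n)) i ∈ q) →
      (∀ m, m ∈ n → opair (ff r x (succ m)) empt ∈ q) →
      (¬ ∃ i, opair (ff r x (succ n')) i ∈ q) →
      (∀ m, m ∈ n' → opair (ff r x (succ m)) empt ∈ q) → n = n' := by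
    intro x n n' hn hn' h1 h2 h3 h4
    rcases (hk.1.mem hn).trichotomy (hk.1.mem hn') with h | h | h
    · exact absurd ⟨_, h4 n h⟩ h1
    · exact h
    · exact absurd ⟨_, h2 n' h⟩ h3
  have hc0 : Cnd k X0 := by
    refine ⟨fun z hz => ((hX0 z).1 hz).1, ?_, ?_⟩
    · intro x i j hi hj
      obtain ⟨_, x1, _, e1, _⟩ := (hX0 _).1 hi
      obtain ⟨_, x2, _, e2, _⟩ := (hX0 _).1 hj
      rw [(opair_inj.1 e1).2, (opair_inj.1 e2).2]
    · refine ((small_tch hω hr hq).img (fun x => opair (ff r x empt) empt)).sub hω ?_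
      intro z hz
      obtain ⟨_, x, hx, e, _⟩ := (hX0 _).1 hz
      exact mem_img.2 ⟨x, mem_sep.2 ⟨hx.1, hx⟩, e⟩
  have hc1 : Cnd k X1 := by
    refine ⟨fun z hz => ((hX1 z).1 hz).1, ?_, ?_⟩
    · intro x i j hi hj
      obtain ⟨_, x1, n1, _, _, e1, _⟩ := (hX1 _).1 hi
      obtain ⟨_, x2, n2, _, _, e2, _⟩ := (hX1 _).1 hj
      rw [(opair_inj.1 e1).2, (opair_inj.1 e2).2]
    · refine ((small_tch hω hr hq).img (fun x => opair (ff r x (succ (sUn (sep k (fun n =>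
        (¬ ∃ i, opair (ff r x (succ n)) i ∈ q) ∧
        ∀ m, m ∈ n → opair (ff r x (succ m)) empt ∈ q))))) one)).sub hω ?_
      intro z hz
      obtain ⟨_, x, n, hx, hn, e, h1, h2⟩ := (hX1 _).1 hz
      refine mem_img.2 ⟨x, mem_sep.2 ⟨hx.1, hx⟩, ?_⟩
      have : sep k (fun n => (¬ ∃ i, opair (ff r x (succ n)) i ∈ q) ∧
        ∀ m, m ∈ n → opair (ff r x (succ m)) empt ∈ q) = sing n := by
        refine ext fun n' => ?_
        rw [mem_sep, mem_sing]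
        constructor
        · rintro ⟨hn', h3, h4⟩
          exact hnu x n' n hn' hn h3 h4 h1 h2
        · rintro rfl
          exact ⟨hn, h1, h2⟩
      rw [this, sUn_sing]
      exact e
  have hc01 : Cnd k (un X0 X1) := by
    refine hc0.un hk hω hc1 ?_
    intro x i j hi hj
    obtain ⟨_, x1, hx1, e1, _⟩ := (hX0 _).1 hi
    obtain ⟨_, x2, n2, hx2, hn2, e2, _⟩ := (hX1 _).1 hj
    have e3 := (opair_inj.1 e1).1.symm.trans (opair_inj.1 e2).1
    have e4 := (hr.inj _ _ _ _ hx1.1 h0k hx2.1 (hk.succ_mem hω hn2) e3).2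
    exact absurd (e4 ▸ mem_succ.2 (Or.inr rfl) : n2 ∈ (empt : M)) (not_mem_empt _)
  have hcp : Cnd k (un q (un X0 X1)) := by
    refine hq.un hk hω hc01 ?_
    intro x i j hi hj
    rcases mem_un.1 hj with hj | hj
    · obtain ⟨_, x1, hx1, e1, h1⟩ := (hX0 _).1 hj
      obtain ⟨rfl, rfl⟩ := opair_inj.1 e1
      exact absurd ⟨i, hi⟩ h1
    · obtain ⟨_, x1, n1, hx1, hn1, e1, h1, _⟩ := (hX1 _).1 hj
      obtain ⟨rfl, rfl⟩ := opair_inj.1 e1
      exact absurd ⟨i, hi⟩ h1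
  have hsub : Sub q (un q (un X0 X1)) := sub_un_left _ _
  refine ⟨_, hcp, hsub, ?_⟩
  intro x hx
  -- the row was already met by `q`
  have hxq : Tch k r q x := by
    obtain ⟨hxk, n, i, hn, h⟩ := hx
    rcases mem_un.1 h with h | h
    · exact ⟨hxk, n, i, hn, h⟩
    · rcases mem_un.1 h with h | h
      · obtain ⟨_, x1, hx1, e1, _⟩ := (hX0 _).1 h
        have e4 := (hr.inj _ _ _ _ hxk hn hx1.1 h0k (opair_inj.1 e1).1).1
        exact e4 ▸ hx1
      · obtain ⟨_, x1, n1, hx1, hn1, e1, _⟩ := (hX1 _).1 h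
        have e4 := (hr.inj _ _ _ _ hxk hn hx1.1 (hk.succ_mem hω hn1) (opair_inj.1 e1).1).1
        exact e4 ▸ hx1
  refine ⟨?_, ?_⟩
  · by_cases h : ∃ i, opair (ff r x empt) i ∈ q
    · obtain ⟨i, hi⟩ := h
      exact ⟨i, hsub _ hi⟩
    · refine ⟨empt, mem_un.2 (Or.inr (mem_un.2 (Or.inl ((hX0 _).2 ⟨?_, x, hxq, rfl, h⟩))))⟩
      exact opair_mem_prod.2 ⟨hpar _ _ hxq.1 h0k, mem_two.2 (Or.inl rfl)⟩
  · -- the least column not containing `0`
    have hex : ∃ n, n ∈ k ∧ ¬ opair (ff r x (succ n)) empt ∈ q := by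
      by_contra hcon
      push Not at hcon
      refine not_small_self hk ((hq.2.2.img (fun z => sUn (col k r (fst z)))).sub hω ?_)
      intro n hn
      refine mem_img.2 ⟨_, hcon n hn, ?_⟩
      rw [fst_opair, col_ff hr hxq.1 (hk.succ_mem hω hn), sUn_succ (hk.1.mem hn)]
    obtain ⟨n0, hn0, hn0q⟩ := hex
    obtain ⟨n, hn, hnq, hmin⟩ := exists_least_mem
      (fun n => ¬ opair (ff r x (succ n)) empt ∈ q) hk.1 hn0 hn0q
    have hmin' : ∀ m, m ∈ n → opair (ff r x (succ m)) empt ∈ q := fun m hm => by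
      by_contra h
      exact hmin m hm h
    refine ⟨n, hxq.1, hn, ?_, fun m hm => hsub _ (hmin' m hm)⟩
    by_cases h1 : ∃ i, opair (ff r x (succ n)) i ∈ q
    · obtain ⟨i, hi⟩ := h1
      rcases mem_two.1 (hq.mem_k hi).2 with rfl | rfl
      · exact absurd hi hnq
      · exact hsub _ hi
    · refine mem_un.2 (Or.inr (mem_un.2 (Or.inr ((hX1 _).2 ⟨?_, x, n, hxq, hn, rfl, h1, hmin'⟩))))
      exact opair_mem_prod.2 ⟨hpar _ _ hxq.1 (hk.succ_mem hω hn), mem_two.2 (Or.inr rfl)⟩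

end

end CF
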