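import Pool.Agent.Work.MP_cbc9f3_lc.Cohen2

/-!
# Good conditions are consistent and dense
-/

namespace CF

universe u

variable {M : Type u} [ZFM M]

section
variable {k r P W p0 : M} (hk : Card k) (hω : Sub (omega : M) k) (hr : Prg k r)
  (hP : ∀ p, p ∈ P ↔ Cnd k p)

include hk hω hr hP

theorem good_le {q q' u n x x' : M} (h : Good k r P W q n x) (h' : Good k r P W q' n x')
    (hu : u ∈ P) (hqu : Sub q u) (hqu' : Sub q' u) : ¬ x' ∈ x := by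
  have hA : Aq k r q' ∈ P := (hP _).2 (((hP _).1 h'.1).Aq hω hr)
  have hAu : Aq k r u ∈ P := (hP _).2 (((hP _).1 hu).Aq hω hr)
  obtain ⟨y, j, hy, hl⟩ := h.2.2.2.2.2 _ hA ⟨_, hAu, Aq_mono hqu', Aq_mono hqu⟩ h'.2.2.2.1
  rw [opair_mem_Aq] at hy
  obtain ⟨_, m, hm⟩ := h'.2.1 y ⟨hy.1, empt, j, hω _ empt_mem_omega, hy.2.2⟩
  have : m = x := (hm.mono hqu').unique hk ((hP _).1 hu) (hl.mono hqu)
  subst this
  exact h'.2.2.2.2.1 _ _ hm

theorem good_unique {q q' u n x x' : M} (h : Good k r P W q n x) (h' : Good k r P W q' n x')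
    (hu : u ∈ P) (hqu : Sub q u) (hqu' : Sub q' u) : x = x' := by
  have h1 := good_le hk hω hr hP h h' hu hqu hqu'
  have h2 := good_le hk hω hr hP h' h hu hqu' hqu
  rcases (hk.1.mem h.2.2.1).trichotomy (hk.1.mem h'.2.2.1) with h3 | h3 | h3
  · exact absurd h3 h2
  · exact h3
  · exact absurd h3 h1

theorem good_dense
    (hmono : ∀ q r n x, q ∈ P → r ∈ P → Sub q r → opair (opair q n) x ∈ W →
      opair (opair r n) x ∈ W)
    (hreg : ∀ q, q ∈ P → ∀ n x, (∀ r, r ∈ P → Sub q r → ∃ r', r' ∈ P ∧ Sub r r' ∧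
      opair (opair r' n) x ∈ W) → opair (opair q n) x ∈ W)
    (hfun : ∀ q, q ∈ P → Sub p0 q → ∀ n x y, opair (opair q n) x ∈ W →
      opair (opair q n) y ∈ W → x = y)
    (htot : ∀ q, q ∈ P → Sub p0 q → ∀ n, n ∈ (omega : M) → ∃ r x, r ∈ P ∧ Sub q r ∧
      opair (opair r n) x ∈ W)
    (hnew : ∀ q, q ∈ P → Sub p0 q → ∃ n, n ∈ (omega : M) ∧ ¬ Dec W q n)
    {q e : M} (hq : q ∈ P) (hA0 : Sub p0 (Aq k r q)) (he : e ∈ k) :
    ∃ p n x, p ∈ P ∧ Sub q p ∧ n ∈ (omega : M) ∧ Good k r P W p n x ∧ col k r x = e := by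
  have h0k : (empt : M) ∈ k := hω _ empt_mem_omega
  obtain ⟨p, hp, hqp, hfull⟩ := exists_full hk hω hr ((hP _).1 hq)
  have hAc : Cnd k (Aq k r p) := hp.Aq hω hr
  have hA : Aq k r p ∈ P := (hP _).2 hAc
  have hA0' : Sub p0 (Aq k r p) := hA0.trans (Aq_mono hqp)
  -- the least undecided value
  obtain ⟨m0, hm0, hm0'⟩ := hnew _ hA hA0'
  obtain ⟨m, hm, hmD, hmin⟩ := exists_least_mem (fun n => ¬ Dec W (Aq k r p) n) ord_omega hm0 hm0'
  obtain ⟨s0, a0, hs0, hAs0, hW0⟩ := htot _ hA hA0' m hm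
  obtain ⟨w, hw, hAw, hwn⟩ : ∃ w, w ∈ P ∧ Sub (Aq k r p) w ∧
      ∀ r', r' ∈ P → Sub w r' → ¬ opair (opair r' m) a0 ∈ W := by
    by_contra hcon
    push Not at hcon
    exact hmD ⟨a0, hreg _ hA m a0 hcon⟩
  obtain ⟨s1, a1, hs1, hws1, hW1⟩ := htot _ hw (hA0'.trans hAw) m hm
  have hAs1 : Sub (Aq k r p) s1 := hAw.trans hws1
  have hne : a0 ≠ a1 := fun h => hwn s1 hs1 hws1 (h ▸ hW1)
  have hc0 := (hP _).1 hs0
  have hc1 := (hP _).1 hs1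
  -- the label
  obtain ⟨b, hb, hbl⟩ := exists_lab_bound hk hω hr hp
  obtain ⟨x, hx, hxb, hxe⟩ := exists_big hk hω hr hb he
  -- the new rows
  let N : M := sep k (fun y => (∃ j, opair y j ∈ s0 ∨ opair y j ∈ s1) ∧ ¬ Tch k r p y)
  have hN : ∀ y, y ∈ N ↔ y ∈ k ∧ (∃ j, opair y j ∈ s0 ∨ opair y j ∈ s1) ∧ ¬ Tch k r p y :=
    fun y => mem_sep
  have hNs : Small k N := by
    refine (((hc0.2.2.un hk hω hc1.2.2)).img fst).sub hω ?_
    intro y hy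
    obtain ⟨_, ⟨j, hj⟩, _⟩ := (hN y).1 hy
    exact mem_img.2 ⟨opair y j, mem_un.2 hj, (fst_opair _ _).symm⟩
  -- the new values
  let Y0 : M := sep (prod k two) (fun z => ∃ y i, y ∈ N ∧ z = opair (ff r y empt) i ∧
    (opair y i ∈ s0 ∨ (i = empt ∧ ¬ ∃ j, opair y j ∈ s0)))
  let Y1 : M := sep (prod k two) (fun z => ∃ y n, y ∈ N ∧ n ∈ x ∧
    z = opair (ff r y (succ n)) empt)
  let Y2 : M := sep (prod k two) (fun z => ∃ y, y ∈ N ∧ z = opair (ff r y (succ x)) one)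
  have hY0 : ∀ z, z ∈ Y0 ↔ z ∈ prod k two ∧ ∃ y i, y ∈ N ∧ z = opair (ff r y empt) i ∧
    (opair y i ∈ s0 ∨ (i = empt ∧ ¬ ∃ j, opair y j ∈ s0)) := fun z => mem_sep
  have hY1 : ∀ z, z ∈ Y1 ↔ z ∈ prod k two ∧ ∃ y n, y ∈ N ∧ n ∈ x ∧
    z = opair (ff r y (succ n)) empt := fun z => mem_sep
  have hY2 : ∀ z, z ∈ Y2 ↔ z ∈ prod k two ∧ ∃ y, y ∈ N ∧ z = opair (ff r y (succ x)) one :=
    fun z => mem_sep
  have hxo : Ord x := hk.1.mem hx
  have hxk : ∀ n, n ∈ x → n ∈ k := fun n hn => hk.1.trans hx hn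
  have hsk : ∀ n, n ∈ k → succ n ∈ k := fun n hn => hk.succ_mem hω hn
  have hNk : ∀ y, y ∈ N → y ∈ k := fun y hy => ((hN y).1 hy).1
  have hcY0 : Cnd k Y0 := by
    refine ⟨fun z hz => ((hY0 z).1 hz).1, ?_, ?_⟩
    · intro y i j hi hj
      obtain ⟨_, y1, i1, hy1, e1, d1⟩ := (hY0 _).1 hi
      obtain ⟨_, y2, i2, hy2, e2, d2⟩ := (hY0 _).1 hj
      obtain ⟨rfl, rfl⟩ := opair_inj.1 e1
      obtain ⟨e3, rfl⟩ := opair_inj.1 e2
      have e4 := (hr.inj _ _ _ _ (hNk _ hy1) h0k (hNk _ hy2) h0k e3).1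
      subst e4
      rcases d1 with d1 | d1 <;> rcases d2 with d2 | d2
      · exact hc0.2.1 _ _ _ d1 d2
      · exact absurd ⟨_, d1⟩ d2.2
      · exact absurd ⟨_, d2⟩ d1.2
      · rw [d1.1, d2.1]
    · have h1 := (hc0.2.2.img (fun z => opair (ff r (fst z) empt) (snd z))).un hk hω
        (hNs.img (fun y => opair (ff r y empt) empt))
      refine h1.sub hω ?_
      intro z hz
      obtain ⟨_, y, i, hy, rfl, d⟩ := (hY0 _).1 hz
      rcases d with d | d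
      · exact mem_un.2 (Or.inl (mem_img.2 ⟨_, d, by rw [fst_opair, snd_opair]⟩))
      · exact mem_un.2 (Or.inr (mem_img.2 ⟨y, hy, by rw [d.1]⟩))
  have hcY1 : Cnd k Y1 := by
    refine ⟨fun z hz => ((hY1 z).1 hz).1, ?_, ?_⟩
    · intro y i j hi hj
      obtain ⟨_, y1, n1, _, _, e1⟩ := (hY1 _).1 hi
      obtain ⟨_, y2, n2, _, _, e2⟩ := (hY1 _).1 hj
      rw [(opair_inj.1 e1).2, (opair_inj.1 e2).2]
    · refine ((hNs.prod hk hω (small_of_mem hx)).img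
        (fun z => opair (ff r (fst z) (succ (snd z))) empt)).sub hω ?_
      intro z hz
      obtain ⟨_, y, n, hy, hn, rfl⟩ := (hY1 _).1 hz
      exact mem_img.2 ⟨opair y n, opair_mem_prod.2 ⟨hy, hn⟩, by rw [fst_opair, snd_opair]⟩
  have hcY2 : Cnd k Y2 := by
    refine ⟨fun z hz => ((hY2 z).1 hz).1, ?_, ?_⟩
    · intro y i j hi hj
      obtain ⟨_, y1, _, e1⟩ := (hY2 _).1 hi
      obtain ⟨_, y2, _, e2⟩ := (hY2 _).1 hj
      rw [(opair_inj.1 e1).2, (opair_inj.1 e2).2]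
    · refine (hNs.img (fun y => opair (ff r y (succ x)) one)).sub hω ?_
      intro z hz
      obtain ⟨_, y, hy, rfl⟩ := (hY2 _).1 hz
      exact mem_img.2 ⟨y, hy, rfl⟩
  have hc12 : Cnd k (un Y1 Y2) := by
    refine hcY1.un hk hω hcY2 ?_
    intro y i j hi hj
    obtain ⟨_, y1, n1, hy1, hn1, e1⟩ := (hY1 _).1 hi
    obtain ⟨_, y2, hy2, e2⟩ := (hY2 _).1 hj
    have e3 := (opair_inj.1 e1).1.symm.trans (opair_inj.1 e2).1
    have e4 := succ_inj (hr.inj _ _ _ _ (hNk _ hy1) (hsk _ (hxk _ hn1)) (hNk _ hy2) (hsk _ hx) e3).2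
    exact absurd (e4 ▸ hn1) (not_mem_self _)
  have hc012 : Cnd k (un Y0 (un Y1 Y2)) := by
    refine hcY0.un hk hω hc12 ?_
    intro y i j hi hj
    obtain ⟨_, y1, i1, hy1, e1, _⟩ := (hY0 _).1 hi
    have hz : ∀ n : M, ¬ (empt : M) = succ n := fun n h =>
      not_mem_empt n (h ▸ mem_succ.2 (Or.inr rfl))
    rcases mem_un.1 hj with hj | hj
    · obtain ⟨_, y2, n2, hy2, hn2, e2⟩ := (hY1 _).1 hj
      have e3 := (opair_inj.1 e1).1.symm.trans (opair_inj.1 e2).1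
      exact absurd (hr.inj _ _ _ _ (hNk _ hy1) h0k (hNk _ hy2) (hsk _ (hxk _ hn2)) e3).2 (hz _)
    · obtain ⟨_, y2, hy2, e2⟩ := (hY2 _).1 hj
      have e3 := (opair_inj.1 e1).1.symm.trans (opair_inj.1 e2).1
      exact absurd (hr.inj _ _ _ _ (hNk _ hy1) h0k (hNk _ hy2) (hsk _ hx) e3).2 (hz _)
  -- all new values are in new rows
  have hnewrow : ∀ z i, opair z i ∈ un Y0 (un Y1 Y2) → ∃ y n, y ∈ N ∧ n ∈ k ∧ z = ff r y n := by
    intro z i hz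
    rcases mem_un.1 hz with hz | hz
    · obtain ⟨_, y, i', hy, e1, _⟩ := (hY0 _).1 hz
      exact ⟨y, _, hy, h0k, (opair_inj.1 e1).1⟩
    · rcases mem_un.1 hz with hz | hz
      · obtain ⟨_, y, n, hy, hn, e1⟩ := (hY1 _).1 hz
        exact ⟨y, _, hy, hsk _ (hxk _ hn), (opair_inj.1 e1).1⟩
      · obtain ⟨_, y, hy, e1⟩ := (hY2 _).1 hz
        exact ⟨y, _, hy, hsk _ hx, (opair_inj.1 e1).1⟩
  obtain ⟨p2, hp2e⟩ : ∃ p2 : M, p2 = un p (un Y0 (un Y1 Y2)) := ⟨_, rfl⟩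
  have hp2 : Cnd k p2 := by
    rw [hp2e]
    refine hp.un hk hω hc012 ?_
    intro z i j hi hj
    obtain ⟨y, n, hy, hn, rfl⟩ := hnewrow _ _ hj
    exact absurd ⟨hNk _ hy, n, i, hn, hi⟩ ((hN y).1 hy).2.2
  have hpp2 : Sub p p2 := hp2e ▸ sub_un_left _ _
  have hYp2 : ∀ z, z ∈ un Y0 (un Y1 Y2) → z ∈ p2 := fun z hz => hp2e ▸ mem_un.2 (Or.inr hz)
  have hTch : ∀ y, Tch k r p2 y → Tch k r p y ∨ y ∈ N := by
    rintro y ⟨hy, n, i, hn, h⟩
    rw [hp2e] at h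
    rcases mem_un.1 h with h | h
    · exact Or.inl ⟨hy, n, i, hn, h⟩
    · obtain ⟨y', n', hy', hn', e1⟩ := hnewrow _ _ h
      have e2 := (hr.inj _ _ _ _ hy hn (hNk _ hy') hn' e1).1
      exact Or.inr (e2 ▸ hy')
  have hNlab : ∀ y, y ∈ N → Lab k r p2 y x := by
    intro y hy
    refine ⟨hNk y hy, hx, hYp2 _ (mem_un.2 (Or.inr (mem_un.2 (Or.inr ((hY2 _).2
      ⟨?_, y, hy, rfl⟩))))), fun m' hm' => hYp2 _ (mem_un.2 (Or.inr (mem_un.2 (Or.inl ((hY1 _).2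
      ⟨?_, y, m', hy, hm', rfl⟩)))))⟩
    · exact opair_mem_prod.2 ⟨hr.mem _ _ (hNk y hy) (hsk _ hx), mem_two.2 (Or.inr rfl)⟩
    · exact opair_mem_prod.2 ⟨hr.mem _ _ (hNk y hy) (hsk _ (hxk _ hm')), mem_two.2 (Or.inl rfl)⟩
  have hs0A : Sub s0 (Aq k r p2) := by
    intro z hz
    obtain ⟨y, i, hy, hi, rfl⟩ := mem_prod.1 (hc0.1 z hz)
    rw [opair_mem_Aq]
    refine ⟨hy, hi, ?_⟩
    by_cases ht : Tch k r p y
    · obtain ⟨⟨i', hi'⟩, _⟩ := hfull y ht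
      have h1 : opair y i' ∈ Aq k r p := opair_mem_Aq.2 ⟨hy, (hp.mem_k hi').2, hi'⟩
      have : i = i' := hc0.2.1 _ _ _ hz (hAs0 _ h1)
      rw [this]
      exact hpp2 _ hi'
    · have hyN : y ∈ N := (hN y).2 ⟨hy, ⟨i, Or.inl hz⟩, ht⟩
      refine hYp2 _ (mem_un.2 (Or.inl ((hY0 _).2 ⟨?_, y, i, hyN, rfl, Or.inl hz⟩)))
      exact opair_mem_prod.2 ⟨hr.mem _ _ hy h0k, hi⟩
  have hAAp : Sub (Aq k r p) (Aq k r p2) := Aq_mono hpp2
  have hAp2 : Aq k r p2 ∈ P := (hP _).2 (hp2.Aq hω hr)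
  refine ⟨p2, m, x, (hP _).2 hp2, hqp.trans hpp2, hm, ⟨(hP _).2 hp2, ?_, hx, ?_, ?_, ?_⟩, hxe⟩
  · -- full
    intro y hy
    rcases hTch y hy with hy | hy
    · obtain ⟨⟨i, hi⟩, n, hn⟩ := hfull y hy
      exact ⟨⟨i, hpp2 _ hi⟩, n, hn.mono hpp2⟩
    · refine ⟨?_, x, hNlab y hy⟩
      by_cases h : ∃ j, opair y j ∈ s0
      · obtain ⟨j, hj⟩ := h
        exact ⟨j, (opair_mem_Aq.1 (hs0A _ hj)).2.2⟩
      · refine ⟨empt, hYp2 _ (mem_un.2 (Or.inl ((hY0 _).2 ⟨?_, y, empt, hy, rfl,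
          Or.inr ⟨rfl, h⟩⟩)))⟩
        exact opair_mem_prod.2 ⟨hr.mem _ _ (hNk y hy) h0k, mem_two.2 (Or.inl rfl)⟩
  · -- decides all values up to `m`
    intro i hi
    rcases mem_succ.1 hi with hi | rfl
    · have h1 : Dec W (Aq k r p) i := by
        by_contra h
        exact hmin i hi h
      obtain ⟨a, ha⟩ := h1
      exact ⟨a, hmono _ _ _ _ hA hAp2 hAAp ha⟩
    · exact ⟨a0, hmono _ _ _ _ hs0 hAp2 hs0A hW0⟩
  · -- labels are bounded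
    intro y z hyz hxz
    rcases hTch y (hyz.tch hk hω) with hy | hy
    · obtain ⟨_, n, hn⟩ := hfull y hy
      have : n = z := (hn.mono hpp2).unique hk hp2 hyz
      subst this
      exact hxb ((hk.1.mem hb).trans (hbl _ _ hn) hxz)
    · have : x = z := (hNlab y hy).unique hk hp2 hyz
      subst this
      exact not_mem_self _ hxz
  · -- the key property
    rintro s hs ⟨u, hu, hsu, hAu⟩ hdec
    by_contra hcon
    push Not at hcon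
    have hcs := (hP _).1 hs
    have hcu := (hP _).1 hu
    have hsN : ∀ y j, opair y j ∈ s → ¬ y ∈ N := fun y j hj hy => hcon y j hj (hNlab y hy)
    have hval : ∀ s', Sub (Aq k r p) s' → Cnd k s' → (∀ y i, opair y i ∈ s' → y ∈ k →
        ¬ y ∈ N → Tch k r p y) → ∀ y j i, opair y j ∈ s → opair y i ∈ s' → j = i := by
      intro s' hAs' hc' hN' y j i hj hi
      have hyk := (hcs.mem_k hj).1
      obtain ⟨⟨i', hi'⟩, _⟩ := hfull y (hN' y i hi hyk (hsN y j hj))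
      have h1 : opair y i' ∈ Aq k r p := opair_mem_Aq.2 ⟨hyk, (hp.mem_k hi').2, hi'⟩
      have h2 : i = i' := hc'.2.1 _ _ _ hi (hAs' _ h1)
      have h3 : j = i' := hcu.2.1 _ _ _ (hsu _ hj) (hAu _ (hAAp _ h1))
      rw [h2, h3]
    have hd0 : Cnd k (un s s0) := hcs.un hk hω hc0 (hval s0 hAs0 hc0 (fun y i hi hy hyN => by
      by_contra ht
      exact hyN ((hN y).2 ⟨hy, ⟨i, Or.inl hi⟩, ht⟩)))
    have hd1 : Cnd k (un s s1) := hcs.un hk hω hc1 (hval s1 hAs1 hc1 (fun y i hi hy hyN => by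
      by_contra ht
      exact hyN ((hN y).2 ⟨hy, ⟨i, Or.inr hi⟩, ht⟩)))
    obtain ⟨a, ha⟩ := hdec m (mem_succ.2 (Or.inr rfl))
    have e0 : a = a0 := hfun _ ((hP _).2 hd0) ((hA0'.trans hAs0).trans (sub_un_right _ _)) m a a0
      (hmono _ _ _ _ hs ((hP _).2 hd0) (sub_un_left _ _) ha)
      (hmono _ _ _ _ hs0 ((hP _).2 hd0) (sub_un_right _ _) hW0)
    have e1 : a = a1 := hfun _ ((hP _).2 hd1) ((hA0'.trans hAs1).trans (sub_un_right _ _)) m a a1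
      (hmono _ _ _ _ hs ((hP _).2 hd1) (sub_un_left _ _) ha)
      (hmono _ _ _ _ hs1 ((hP _).2 hd1) (sub_un_right _ _) hW1)
    exact hne (e0.symm.trans e1)

end

end CF
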