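import Pool.Agent.Work.MP_cbc9f3_lc.Check

/-!
# Collapsing an ordinal: from the forcing relation to a definable relation, and back
-/

namespace CF

universe u

variable {M : Type u} [ZFM M]

section
variable {P : M} {le : M → M → Prop} {Q : M → M → M → Prop} (h : Frc P le Q)
  (h0 : (empt : M) ∈ P) (htop : ∀ p, p ∈ P → le p empt) {c : M → M} (hc : Chk c)

include h h0 htop hc

/-- If some condition forces that `k` is not a cardinal, there are a stronger condition `s`, an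
ordinal `a < k` and a relation `R` coding the name of a function from `a` onto `k`. -/
theorem collapse_elim {k p : M} (hk : Ord k) (hp : p ∈ P)
    (hf : F P le Q (.neg .card) p (fun _ => c k)) :
    ∃ (s a : M) (R : M → M → M → Prop), s ∈ P ∧ le s p ∧ a ∈ k ∧
      Dfn (fun v => R (v 0) (v 1) (v 2)) ∧
      (∀ q r, q ∈ P → r ∈ P → le r q → ∀ n x, R q n x → R r n x) ∧
      (∀ q, q ∈ P → ∀ n x, (∀ r, r ∈ P → le r q → ∃ r', r' ∈ P ∧ le r' r ∧ R r' n x) →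
        R q n x) ∧
      (∀ q, q ∈ P → le q s → ∀ n x y, R q n x → R q n y → x = y) ∧
      (∀ q, q ∈ P → le q s → ∀ n, n ∈ a → ∃ r x, r ∈ P ∧ le r q ∧ x ∈ k ∧ R r n x) ∧
      (∀ q, q ∈ P → le q s → ∀ x, x ∈ k → ∃ r n, r ∈ P ∧ le r q ∧ n ∈ a ∧ R r n x) := by
  -- find the names
  have h1 : ¬ F P le Q (.all (.imp (.mem 0 1) (.all (.neg (.onto 0 1 2))))) p (fun _ => c k) := by
    intro hcon
    exact hf p hp (h.refl p hp) ⟨f_ord h h0 htop hc hp rfl hk, hcon⟩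
  have h1' := (not_congr (h.f_ball (φ := .all (.neg (.onto 0 1 2))) (i := 0)
    (v := fun _ => c k) hp)).1 h1
  push Not at h1'
  obtain ⟨y, q, hq, hqp, hy, h2⟩ := h1'
  rw [f_all] at h2
  push Not at h2
  obtain ⟨f, h3⟩ := h2
  rw [f_neg] at h3
  push Not at h3
  obtain ⟨r, hr, hrq, h4⟩ := h3
  obtain ⟨s, a, hs, hsr, ha, h5⟩ := (mem_chk h h0 htop hc hq).1 hy r hr hrq
  have hsq := h.trans _ _ _ hs hr hq hsr hrq
  have hsp := h.trans _ _ _ hs hq hp hsq hqp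
  have h6 : F P le Q (.onto 0 1 2) s (cons f (cons (c a) (fun _ => c k))) := by
    refine (h.f_subst _ hs fun i => ?_).1 (h.f_mono _ hr hs hsr h4)
    match i with
    | 0 => exact h.eq_refl _ s hs
    | 1 => exact h5
    | i + 2 => exact h.eq_refl _ s hs
  obtain ⟨c1, c2, c3, c4⟩ := h6
  -- every element of `f` is a pair
  have d1 : ∀ z q, q ∈ P → le q s → FMem P le Q q z f → ∀ q', q' ∈ P → le q' q →
      ∃ r x y, r ∈ P ∧ le r q' ∧ FMem P le Q r x (c a) ∧ FMem P le Q r y (c k) ∧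
        Q r z (nop x y) := by
    intro z q hq hqs hz q' hq' hqq'
    have e1 := (h.f_ball (i := 0) hs).1 c1 z q hq hqs hz
    rw [f_ex] at e1
    obtain ⟨r, x, hr, hrq, e2⟩ := e1 q' hq' hqq'
    rw [f_ex] at e2
    obtain ⟨r', y, hr', hrr', ⟨e3, e4⟩, e5⟩ := e2 r hr (h.refl r hr)
    rw [← F, f_mem] at e3 e4
    rw [← F, f_opair h h0 htop hr'] at e5
    exact ⟨r', x, y, hr', h.trans _ _ _ hr' hr hq' hrr' hrq, e3, e4, e5⟩
  have d2 : ∀ x q, q ∈ P → le q s → FMem P le Q q x (c a) → ∀ q', q' ∈ P → le q' q →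
      ∃ r y, r ∈ P ∧ le r q' ∧ FMem P le Q r (nop x y) f := by
    intro x q hq hqs hx q' hq' hqq'
    have e1 := (h.f_ball (i := 1) hs).1 c2 x q hq hqs hx
    rw [f_ex] at e1
    obtain ⟨r, y, hr, hrq, e2⟩ := e1 q' hq' hqq'
    rw [f_app h h0 htop hr] at e2
    exact ⟨r, y, hr, hrq, e2⟩
  have d3 : ∀ x y y' q, q ∈ P → le q s → FMem P le Q q (nop x y) f →
      FMem P le Q q (nop x y') f → Q q y y' := by
    intro x y y' q hq hqs e1 e2
    have e3 := (h.f_imp hs).1 (c3 x y y') q hq hqs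
      ⟨(f_app h h0 htop hq).2 e1, (f_app h h0 htop hq).2 e2⟩
    exact e3
  have d4 : ∀ y q, q ∈ P → le q s → FMem P le Q q y (c k) → ∀ q', q' ∈ P → le q' q →
      ∃ r x, r ∈ P ∧ le r q' ∧ FMem P le Q r (nop x y) f := by
    intro y q hq hqs hy q' hq' hqq'
    have e1 := (h.f_ball (i := 2) hs).1 c4 y q hq hqs hy
    rw [f_ex] at e1
    obtain ⟨r, x, hr, hrq, e2⟩ := e1 q' hq' hqq'
    rw [f_app h h0 htop hr] at e2
    exact ⟨r, x, hr, hrq, e2⟩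
  refine ⟨s, a, fun q n x => FMem P le Q q (c (opair n x)) f, hs, hsp, ha, ?_, ?_, ?_, ?_, ?_, ?_⟩
  · have i1 : ∀ (s t r : (ℕ → M) → M) [DT s] [DT t] [DT r], Dfn (fun v => Q (s v) (t v) (r v)) :=
      fun s t r hs ht hr => Dfn.comp3 h.dfn_Q hs ht hr
    have i2 : ∀ (s : (ℕ → M) → M) [DT s], DT (fun v => c (s v)) := fun s hs => DT.comp1 hc.dfn hs
    have i3 : ∀ (s t : (ℕ → M) → M) [DT s] [DT t], Dfn (fun v => le (s v) (t v)) :=
      fun s t hs ht => Dfn.comp2 h.dfn_le hs ht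
    unfold FMem
    infer_instance
  · intro q r hq hr hrq n x hm
    exact h.mem_mono hq hr hrq hm
  · intro q hq n x hd
    exact h.mem_reg hq hd
  · intro q hq hqs n x y e1 e2
    rw [hc.opair] at e1 e2
    exact (eq_chk h h0 htop hc _ _ q hq).1 (d3 _ _ _ q hq hqs e1 e2)
  · intro q hq hqs n hn
    obtain ⟨r, y, hr, hrq, e1⟩ := d2 (c n) q hq hqs ((mem_chk_chk h h0 htop hc hq).2 hn) q hq
      (h.refl q hq)
    have hrs := h.trans _ _ _ hr hq hs hrq hqs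
    obtain ⟨r', x', y', hr', hrr', _, e3, e4⟩ := d1 _ r hr hrs e1 r hr (h.refl r hr)
    obtain ⟨t, b, ht, htr, hb, e5⟩ := (mem_chk h h0 htop hc hr').1 e3 r' hr' (h.refl r' hr')
    have htr' := h.trans _ _ _ ht hr' hr htr hrr'
    refine ⟨t, b, ht, h.trans _ _ _ ht hr hq htr' hrq, hb, ?_⟩
    have e6 : Q t y (c b) := h.eq_trans _ _ _ t ht
      (nop_inj h h0 htop ht (h.mono hr' ht htr e4)).2 e5
    show FMem P le Q t (c (opair n b)) f
    rw [hc.opair]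
    exact h.mem_congr_left ht (nop_congr h h0 htop ht (h.eq_refl _ t ht) e6)
      (h.mem_mono hr ht htr' e1)
  · intro q hq hqs x hx
    obtain ⟨r, y, hr, hrq, e1⟩ := d4 (c x) q hq hqs ((mem_chk_chk h h0 htop hc hq).2 hx) q hq
      (h.refl q hq)
    have hrs := h.trans _ _ _ hr hq hs hrq hqs
    obtain ⟨r', x', y', hr', hrr', e2, _, e4⟩ := d1 _ r hr hrs e1 r hr (h.refl r hr)
    obtain ⟨t, b, ht, htr, hb, e5⟩ := (mem_chk h h0 htop hc hr').1 e2 r' hr' (h.refl r' hr')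
    have htr' := h.trans _ _ _ ht hr' hr htr hrr'
    refine ⟨t, b, ht, h.trans _ _ _ ht hr hq htr' hrq, hb, ?_⟩
    have e6 : Q t y (c b) := h.eq_trans _ _ _ t ht
      (nop_inj h h0 htop ht (h.mono hr' ht htr e4)).1 e5
    show FMem P le Q t (c (opair b x)) f
    rw [hc.opair]
    exact h.mem_congr_left ht (nop_congr h h0 htop ht e6 (h.eq_refl _ t ht))
      (h.mem_mono hr ht htr' e1)

/-- A relation `R` coding the name of a function from `a < k` onto `k` shows that `k` is not a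
cardinal in the extension. -/
theorem collapse_intro {k p a : M} (hp : p ∈ P) (ha : a ∈ k) (R : M → M → M → Prop)
    [hR : Dfn (fun v => R (v 0) (v 1) (v 2))]
    (hmono : ∀ q r, q ∈ P → r ∈ P → le r q → ∀ n x, R q n x → R r n x)
    (hfun : ∀ q, q ∈ P → le q p → ∀ n x y, n ∈ a → R q n x → R q n y → x = y)
    (htot : ∀ q, q ∈ P → le q p → ∀ n, n ∈ a → ∃ r x, r ∈ P ∧ le r q ∧ x ∈ k ∧ R r n x)
    (honto : ∀ q, q ∈ P → le q p → ∀ x, x ∈ k → ∃ r n, r ∈ P ∧ le r q ∧ n ∈ a ∧ R r n x) :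
    F P le Q (.neg .card) p (fun _ => c k) := by
  have i0 : ∀ (s t r : (ℕ → M) → M) [DT s] [DT t] [DT r], Dfn (fun v => R (s v) (t v) (r v)) :=
    fun s t r hs ht hr => Dfn.comp3 hR hs ht hr
  have i2 : ∀ (s : (ℕ → M) → M) [DT s], DT (fun v => c (s v)) := fun s hs => DT.comp1 hc.dfn hs
  -- the name of the function
  obtain ⟨f, hf⟩ : ∃ f : M, ∀ z, z ∈ f ↔ ∃ n x r, n ∈ a ∧ x ∈ k ∧ r ∈ P ∧
      z = opair (c (opair n x)) r ∧ R r n x := by
    refine ⟨sep (prod (img (prod a k) c) P) (fun z => ∃ n x r, n ∈ a ∧ x ∈ k ∧ r ∈ P ∧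
      z = opair (c (opair n x)) r ∧ R r n x), fun z => ?_⟩
    rw [mem_sep]
    refine ⟨fun hz => hz.2, fun hz => ⟨?_, hz⟩⟩
    obtain ⟨n, x, r, hn, hx, hr, rfl, _⟩ := hz
    exact opair_mem_prod.2 ⟨mem_img.2 ⟨_, opair_mem_prod.2 ⟨hn, hx⟩, rfl⟩, hr⟩
  have hmem : ∀ q n x, q ∈ P → n ∈ a → x ∈ k → R q n x → FMem P le Q q (nop (c n) (c x)) f := by
    intro q n x hq hn hx hqR
    rw [← hc.opair]
    exact h.mem_of_opair hq hq (h.refl q hq) ((hf _).2 ⟨n, x, q, hn, hx, hq, rfl, hqR⟩)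
  have hmem' : ∀ q z, q ∈ P → FMem P le Q q z f → ∀ q', q' ∈ P → le q' q → ∃ s n x, s ∈ P ∧
      le s q' ∧ n ∈ a ∧ x ∈ k ∧ R s n x ∧ Q s z (nop (c n) (c x)) := by
    intro q z hq hz q' hq' hqq'
    obtain ⟨s, w, t, hs, hsq, hw, ht, hst, hS⟩ := hz q' hq' hqq'
    obtain ⟨n, x, r, hn, hx, hr, e, hRr⟩ := (hf _).1 hw
    obtain ⟨rfl, rfl⟩ := opair_inj.1 e
    refine ⟨s, n, x, hs, hsq, hn, hx, hmono _ _ hr hs hst n x hRr, ?_⟩
    rw [← hc.opair]
    exact hS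
  intro q hq hqp hcard
  have hcard2 := hcard.2
  have h1 := (h.f_ball (φ := .all (.neg (.onto 0 1 2))) (i := 0) (v := fun _ => c k) hq).1
    hcard2 (c a) q hq (h.refl q hq) ((mem_chk_chk h h0 htop hc hq).2 ha)
  refine h1 f q hq (h.refl q hq) ⟨?_, ?_, ?_, ?_⟩
  · refine h.f_ball' (i := 0) hq ?_
    intro w t q1 hw ht hq1 hq1q _
    obtain ⟨n, x, r, hn, hx, hr, e, hRr⟩ := (hf _).1 hw
    obtain ⟨rfl, rfl⟩ := opair_inj.1 e
    rw [f_ex]
    intro q2 hq2 _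
    refine ⟨q2, c n, hq2, h.refl q2 hq2, ?_⟩
    rw [f_ex]
    intro q3 hq3 _
    refine ⟨q3, c x, hq3, h.refl q3 hq3, ⟨?_, ?_⟩, ?_⟩
    · exact f_mem.2 ((mem_chk_chk h h0 htop hc hq3).2 hn)
    · exact f_mem.2 ((mem_chk_chk h h0 htop hc hq3).2 hx)
    · refine (f_opair h h0 htop hq3).2 ?_
      show Q q3 (c (opair n x)) (nop (c n) (c x))
      rw [hc.opair]
      exact h.eq_refl _ q3 hq3
  · refine h.f_ball' (i := 1) hq ?_
    intro w t q1 hw ht hq1 hq1q _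
    obtain ⟨n, hn, e⟩ := (hc.spec _ _).1 hw
    obtain ⟨rfl, _⟩ := opair_inj.1 e
    rw [f_ex]
    intro q2 hq2 hq21
    have hq2p := h.trans _ _ _ hq2 hq hp (h.trans _ _ _ hq2 hq1 hq hq21 hq1q) hqp
    obtain ⟨r, x, hr, hrq, hx, hRr⟩ := htot q2 hq2 hq2p n hn
    exact ⟨r, c x, hr, hrq, (f_app h h0 htop hr).2 (hmem r n x hr hn hx hRr)⟩
  · intro x y y'
    rw [← F, h.f_imp hq]
    rintro q1 hq1 hq1q ⟨e1, e2⟩
    rw [← F, f_app h h0 htop hq1] at e1 e2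
    show Q q1 y y'
    refine h.reg hq1 fun q2 hq2 hq21 => ?_
    obtain ⟨s, n, z, hs, hsq2, hn, hz, hRs, e3⟩ := hmem' q1 _ hq1 e1 q2 hq2 hq21
    have hsq1 := h.trans _ _ _ hs hq2 hq1 hsq2 hq21
    obtain ⟨s', n', z', hs', hss', hn', hz', hRs', e4⟩ := hmem' q1 _ hq1 e2 s hs hsq1
    refine ⟨s', hs', h.trans _ _ _ hs' hs hq2 hss' hsq2, ?_⟩
    have e5 := nop_inj h h0 htop hs' (h.mono hs hs' hss' e3)
    have e6 := nop_inj h h0 htop hs' e4
    have hn1 : n = n' := (eq_chk h h0 htop hc _ _ s' hs').1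
      (h.eq_trans _ _ _ s' hs' (h.eq_symm _ _ s' hs' e5.1) e6.1)
    subst hn1
    have hs'p := h.trans _ _ _ hs' hq1 hp (h.trans _ _ _ hs' hs hq1 hss' hsq1)
      (h.trans _ _ _ hq1 hq hp hq1q hqp)
    have hz1 : z = z' := hfun s' hs' hs'p n z z' hn (hmono _ _ hs hs' hss' _ _ hRs) hRs'
    subst hz1
    exact h.eq_trans _ _ _ s' hs' e5.2 (h.eq_symm _ _ s' hs' e6.2)
  · refine h.f_ball' (i := 2) hq ?_
    intro w t q1 hw ht hq1 hq1q _
    obtain ⟨x, hx, e⟩ := (hc.spec _ _).1 hw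
    obtain ⟨rfl, _⟩ := opair_inj.1 e
    rw [f_ex]
    intro q2 hq2 hq21
    have hq2p := h.trans _ _ _ hq2 hq hp (h.trans _ _ _ hq2 hq1 hq hq21 hq1q) hqp
    obtain ⟨r, n, hr, hrq, hn, hRr⟩ := honto q2 hq2 hq2p x hx
    exact ⟨r, c n, hr, hrq, (f_app h h0 htop hr).2 (hmem r n x hr hn hx hRr)⟩

end

end CF
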