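import Mathlib

/-!
# MP_cbc9f3_lc : definitions used in the statement

Formulas of the language of set theory, models of ZF, the forcing relation over an arbitrary model
of ZF, Cohen forcing.
-/

namespace CF

universe u

/-! ## Formulas and satisfaction -/

/-- Formulas of the language `{∈, =}` of set theory, with de Bruijn indices: in `all φ` the bound
variable is the variable `0` of `φ`, and the variable `n + 1` of `φ` is the variable `n` outside. -/
inductive Fml : Type
  | mem (i j : ℕ) : Fml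
  | eq (i j : ℕ) : Fml
  | neg (φ : Fml) : Fml
  | and (φ ψ : Fml) : Fml
  | all (φ : Fml) : Fml

/-- `cons x v` is the assignment `x, v 0, v 1, …`. -/
def cons {M : Type u} (x : M) (v : ℕ → M) : ℕ → M
  | 0 => x
  | n + 1 => v n

/-- Satisfaction of a formula in the structure `(M, E)` (`E x y` means `x ∈ y`). -/
def Sat {M : Type u} (E : M → M → Prop) : Fml → (ℕ → M) → Prop
  | .mem i j, v => E (v i) (v j)
  | .eq i j, v => v i = v j
  | .neg φ, v => ¬ Sat E φ v
  | .and φ ψ, v => Sat E φ v ∧ Sat E ψ v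
  | .all φ, v => ∀ x, Sat E φ (cons x v)

/-- `(M, E)` is a model of ZF. -/
structure IsZF {M : Type u} (E : M → M → Prop) : Prop where
  nonempty : Nonempty M
  ext : ∀ a b : M, (∀ x, E x a ↔ E x b) → a = b
  found : ∀ a : M, (∃ x, E x a) → ∃ x, E x a ∧ ∀ y, E y x → ¬ E y a
  pair : ∀ a b : M, ∃ c, ∀ x, E x c ↔ (x = a ∨ x = b)
  union : ∀ a : M, ∃ c, ∀ x, E x c ↔ ∃ y, E y a ∧ E x y
  power : ∀ a : M, ∃ c, ∀ x, E x c ↔ ∀ y, E y x → E y a
  infinity : ∃ c : M, (∃ x, E x c ∧ ∀ y, ¬ E y x) ∧
    ∀ x, E x c → ∃ y, E y c ∧ ∀ z, E z y ↔ (E z x ∨ z = x)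
  sep : ∀ (φ : Fml) (v : ℕ → M) (a : M), ∃ c, ∀ x, E x c ↔ (E x a ∧ Sat E φ (cons x v))
  repl : ∀ (φ : Fml) (v : ℕ → M) (a : M),
    (∀ x, E x a → ∃! y, Sat E φ (cons x (cons y v))) →
      ∃ c, ∀ y, E y c ↔ ∃ x, E x a ∧ Sat E φ (cons x (cons y v))

namespace Fml

def imp (φ ψ : Fml) : Fml := neg (and φ (neg ψ))

def or (φ ψ : Fml) : Fml := neg (and (neg φ) (neg ψ))

def iff (φ ψ : Fml) : Fml := and (imp φ ψ) (imp ψ φ)

def ex (φ : Fml) : Fml := neg (all (neg φ))

/-- `v i = {v j, v k}` -/
def upair (i j k : ℕ) : Fml := all (iff (mem 0 (i + 1)) (or (eq 0 (j + 1)) (eq 0 (k + 1))))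

/-- `v i` is the ordered pair `{{v j}, {v j, v k}}` -/
def opair (i j k : ℕ) : Fml :=
  ex (ex (and (upair 0 (j + 2) (j + 2)) (and (upair 1 (j + 2) (k + 2)) (upair (i + 2) 0 1))))

/-- the ordered pair of `v i` and `v j` belongs to `v k` -/
def app (i j k : ℕ) : Fml := ex (and (opair 0 (i + 1) (j + 1)) (mem 0 (k + 1)))

/-- `v i` is an ordinal: a transitive set of transitive sets -/
def ord (i : ℕ) : Fml :=
  and (all (imp (mem 0 (i + 1)) (all (imp (mem 0 1) (mem 0 (i + 2))))))
    (all (imp (mem 0 (i + 1)) (all (imp (mem 0 1) (all (imp (mem 0 1) (mem 0 2)))))))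

/-- `v i` is a function from `v j` onto `v k` (a set of ordered pairs) -/
def onto (i j k : ℕ) : Fml :=
  and (all (imp (mem 0 (i + 1))
      (ex (ex (and (and (mem 1 (j + 3)) (mem 0 (k + 3))) (opair 2 1 0))))))
    (and (all (imp (mem 0 (j + 1)) (ex (app 1 0 (i + 2)))))
      (and (all (all (all (imp (and (app 2 1 (i + 3)) (app 2 0 (i + 3))) (eq 1 0)))))
        (all (imp (mem 0 (k + 1)) (ex (app 0 1 (i + 2)))))))

/-- `v 0` is a cardinal: an ordinal which is not the image of one of its elements -/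
def card : Fml := and (ord 0) (all (imp (mem 0 1) (all (neg (onto 0 1 2)))))

end Fml

/-! ## Notions in a model -/

section
variable {M : Type u} (E : M → M → Prop)

/-- `z` is the ordered pair `{{a}, {a, b}}`. -/
def IsOPair (z a b : M) : Prop :=
  ∃ c d, (∀ x, E x c ↔ x = a) ∧ (∀ x, E x d ↔ (x = a ∨ x = b)) ∧ ∀ x, E x z ↔ (x = c ∨ x = d)

/-- The ordered pair of `a` and `b` belongs to `f`. -/
def App (a b f : M) : Prop := ∃ z, IsOPair E z a b ∧ E z f

/-- `a` is an ordinal. -/
def IsOrd (a : M) : Prop := Sat E (Fml.ord 0) (fun _ => a)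

/-- `a` is a cardinal. -/
def IsCard (a : M) : Prop := Sat E Fml.card (fun _ => a)

/-- `f` is a function from `a` onto `b`. -/
def IsOnto (f a b : M) : Prop := Sat E (Fml.onto 0 1 2) (cons f (cons a (fun _ => b)))

/-- `a` is a nonzero limit ordinal. -/
def IsLim (a : M) : Prop := IsOrd E a ∧ (∃ x, E x a) ∧ ∀ x, E x a → ∃ y, E y a ∧ E x y

/-- `IsAleph E n a`: `a` is the `n`-th infinite cardinal `ω_n`. -/
def IsAleph : ℕ → M → Prop
  | 0, a => IsLim E a ∧ ∀ b, E b a → ¬ IsLim E b
  | n + 1, a => IsCard E a ∧ ∃ b, IsAleph n b ∧ E b a ∧ ∀ c, E c a → IsCard E c → ¬ E b c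

/-- `a = 0` -/
def IsZero (a : M) : Prop := ∀ x, ¬ E x a

/-- `a = 1` -/
def IsOne (a : M) : Prop := ∀ x, E x a ↔ IsZero E x

/-- `d` is the domain of `p`. -/
def IsDom (d p : M) : Prop := ∀ x, E x d ↔ ∃ y, App E x y p

/-- `p` is a condition of `Add(κ, 1)`: a partial function from `κ` to `2`, whose domain has
cardinality less than `κ` (it is the image of an ordinal smaller than `κ`). -/
def IsCond (κ p : M) : Prop :=
  (∀ z, E z p → ∃ x y, IsOPair E z x y ∧ E x κ ∧ (IsZero E y ∨ IsOne E y)) ∧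
    (∀ x y y', App E x y p → App E x y' p → y = y') ∧
      ∃ d b f, IsDom E d p ∧ E b κ ∧ IsOnto E f b d

/-- `P` is the set of all conditions of `Add(κ, 1)`. -/
def IsAdd (κ P : M) : Prop := ∀ p, E p P ↔ IsCond E κ p

/-- Reverse inclusion: `Le E q p` means `q ⊇ p`. -/
def Le (q p : M) : Prop := ∀ x, E x p → E x q

/-! ## Forcing

Every element `x` of `M` is regarded as a `P`-name: it is the name of the set of all values of `z`,
for the pairs `(z, r)` in `x` with `r` in `P` and in the generic filter. -/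

/-- `c` is the class function sending `x` to the check name `{(c y, 0) : y ∈ x}` (`0`, the empty
function, is the largest condition). It has to be definable in `(M, E)` with parameters. -/
structure IsCheck (c : M → M) : Prop where
  dfn : ∃ (φ : Fml) (v : ℕ → M), ∀ x y, y = c x ↔ Sat E φ (cons x (cons y v))
  spec : ∀ x z, E z (c x) ↔ ∃ y o, E y x ∧ IsZero E o ∧ IsOPair E z (c y) o

/-- `Q p x y` is the relation that `p` forces the names `x` and `y` to be equal: it is
definable in `(M, E)` with parameters, and satisfies the usual recursive clause. Here `P` is the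
set of conditions and `le` the ordering. -/
structure IsForceEq (P : M) (le : M → M → Prop) (Q : M → M → M → Prop) : Prop where
  dfn : ∃ (φ : Fml) (v : ℕ → M), ∀ p x y, Q p x y ↔ Sat E φ (cons p (cons x (cons y v)))
  spec : ∀ p, E p P → ∀ x y, Q p x y ↔
    (∀ z r q, App E z r x → E r P → E q P → le q p → le q r →
      ∃ s w t, E s P ∧ le s q ∧ App E w t y ∧ E t P ∧ le s t ∧ Q s z w) ∧
    (∀ w t q, App E w t y → E t P → E q P → le q p → le q t →
      ∃ s z r, E s P ∧ le s q ∧ App E z r x ∧ E r P ∧ le s r ∧ Q s z w)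

/-- The forcing relation for arbitrary formulas of the language of set theory, given the
relation `Q` for the equality of two names. The quantifier ranges over all names. -/
def Forces (P : M) (le : M → M → Prop) (Q : M → M → M → Prop) : Fml → M → (ℕ → M) → Prop
  | .mem i j, p, v => ∀ q, E q P → le q p →
      ∃ s w t, E s P ∧ le s q ∧ App E w t (v j) ∧ E t P ∧ le s t ∧ Q s (v i) w
  | .eq i j, p, v => Q p (v i) (v j)
  | .neg φ, p, v => ∀ q, E q P → le q p → ¬ Forces P le Q φ q v
  | .and φ ψ, p, v => Forces P le Q φ p v ∧ Forces P le Q ψ p v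
  | .all φ, p, v => ∀ x, Forces P le Q φ p (cons x v)

/-- Some condition forces that `a` is not a cardinal. -/
def Collapses (P : M) (le : M → M → Prop) (c : M → M) (Q : M → M → M → Prop) (a : M) : Prop :=
  ∃ p, E p P ∧ Forces E P le Q (.neg .card) p (fun _ => c a)

end

end CF
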