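import Pool.Agent.Work.MP_cbc9f3_lc.Ord

/-!
# Finite sets in a model of ZF
-/

namespace CF

universe u

variable {M : Type u} [ZFM M]

/-- `x` is the image of a natural number -/
def Fint (x : M) : Prop := ∃ n f, n ∈ (omega : M) ∧ Onto f n x

instance dfn_fint {s : (ℕ → M) → M} [hs : DT s] : Dfn (fun v => Fint (s v)) :=
  Dfn.comp1 (R := Fint) (by unfold Fint; infer_instance) hs

theorem fint_empt : Fint (empt : M) := by
  refine ⟨empt, lam empt (fun x => x), empt_mem_omega, onto_id _⟩

theorem Fint.adj {x : M} (hx : Fint x) (y : M) : Fint (adj x y) := by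
  obtain ⟨n, f, hn, hf⟩ := hx
  refine ⟨succ n, lam (succ n) (fun k => cases (k ∈ n) (ap f k) y), succ_mem_omega hn, ?_⟩
  refine onto_lam (fun k => cases (k ∈ n) (ap f k) y) ?_ ?_
  · intro k hk
    by_cases h : k ∈ n
    · rw [cases_pos h]; exact mem_adj.2 (Or.inl (hf.2.1 k h))
    · rw [cases_neg h]; exact mem_adj.2 (Or.inr rfl)
  · intro z hz
    rcases mem_adj.1 hz with hz | rfl
    · obtain ⟨k, hk, rfl⟩ := hf.2.2 z hz
      exact ⟨k, mem_succ.2 (Or.inl hk), cases_pos hk⟩
    · exact ⟨n, mem_succ.2 (Or.inr rfl), cases_neg (not_mem_self n)⟩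

/-- induction on finite sets -/
theorem Fint.induction (R : M → Prop) [hR : Dfn (fun v => R (v 0))] (h0 : R empt)
    (h1 : ∀ s y, Fint s → R s → R (CF.adj s y)) {x : M} (hx : Fint x) : R x := by
  obtain ⟨n, f, hn, hf⟩ := hx
  have hR' : ∀ (s : (ℕ → M) → M) [DT s], Dfn (fun v => R (s v)) := fun s hs => Dfn.comp1 hR hs
  have key : ∀ k, k ∈ (omega : M) → Fint (img k (fun i => ap f i)) ∧
      R (img k (fun i => ap f i)) := by
    refine omega_induction (fun k => Fint (img k (fun i => ap f i)) ∧
      R (img k (fun i => ap f i))) ?_ ?_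
    · have : img empt (fun i => ap f i) = (empt : M) :=
        eq_empt fun y hy => by
          obtain ⟨i, hi, _⟩ := mem_img.1 hy
          exact not_mem_empt i hi
      rw [this]
      exact ⟨fint_empt, h0⟩
    · intro k hk ih
      have : img (succ k) (fun i => ap f i) = CF.adj (img k (fun i => ap f i)) (ap f k) := by
        refine ext fun y => ?_
        rw [mem_img, mem_adj, mem_img]
        constructor
        · rintro ⟨i, hi, rfl⟩
          rcases mem_succ.1 hi with hi | rfl
          · exact Or.inl ⟨i, hi, rfl⟩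
          · exact Or.inr rfl
        · rintro (⟨i, hi, rfl⟩ | rfl)
          · exact ⟨i, mem_succ.2 (Or.inl hi), rfl⟩
          · exact ⟨k, mem_succ.2 (Or.inr rfl), rfl⟩
      rw [this]
      exact ⟨ih.1.adj _, h1 _ _ ih.1 ih.2⟩
  have : img n (fun i => ap f i) = x := by
    refine ext fun y => ?_
    rw [mem_img]
    constructor
    · rintro ⟨i, hi, rfl⟩
      exact hf.2.1 i hi
    · intro hy
      obtain ⟨i, hi, e⟩ := hf.2.2 y hy
      exact ⟨i, hi, e.symm⟩
  rw [← this]
  exact (key n hn).2

theorem Fint.un {a b : M} (ha : Fint a) (hb : Fint b) : Fint (un a b) := by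
  refine Fint.induction (fun b => Fint (CF.un a b)) ?_ ?_ hb
  · have : CF.un a empt = a := ext fun x => by simp
    rw [this]
    exact ha
  · intro s y _ ih
    have : CF.un a (CF.adj s y) = CF.adj (CF.un a s) y := ext fun x => by simp [or_assoc]
    rw [this]
    exact ih.adj y

theorem Fint.img {a : M} (ha : Fint a) (t : M → M) [DT (fun v => t (v 0))] :
    Fint (CF.img a t) := by
  obtain ⟨n, f, hn, hf⟩ := ha
  have ht : ∀ (s : (ℕ → M) → M) [DT s], DT (fun v => t (s v)) :=
    fun s hs => DT.comp1 ‹_› hs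
  refine ⟨n, lam n (fun k => t (ap f k)), hn, onto_lam (fun k => t (ap f k)) ?_ ?_⟩
  · intro k hk
    exact mem_img.2 ⟨_, hf.2.1 k hk, rfl⟩
  · intro y hy
    obtain ⟨x, hx, rfl⟩ := mem_img.1 hy
    obtain ⟨k, hk, rfl⟩ := hf.2.2 x hx
    exact ⟨k, hk, rfl⟩

theorem Fint.prod {a b : M} (ha : Fint a) (hb : Fint b) : Fint (prod a b) := by
  refine Fint.induction (fun a => Fint (CF.prod a b)) ?_ ?_ ha
  · have : CF.prod empt b = (empt : M) := eq_empt fun z hz => by
      obtain ⟨x, _, hx, _⟩ := mem_prod.1 hz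
      exact not_mem_empt x hx
    rw [this]
    exact fint_empt
  · intro s y _ ih
    have : CF.prod (CF.adj s y) b = CF.un (CF.prod s b) (CF.img b (fun z => opair y z)) := by
      refine ext fun w => ?_
      rw [mem_prod, mem_un, mem_prod, mem_img]
      constructor
      · rintro ⟨x, z, hx, hz, rfl⟩
        rcases mem_adj.1 hx with hx | rfl
        · exact Or.inl ⟨x, z, hx, hz, rfl⟩
        · exact Or.inr ⟨z, hz, rfl⟩
      · rintro (⟨x, z, hx, hz, rfl⟩ | ⟨z, hz, rfl⟩)
        · exact ⟨x, z, mem_adj.2 (Or.inl hx), hz, rfl⟩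
        · exact ⟨y, z, mem_adj.2 (Or.inr rfl), hz, rfl⟩
    rw [this]
    exact ih.un (hb.img (fun z => opair y z))

theorem fint_of_mem_omega {n : M} (hn : n ∈ (omega : M)) : Fint n := ⟨n, _, hn, onto_id n⟩

/-- a finite subset of `ω` is bounded -/
theorem Fint.bounded {x : M} (hx : Fint x) (hs : Sub x omega) : ∃ m, m ∈ (omega : M) ∧ Sub x m := by
  refine Fint.induction (fun x => Sub x omega → ∃ m, m ∈ (omega : M) ∧ Sub x m) ?_ ?_ hx hs
  · intro _
    exact ⟨empt, empt_mem_omega, Sub.refl _⟩
  · intro s y _ ih hs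
    obtain ⟨m, hm, hsm⟩ := ih fun z hz => hs z (mem_adj.2 (Or.inl hz))
    have hy : y ∈ (omega : M) := hs y (mem_adj.2 (Or.inr rfl))
    rcases (ord_omega.mem hm).trichotomy (ord_omega.mem hy) with h | h | h
    · refine ⟨succ y, succ_mem_omega hy, fun z hz => ?_⟩
      rcases mem_adj.1 hz with hz | rfl
      · exact mem_succ.2 (Or.inl ((ord_omega.mem hy).trans h (hsm z hz)))
      · exact mem_succ.2 (Or.inr rfl)
    · refine ⟨succ y, succ_mem_omega hy, fun z hz => ?_⟩
      rcases mem_adj.1 hz with hz | rfl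
      · exact mem_succ.2 (Or.inl (h ▸ hsm z hz))
      · exact mem_succ.2 (Or.inr rfl)
    · refine ⟨m, hm, fun z hz => ?_⟩
      rcases mem_adj.1 hz with hz | rfl
      · exact hsm z hz
      · exact h

/-- a finite set cannot be mapped onto a set containing `ω` -/
theorem not_onto_of_fint {n a f : M} (hn : Fint n) (ha : Sub (omega : M) a) : ¬ Onto f n a := by
  intro hf
  have h0 := hf.sub ha empt_mem_omega
  obtain ⟨k, g, hk, hg⟩ := hn
  have hω : Fint (omega : M) := ⟨k, _, hk, hg.comp h0⟩
  obtain ⟨m, hm, hs⟩ := hω.bounded (Sub.refl _)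
  exact not_mem_self m (hs m hm)

/-- there is a surjection `x → x + 1` if `x` is an infinite ordinal -/
theorem exists_onto_succ {x : M} (hx : Ord x) (h : Sub (omega : M) x) : ∃ f, Onto f x (succ x) := by
  refine ⟨_, onto_lam (a := x) (b := succ x) (fun y : M => cases (y = empt) x
    (cases (y ∈ (omega : M)) (sUn y) y)) ?_ ?_⟩
  · intro y hy
    by_cases h1 : y = empt
    · rw [cases_pos h1]; exact mem_succ.2 (Or.inr rfl)
    · rw [cases_neg h1]
      by_cases h2 : y ∈ (omega : M)
      · rw [cases_pos h2]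
        obtain ⟨m, hm, rfl⟩ := (omega_cases h2).resolve_left h1
        have : sUn (succ m) = m := by
          refine ext fun z => ?_
          rw [mem_sUn]
          constructor
          · rintro ⟨w, hw, hz⟩
            rcases mem_succ.1 hw with hw | rfl
            · exact trans_of_mem_omega hm w hw z hz
            · exact hz
          · intro hz
            exact ⟨m, mem_succ.2 (Or.inr rfl), hz⟩
        rw [this]
        exact mem_succ.2 (Or.inl (hx.trans hy (mem_succ.2 (Or.inr rfl))))
      · rw [cases_neg h2]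
        exact mem_succ.2 (Or.inl hy)
  · intro z hz
    rcases mem_succ.1 hz with hz | rfl
    · by_cases h2 : z ∈ (omega : M)
      · refine ⟨succ z, h _ (succ_mem_omega h2), ?_⟩
        have h1 : ¬ succ z = empt := fun e => not_mem_empt z (e ▸ mem_succ.2 (Or.inr rfl))
        rw [cases_neg h1, cases_pos (succ_mem_omega h2)]
        refine ext fun w => ?_
        rw [mem_sUn]
        constructor
        · rintro ⟨u, hu, hw⟩
          rcases mem_succ.1 hu with hu | rfl
          · exact trans_of_mem_omega h2 u hu w hw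
          · exact hw
        · intro hw
          exact ⟨z, mem_succ.2 (Or.inr rfl), hw⟩
      · refine ⟨z, hz, ?_⟩
        have h1 : ¬ z = empt := fun e => h2 (e ▸ empt_mem_omega)
        rw [cases_neg h1, cases_neg h2]
    · exact ⟨empt, h _ empt_mem_omega, cases_pos rfl⟩

/-- an infinite cardinal is closed under successors -/
theorem Card.succ_mem {a x : M} (ha : Card a) (hω : Sub (omega : M) a) (hx : x ∈ a) : succ x ∈ a := by
  rcases (ha.1.mem hx).succ.trichotomy ha.1 with h | h | h
  · exact h
  · exfalso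
    have hxo : Ord x := ha.1.mem hx
    by_cases hxω : x ∈ (omega : M)
    · have h1 : a ∈ (omega : M) := h ▸ succ_mem_omega hxω
      exact not_mem_self a (hω a h1)
    · obtain ⟨f, hf⟩ := exists_onto_succ hxo ((hxo.not_mem_iff ord_omega).1 hxω)
      exact ha.2 x hx f (h ▸ hf)
  · exfalso
    rcases mem_succ.1 h with h | h
    · exact not_mem_mem h hx
    · exact not_mem_self x (h ▸ hx)

end CF
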