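import Pool.Agent.Work.MP_cbc9f3_lc.Small

/-!
# The forcing relation for equality and membership of names
-/

namespace CF

universe u

variable {M : Type u} [ZFM M]

/-- Induction on names. -/
theorem name_induction (R : M → Prop) [hR : Dfn (fun v => R (v 0))]
    (h : ∀ x : M, (∀ z r : M, opair z r ∈ x → R z) → R x) : ∀ x, R x := by
  have hR' : ∀ (s : (ℕ → M) → M) [DT s], Dfn (fun v => R (s v)) := fun s hs => Dfn.comp1 hR hs
  have key : ∀ x : M, ∃ T : M, Trans T ∧ x ∈ T ∧ ∀ u : M, u ∈ T → R u := by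
    refine mem_induction (fun x => ∃ T : M, Trans T ∧ x ∈ T ∧ ∀ u : M, u ∈ T → R u) ?_
    intro x ih
    obtain ⟨T0, hT0, hx0⟩ := exists_trans_mem x
    let S : M := sep T0 (fun u => ∃ T : M, Trans T ∧ u ∈ T ∧ ∀ w : M, w ∈ T → R w)
    have hS : ∀ u, u ∈ S ↔ u ∈ T0 ∧ ∃ T : M, Trans T ∧ u ∈ T ∧ ∀ w : M, w ∈ T → R w :=
      fun u => mem_sep
    have hxS : ∀ y, y ∈ x → y ∈ S := fun y hy => (hS y).2 ⟨hT0 x hx0 y hy, ih y hy⟩
    refine ⟨adj S x, ?_, mem_adj.2 (Or.inr rfl), ?_⟩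
    · intro y hy z hz
      rcases mem_adj.1 hy with hy | rfl
      · obtain ⟨hy0, T, hT, hyT, hTR⟩ := (hS y).1 hy
        exact mem_adj.2 (Or.inl ((hS z).2 ⟨hT0 y hy0 z hz, T, hT, hT y hyT z hz, hTR⟩))
      · exact mem_adj.2 (Or.inl (hxS z hz))
    · intro u hu
      rcases mem_adj.1 hu with hu | rfl
      · obtain ⟨_, T, _, huT, hTR⟩ := (hS u).1 hu
        exact hTR u huT
      · refine h u fun z r hz => ?_
        obtain ⟨T, hT, hzT, hTR⟩ := ih _ hz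
        have h1 : sing z ∈ T := hT _ hzT _ (mem_upair.2 (Or.inl rfl))
        exact hTR z (hT _ h1 z (mem_sing.2 rfl))
  intro x
  obtain ⟨T, _, hx, hT⟩ := key x
  exact hT x hx

/-- `P`, `le`, `Q`: a set of conditions, its preordering, and the forcing relation for equality
of names. -/
structure Frc (P : M) (le : M → M → Prop) (Q : M → M → M → Prop) : Prop where
  refl : ∀ p, p ∈ P → le p p
  trans : ∀ p q r, p ∈ P → q ∈ P → r ∈ P → le p q → le q r → le p r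
  dfn_le : Dfn (fun v => le (v 0) (v 1))
  dfn_Q : Dfn (fun v => Q (v 0) (v 1) (v 2))
  spec : ∀ p, p ∈ P → ∀ x y, Q p x y ↔
    (∀ z r q, opair z r ∈ x → r ∈ P → q ∈ P → le q p → le q r →
      ∃ s w t, s ∈ P ∧ le s q ∧ opair w t ∈ y ∧ t ∈ P ∧ le s t ∧ Q s z w) ∧
    (∀ w t q, opair w t ∈ y → t ∈ P → q ∈ P → le q p → le q t →
      ∃ s z r, s ∈ P ∧ le s q ∧ opair z r ∈ x ∧ r ∈ P ∧ le s r ∧ Q s z w)

section existence

variable (P : M) (le : M → M → Prop)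

/-- the recursive clause -/
def Clause (S : M → M → M → Prop) (p x y : M) : Prop :=
    (∀ z r q, opair z r ∈ x → r ∈ P → q ∈ P → le q p → le q r →
      ∃ s w t, s ∈ P ∧ le s q ∧ opair w t ∈ y ∧ t ∈ P ∧ le s t ∧ S s z w) ∧
    (∀ w t q, opair w t ∈ y → t ∈ P → q ∈ P → le q p → le q t →
      ∃ s z r, s ∈ P ∧ le s q ∧ opair z r ∈ x ∧ r ∈ P ∧ le s r ∧ S s z w)

/-- `f` codes a solution of the recursion on the transitive set `T` -/
def FSol (T f : M) : Prop := Trans T ∧ IsFun f (prod T T) ∧ ∀ x y, x ∈ T → y ∈ T →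
  ap f (opair x y) = sep P (fun p => Clause P le (fun s z w => s ∈ ap f (opair z w)) p x y)

/-- the forcing relation for equality -/
def FQ (p x y : M) : Prop := ∃ T f, FSol P le T f ∧ x ∈ T ∧ y ∈ T ∧ p ∈ ap f (opair x y)

variable [hle : Dfn (fun v : ℕ → M => le (v 0) (v 1))]

include hle

theorem dfn_fsol : Dfn (fun v : ℕ → M => FSol P le (v 0) (v 1)) := by
  have h1 : ∀ (s t : (ℕ → M) → M) [DT s] [DT t], Dfn (fun v => le (s v) (t v)) :=
    fun s t hs ht => Dfn.comp2 hle hs ht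
  have h2 : DT (fun v : ℕ → M => sep P (fun p => Clause P le
      (fun s z w => s ∈ ap (v 0) (opair z w)) p (v 1) (v 2))) := by
    unfold Clause
    infer_instance
  have h3 : ∀ (f1 f2 f3 : (ℕ → M) → M) [DT f1] [DT f2] [DT f3], DT (fun v => sep P
      (fun p => Clause P le (fun s z w => s ∈ ap (f1 v) (opair z w)) p (f2 v) (f3 v))) :=
    fun f1 f2 f3 hs ht hr => DT.comp3 (t := fun a b c => sep P (fun p => Clause P le
      (fun s z w => s ∈ ap a (opair z w)) p b c)) h2 hs ht hr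
  unfold FSol
  infer_instance

theorem dfn_FQ : Dfn (fun v : ℕ → M => FQ P le (v 0) (v 1) (v 2)) := by
  have h1 : ∀ (s t : (ℕ → M) → M) [DT s] [DT t], Dfn (fun v => FSol P le (s v) (t v)) :=
    fun s t hs ht => Dfn.comp2 (dfn_fsol P le) hs ht
  unfold FQ
  infer_instance

omit hle in
theorem trans_of_opair_mem {T x z r : M} (hT : Trans T) (hx : x ∈ T) (h : opair z r ∈ x) : z ∈ T := by
  have h1 := hT _ hx _ h
  have h2 : sing z ∈ T := hT _ h1 _ (mem_upair.2 (Or.inl rfl))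
  exact hT _ h2 z (mem_sing.2 rfl)

omit hle in
/-- the clause only depends on the values at names of smaller rank -/
theorem clause_congr {S S' : M → M → M → Prop} {p x y : M}
    (h : ∀ s z w r t, opair z r ∈ x → opair w t ∈ y → (S s z w ↔ S' s z w)) :
    Clause P le S p x y ↔ Clause P le S' p x y := by
  unfold Clause
  constructor
  · rintro ⟨h1, h2⟩
    refine ⟨fun z r q hz hr hq hqp hqr => ?_, fun w t q hw ht hq hqp hqt => ?_⟩
    · obtain ⟨s, w, t, hs, hsq, hw, ht, hst, hS⟩ := h1 z r q hz hr hq hqp hqr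
      exact ⟨s, w, t, hs, hsq, hw, ht, hst, (h s z w r t hz hw).1 hS⟩
    · obtain ⟨s, z, r, hs, hsq, hz, hr, hsr, hS⟩ := h2 w t q hw ht hq hqp hqt
      exact ⟨s, z, r, hs, hsq, hz, hr, hsr, (h s z w r t hz hw).1 hS⟩
  · rintro ⟨h1, h2⟩
    refine ⟨fun z r q hz hr hq hqp hqr => ?_, fun w t q hw ht hq hqp hqt => ?_⟩
    · obtain ⟨s, w, t, hs, hsq, hw, ht, hst, hS⟩ := h1 z r q hz hr hq hqp hqr
      exact ⟨s, w, t, hs, hsq, hw, ht, hst, (h s z w r t hz hw).2 hS⟩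
    · obtain ⟨s, z, r, hs, hsq, hz, hr, hsr, hS⟩ := h2 w t q hw ht hq hqp hqt
      exact ⟨s, z, r, hs, hsq, hz, hr, hsr, (h s z w r t hz hw).2 hS⟩

theorem dfn_clause_ap (f x y : M) : Dfn (fun v : ℕ → M =>
    Clause P le (fun s z w => s ∈ ap f (opair z w)) (v 0) x y) := by
  have h1 : ∀ (s t : (ℕ → M) → M) [DT s] [DT t], Dfn (fun v => le (s v) (t v)) :=
    fun s t hs ht => Dfn.comp2 hle hs ht
  unfold Clause
  infer_instance

theorem FSol.mem_iff {T f x y p : M} (h : FSol P le T f) (hx : x ∈ T) (hy : y ∈ T) :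
    p ∈ ap f (opair x y) ↔ p ∈ P ∧ Clause P le (fun s z w => s ∈ ap f (opair z w)) p x y := by
  rw [h.2.2 x y hx hy]
  exact mem_sep' (dfn_clause_ap P le f x y)

theorem FSol.agree {T f T' f' : M} (h : FSol P le T f) (h' : FSol P le T' f') :
    ∀ x y, x ∈ T → x ∈ T' → y ∈ T → y ∈ T' → ap f (opair x y) = ap f' (opair x y) := by
  refine name_induction (fun x => ∀ y, x ∈ T → x ∈ T' → y ∈ T → y ∈ T' →
    ap f (opair x y) = ap f' (opair x y)) ?_
  intro x ih y hx hx' hy hy'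
  refine ext fun p => ?_
  rw [h.mem_iff P le hx hy, h'.mem_iff P le hx' hy']
  refine and_congr_right fun _ => clause_congr P le fun s z w r t hz hw => ?_
  rw [ih z r hz w (trans_of_opair_mem h.1 hx hz) (trans_of_opair_mem h'.1 hx' hz)
    (trans_of_opair_mem h.1 hy hw) (trans_of_opair_mem h'.1 hy' hw)]

/-- the ordering of pairs of names used for the recursion -/
def NLt (u v : M) : Prop := (∃ r, opair (fst u) r ∈ fst v) ∧ ∃ t, opair (snd u) t ∈ snd v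

omit hle in
theorem dfn_nlt' : Dfn (fun v : ℕ → M => NLt (v 0) (v 1)) := by unfold NLt; infer_instance

instance dfn_nlt {s t : (ℕ → M) → M} [hs : DT s] [ht : DT t] : Dfn (fun v => NLt (s v) (t v)) :=
  Dfn.comp2 (R := NLt) dfn_nlt' hs ht

omit hle in
theorem nlt_wf (T : M) : WF (NLt : M → M → Prop) (prod T T) := by
  have key : ∀ x s y : M, Sub s (prod T T) → opair x y ∈ s → ∃ m, m ∈ s ∧ ∀ u, u ∈ s →
      ¬ NLt u m := by
    refine name_induction (fun x => ∀ s y : M, Sub s (prod T T) → opair x y ∈ s →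
      ∃ m, m ∈ s ∧ ∀ u, u ∈ s → ¬ NLt u m) ?_
    intro x ih s y hs hxy
    by_cases hmin : ∀ u, u ∈ s → ¬ NLt u (opair x y)
    · exact ⟨_, hxy, hmin⟩
    · push Not at hmin
      obtain ⟨u, hu, ⟨r, hr⟩, t, ht⟩ := hmin
      obtain ⟨z, w, _, _, rfl⟩ := mem_prod.1 (hs u hu)
      rw [fst_opair, fst_opair] at hr
      exact ih z r hr s w hs hu
  intro s hs ⟨u, hu⟩
  obtain ⟨x, y, _, _, rfl⟩ := mem_prod.1 (hs u hu)
  exact key x s y hs hu

theorem exists_fsol (T : M) (hT : Trans T) : ∃ f, FSol P le T f := by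
  have h1 : ∀ (s t : (ℕ → M) → M) [DT s] [DT t], Dfn (fun v => le (s v) (t v)) :=
    fun s t hs ht => Dfn.comp2 hle hs ht
  have hG : DT (fun v : ℕ → M => sep P (fun p => Clause P le
      (fun s z w => s ∈ ap (v 1) (opair z w)) p (fst (v 0)) (snd (v 0)))) := by
    unfold Clause
    infer_instance
  obtain ⟨f, hf, hrec⟩ := exists_rec (W := prod T T) (lt := NLt)
    (G := fun v g => sep P (fun p => Clause P le
      (fun s z w => s ∈ ap g (opair z w)) p (fst v) (snd v))) (nlt_wf T)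
  refine ⟨f, hT, hf, fun x y hx hy => ?_⟩
  rw [hrec _ (opair_mem_prod.2 ⟨hx, hy⟩), fst_opair, snd_opair]
  refine ext fun p => ?_
  rw [mem_sep' (dfn_clause_ap P le _ x y), mem_sep' (dfn_clause_ap P le _ x y)]
  refine and_congr_right fun _ => clause_congr P le fun s z w r t hz hw => ?_
  have h2 : opair z w ∈ sep (prod T T) (fun u => NLt u (opair x y)) := by
    refine mem_sep.2 ⟨opair_mem_prod.2 ⟨trans_of_opair_mem hT hx hz,
      trans_of_opair_mem hT hy hw⟩, ?_⟩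
    exact ⟨⟨r, by rw [fst_opair, fst_opair]; exact hz⟩, t, by rw [snd_opair, snd_opair]; exact hw⟩
  rw [hf.ap_restr (fun u hu => (mem_sep.1 hu).1) h2]

theorem FQ_iff {T f x y p : M} (h : FSol P le T f) (hx : x ∈ T) (hy : y ∈ T) :
    FQ P le p x y ↔ p ∈ ap f (opair x y) := by
  constructor
  · rintro ⟨T', f', h', hx', hy', hp⟩
    rw [FSol.agree P le h h' x y hx hx' hy hy']
    exact hp
  · intro hp
    exact ⟨T, f, h, hx, hy, hp⟩

theorem exists_fsol_mem (x y : M) : ∃ T f, FSol P le T f ∧ x ∈ T ∧ y ∈ T := by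
  obtain ⟨T, hT, hxy⟩ := exists_trans_mem (upair x y)
  obtain ⟨f, hf⟩ := exists_fsol P le T hT
  exact ⟨T, f, hf, hT _ hxy x (mem_upair.2 (Or.inl rfl)), hT _ hxy y (mem_upair.2 (Or.inr rfl))⟩

theorem FQ_spec (p : M) (hp : p ∈ P) (x y : M) : FQ P le p x y ↔ Clause P le (FQ P le) p x y := by
  obtain ⟨T, f, h, hx, hy⟩ := exists_fsol_mem P le x y
  rw [FQ_iff P le h hx hy, h.mem_iff P le hx hy]
  refine (and_iff_right hp).trans (clause_congr P le fun s z w r t hz hw => ?_)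
  exact (FQ_iff P le h (trans_of_opair_mem h.1 hx hz) (trans_of_opair_mem h.1 hy hw)).symm

theorem exists_frc (hrefl : ∀ p, p ∈ P → le p p)
    (htr : ∀ p q r, p ∈ P → q ∈ P → r ∈ P → le p q → le q r → le p r) :
    ∃ Q, Frc P le Q :=
  ⟨FQ P le, hrefl, htr, hle, dfn_FQ P le, fun p hp x y => FQ_spec P le p hp x y⟩

omit hle in
/-- uniqueness of the forcing relation for equality -/
theorem Frc.unique {Q Q' : M → M → M → Prop} (h : Frc P le Q) (h' : Frc P le Q') :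
    ∀ x y p, p ∈ P → (Q p x y ↔ Q' p x y) := by
  have hQ := h.dfn_Q
  have hQ' := h'.dfn_Q
  have i1 : ∀ (s t r : (ℕ → M) → M) [DT s] [DT t] [DT r], Dfn (fun v => Q (s v) (t v) (r v)) :=
    fun s t r hs ht hr => Dfn.comp3 hQ hs ht hr
  have i2 : ∀ (s t r : (ℕ → M) → M) [DT s] [DT t] [DT r], Dfn (fun v => Q' (s v) (t v) (r v)) :=
    fun s t r hs ht hr => Dfn.comp3 hQ' hs ht hr
  refine name_induction (fun x => ∀ y p, p ∈ P → (Q p x y ↔ Q' p x y)) ?_
  intro x ih y p hp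
  rw [h.spec p hp, h'.spec p hp]
  constructor
  · rintro ⟨h1, h2⟩
    refine ⟨fun z r q hz hr hq hqp hqr => ?_, fun w t q hw ht hq hqp hqt => ?_⟩
    · obtain ⟨s, w, t, hs, hsq, hw, ht, hst, hS⟩ := h1 z r q hz hr hq hqp hqr
      exact ⟨s, w, t, hs, hsq, hw, ht, hst, (ih z r hz w s hs).1 hS⟩
    · obtain ⟨s, z, r, hs, hsq, hz, hr, hsr, hS⟩ := h2 w t q hw ht hq hqp hqt
      exact ⟨s, z, r, hs, hsq, hz, hr, hsr, (ih z r hz w s hs).1 hS⟩
  · rintro ⟨h1, h2⟩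
    refine ⟨fun z r q hz hr hq hqp hqr => ?_, fun w t q hw ht hq hqp hqt => ?_⟩
    · obtain ⟨s, w, t, hs, hsq, hw, ht, hst, hS⟩ := h1 z r q hz hr hq hqp hqr
      exact ⟨s, w, t, hs, hsq, hw, ht, hst, (ih z r hz w s hs).2 hS⟩
    · obtain ⟨s, z, r, hs, hsq, hz, hr, hsr, hS⟩ := h2 w t q hw ht hq hqp hqt
      exact ⟨s, z, r, hs, hsq, hz, hr, hsr, (ih z r hz w s hs).2 hS⟩

end existence

/-! ### Properties of the forcing relation for equality -/

section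
variable {P : M} {le : M → M → Prop} {Q : M → M → M → Prop} (h : Frc P le Q)

/-- the forcing relation for membership -/
def FMem (P : M) (le : M → M → Prop) (Q : M → M → M → Prop) (p x y : M) : Prop :=
  ∀ q, q ∈ P → le q p → ∃ s w t, s ∈ P ∧ le s q ∧ opair w t ∈ y ∧ t ∈ P ∧ le s t ∧ Q s x w

include h

theorem Frc.mono {p q x y : M} (hp : p ∈ P) (hq : q ∈ P) (hqp : le q p) (hQ : Q p x y) :
    Q q x y := by
  rw [h.spec p hp] at hQ
  rw [h.spec q hq]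
  refine ⟨fun z r q' hz hr hq' hqp' hqr => hQ.1 z r q' hz hr hq'
    (h.trans _ _ _ hq' hq hp hqp' hqp) hqr, fun w t q' hw ht hq' hqp' hqt =>
    hQ.2 w t q' hw ht hq' (h.trans _ _ _ hq' hq hp hqp' hqp) hqt⟩

theorem Frc.reg {p x y : M} (hp : p ∈ P) (hd : ∀ q, q ∈ P → le q p → ∃ r, r ∈ P ∧ le r q ∧
    Q r x y) : Q p x y := by
  rw [h.spec p hp]
  constructor
  · intro z r q hz hr hq hqp hqr
    obtain ⟨q', hq', hq'q, hQ⟩ := hd q hq hqp
    obtain ⟨s, w, t, hs, hsq, hw, ht, hst, hS⟩ := ((h.spec q' hq' x y).1 hQ).1 z r q' hz hr hq'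
      (h.refl _ hq') (h.trans _ _ _ hq' hq hr hq'q hqr)
    exact ⟨s, w, t, hs, h.trans _ _ _ hs hq' hq hsq hq'q, hw, ht, hst, hS⟩
  · intro w t q hw ht hq hqp hqt
    obtain ⟨q', hq', hq'q, hQ⟩ := hd q hq hqp
    obtain ⟨s, z, r, hs, hsq, hz, hr, hsr, hS⟩ := ((h.spec q' hq' x y).1 hQ).2 w t q' hw ht hq'
      (h.refl _ hq') (h.trans _ _ _ hq' hq ht hq'q hqt)
    exact ⟨s, z, r, hs, h.trans _ _ _ hs hq' hq hsq hq'q, hz, hr, hsr, hS⟩

theorem Frc.eq_refl : ∀ x p, p ∈ P → Q p x x := by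
  have hQ := h.dfn_Q
  have i1 : ∀ (s t r : (ℕ → M) → M) [DT s] [DT t] [DT r], Dfn (fun v => Q (s v) (t v) (r v)) :=
    fun s t r hs ht hr => Dfn.comp3 hQ hs ht hr
  refine name_induction (fun x => ∀ p, p ∈ P → Q p x x) ?_
  intro x ih p hp
  rw [h.spec p hp]
  exact ⟨fun z r q hz hr hq _ hqr => ⟨q, z, r, hq, h.refl q hq, hz, hr, hqr, ih z r hz q hq⟩,
    fun w t q hw ht hq _ hqt => ⟨q, w, t, hq, h.refl q hq, hw, ht, hqt, ih w t hw q hq⟩⟩

theorem Frc.eq_symm : ∀ x y p, p ∈ P → Q p x y → Q p y x := by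
  have hQ := h.dfn_Q
  have i1 : ∀ (s t r : (ℕ → M) → M) [DT s] [DT t] [DT r], Dfn (fun v => Q (s v) (t v) (r v)) :=
    fun s t r hs ht hr => Dfn.comp3 hQ hs ht hr
  refine name_induction (fun x => ∀ y p, p ∈ P → Q p x y → Q p y x) ?_
  intro x ih y p hp hxy
  rw [h.spec p hp] at hxy ⊢
  constructor
  · intro w t q hw ht hq hqp hqt
    obtain ⟨s, z, r, hs, hsq, hz, hr, hsr, hS⟩ := hxy.2 w t q hw ht hq hqp hqt
    exact ⟨s, z, r, hs, hsq, hz, hr, hsr, ih z r hz w s hs hS⟩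
  · intro z r q hz hr hq hqp hqr
    obtain ⟨s, w, t, hs, hsq, hw, ht, hst, hS⟩ := hxy.1 z r q hz hr hq hqp hqr
    exact ⟨s, w, t, hs, hsq, hw, ht, hst, ih z r hz w s hs hS⟩

theorem Frc.eq_trans : ∀ x y z p, p ∈ P → Q p x y → Q p y z → Q p x z := by
  have hQ := h.dfn_Q
  have i1 : ∀ (s t r : (ℕ → M) → M) [DT s] [DT t] [DT r], Dfn (fun v => Q (s v) (t v) (r v)) :=
    fun s t r hs ht hr => Dfn.comp3 hQ hs ht hr
  refine name_induction (fun x => ∀ y z p, p ∈ P → Q p x y → Q p y z → Q p x z) ?_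
  intro x ih y z p hp hxy hyz
  rw [h.spec p hp]
  constructor
  · intro a r q ha hr hq hqp hqr
    obtain ⟨s, b, t, hs, hsq, hb, ht, hst, hS⟩ :=
      ((h.spec p hp x y).1 hxy).1 a r q ha hr hq hqp hqr
    have hsp := h.trans _ _ _ hs hq hp hsq hqp
    obtain ⟨s', c, u, hs', hsq', hc, hu, hsu, hS'⟩ :=
      ((h.spec p hp y z).1 hyz).1 b t s hb ht hs hsp hst
    refine ⟨s', c, u, hs', h.trans _ _ _ hs' hs hq hsq' hsq, hc, hu, hsu, ?_⟩
    exact ih a r ha b c s' hs' (h.mono hs hs' hsq' hS) hS'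
  · intro c u q hc hu hq hqp hqu
    obtain ⟨s, b, t, hs, hsq, hb, ht, hst, hS⟩ :=
      ((h.spec p hp y z).1 hyz).2 c u q hc hu hq hqp hqu
    have hsp := h.trans _ _ _ hs hq hp hsq hqp
    obtain ⟨s', a, r, hs', hsq', ha, hr, hsr, hS'⟩ :=
      ((h.spec p hp x y).1 hxy).2 b t s hb ht hs hsp hst
    refine ⟨s', a, r, hs', h.trans _ _ _ hs' hs hq hsq' hsq, ha, hr, hsr, ?_⟩
    exact ih a r ha b c s' hs' hS' (h.mono hs hs' hsq' hS)

theorem Frc.mem_mono {p q x y : M} (hp : p ∈ P) (hq : q ∈ P) (hqp : le q p)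
    (hm : FMem P le Q p x y) : FMem P le Q q x y :=
  fun r hr hrq => hm r hr (h.trans _ _ _ hr hq hp hrq hqp)

theorem Frc.mem_reg {p x y : M} (hp : p ∈ P) (hd : ∀ q, q ∈ P → le q p → ∃ r, r ∈ P ∧ le r q ∧
    FMem P le Q r x y) : FMem P le Q p x y := by
  intro q hq hqp
  obtain ⟨r, hr, hrq, hm⟩ := hd q hq hqp
  obtain ⟨s, w, t, hs, hsr, hw, ht, hst, hS⟩ := hm r hr (h.refl r hr)
  exact ⟨s, w, t, hs, h.trans _ _ _ hs hr hq hsr hrq, hw, ht, hst, hS⟩

theorem Frc.mem_congr_left {p x x' y : M} (hp : p ∈ P) (hx : Q p x x')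
    (hm : FMem P le Q p x y) : FMem P le Q p x' y := by
  intro q hq hqp
  obtain ⟨s, w, t, hs, hsq, hw, ht, hst, hS⟩ := hm q hq hqp
  have hsp := h.trans _ _ _ hs hq hp hsq hqp
  exact ⟨s, w, t, hs, hsq, hw, ht, hst,
    h.eq_trans _ _ _ s hs (h.eq_symm _ _ s hs (h.mono hp hs hsp hx)) hS⟩

theorem Frc.mem_congr_right {p x y y' : M} (hp : p ∈ P) (hy : Q p y y')
    (hm : FMem P le Q p x y) : FMem P le Q p x y' := by
  intro q hq hqp
  obtain ⟨s, w, t, hs, hsq, hw, ht, hst, hS⟩ := hm q hq hqp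
  have hsp := h.trans _ _ _ hs hq hp hsq hqp
  obtain ⟨s', w', t', hs', hss', hw', ht', hst', hS'⟩ :=
    ((h.spec p hp y y').1 hy).1 w t s hw ht hs hsp hst
  exact ⟨s', w', t', hs', h.trans _ _ _ hs' hs hq hss' hsq, hw', ht', hst',
    h.eq_trans _ _ _ s' hs' (h.mono hs hs' hss' hS) hS'⟩

theorem Frc.mem_of_opair {p w t y : M} (hp : p ∈ P) (ht : t ∈ P) (hpt : le p t)
    (hw : opair w t ∈ y) : FMem P le Q p w y := by
  intro q hq hqp
  exact ⟨q, w, t, hq, h.refl q hq, hw, ht, h.trans _ _ _ hq hp ht hqp hpt, h.eq_refl w q hq⟩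

/-- extensionality -/
theorem Frc.extensionality {p x y : M} (hp : p ∈ P)
    (he : ∀ q z, q ∈ P → le q p → (FMem P le Q q z x ↔ FMem P le Q q z y)) : Q p x y := by
  rw [h.spec p hp]
  constructor
  · intro z r q hz hr hq hqp hqr
    have h1 := (he q z hq hqp).1 (h.mem_of_opair hq hr hqr hz)
    obtain ⟨s, w, t, hs, hsq, hw, ht, hst, hS⟩ := h1 q hq (h.refl q hq)
    exact ⟨s, w, t, hs, hsq, hw, ht, hst, hS⟩
  · intro w t q hw ht hq hqp hqt
    have h1 := (he q w hq hqp).2 (h.mem_of_opair hq ht hqt hw)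
    obtain ⟨s, z, r, hs, hsq, hz, hr, hsr, hS⟩ := h1 q hq (h.refl q hq)
    exact ⟨s, z, r, hs, hsq, hz, hr, hsr, h.eq_symm _ _ s hs hS⟩

end

end CF
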