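import Pool.Agent.Work.MP_cbc9f3_lc.Finite

/-!
# Order types, Gödel's ordering of pairs and Hessenberg's theorem in a model of ZF
-/

namespace CF

universe u

variable {M : Type u} [ZFM M]

/-! ### Order types -/

section
variable {W : M} {lt : M → M → Prop} [hlt : Dfn (fun v : ℕ → M => lt (v 0) (v 1))]

include hlt in
/-- The collapse of a well-ordered set. -/
theorem exists_otp (hW : WF lt W)
    (htr : ∀ x y z, x ∈ W → y ∈ W → z ∈ W → lt x y → lt y z → lt x z)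
    (hlin : ∀ x y, x ∈ W → y ∈ W → lt x y ∨ x = y ∨ lt y x) :
    ∃ r, IsFun r W ∧ (∀ x, x ∈ W → ∀ z, z ∈ ap r x ↔ ∃ y, y ∈ W ∧ lt y x ∧ z = ap r y) ∧
      (∀ x, x ∈ W → Ord (ap r x)) ∧ ∀ x y, x ∈ W → y ∈ W → ap r x = ap r y → x = y := by
  have h1 : ∀ (s t : (ℕ → M) → M) [DT s] [DT t], Dfn (fun v => lt (s v) (t v)) :=
    fun s t hs ht => Dfn.comp2 hlt hs ht
  obtain ⟨r, hr, hrec⟩ := exists_rec (W := W) (lt := lt)
    (G := fun x f => img (sep W (fun y => lt y x)) (fun y => ap f y)) hW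
  have hmem : ∀ x, x ∈ W → ∀ z, z ∈ ap r x ↔ ∃ y, y ∈ W ∧ lt y x ∧ z = ap r y := by
    intro x hx z
    rw [hrec x hx, mem_img]
    constructor
    · rintro ⟨y, hy, rfl⟩
      refine ⟨y, (mem_sep.1 hy).1, (mem_sep.1 hy).2, ?_⟩
      exact hr.ap_restr (fun w hw => (mem_sep.1 hw).1) hy
    · rintro ⟨y, hy, hyx, rfl⟩
      have hy' : y ∈ sep W (fun y => lt y x) := mem_sep.2 ⟨hy, hyx⟩
      exact ⟨y, hy', (hr.ap_restr (fun w hw => (mem_sep.1 hw).1) hy').symm⟩
  have htrans : ∀ x, x ∈ W → Trans (ap r x) := by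
    intro x hx z hz w hw
    obtain ⟨y, hy, hyx, rfl⟩ := (hmem x hx z).1 hz
    obtain ⟨u, hu, huy, rfl⟩ := (hmem y hy w).1 hw
    exact (hmem x hx _).2 ⟨u, hu, htr u y x hu hy hx huy hyx, rfl⟩
  have hord : ∀ x, x ∈ W → Ord (ap r x) := by
    intro x hx
    refine ⟨htrans x hx, fun z hz => ?_⟩
    obtain ⟨y, hy, hyx, rfl⟩ := (hmem x hx z).1 hz
    exact htrans y hy
  refine ⟨r, hr, hmem, hord, ?_⟩
  intro x y hx hy e
  rcases hlin x y hx hy with h | h | h
  · exfalso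
    have : ap r x ∈ ap r y := (hmem y hy _).2 ⟨x, hx, h, rfl⟩
    exact not_mem_self _ (e ▸ this)
  · exact h
  · exfalso
    have : ap r y ∈ ap r x := (hmem x hx _).2 ⟨y, hy, h, rfl⟩
    exact not_mem_self _ (e ▸ this)

end

/-! ### Gödel's ordering of pairs -/

/-- Gödel's ordering on pairs of ordinals (the maximum of two ordinals is their union). -/
def GLt (z w : M) : Prop :=
  ∃ a b c d, z = opair a b ∧ w = opair c d ∧
    (un a b ∈ un c d ∨ (un a b = un c d ∧ (a ∈ c ∨ (a = c ∧ b ∈ d))))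

instance dfn_glt {s t : (ℕ → M) → M} [hs : DT s] [ht : DT t] : Dfn (fun v => GLt (s v) (t v)) :=
  Dfn.comp2 (R := GLt) (by unfold GLt; infer_instance) hs ht

theorem glt_iff {a b c d : M} : GLt (opair a b) (opair c d) ↔
    (un a b ∈ un c d ∨ (un a b = un c d ∧ (a ∈ c ∨ (a = c ∧ b ∈ d)))) := by
  constructor
  · rintro ⟨a', b', c', d', e1, e2, h⟩
    obtain ⟨rfl, rfl⟩ := opair_inj.1 e1
    obtain ⟨rfl, rfl⟩ := opair_inj.1 e2
    exact h
  · intro h
    exact ⟨a, b, c, d, rfl, rfl, h⟩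

theorem Ord.un {a b : M} (ha : Ord a) (hb : Ord b) : Ord (un a b) := by
  rcases ha.trichotomy hb with h | h | h
  · have : CF.un a b = b := ext fun x => by
      rw [mem_un]; exact ⟨fun h' => h'.elim (fun h' => hb.trans h h') id, Or.inr⟩
    rw [this]; exact hb
  · subst h
    have : CF.un a a = a := ext fun x => by simp
    rw [this]; exact ha
  · have : CF.un a b = a := ext fun x => by
      rw [mem_un]; exact ⟨fun h' => h'.elim id (fun h' => ha.trans h h'), Or.inl⟩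
    rw [this]; exact ha

theorem Ord.un_mem {a b k : M} (hk : Ord k) (ha : a ∈ k) (hb : b ∈ k) : CF.un a b ∈ k := by
  have hao := hk.mem ha
  have hbo := hk.mem hb
  rcases hao.trichotomy hbo with h | h | h
  · have : CF.un a b = b := ext fun x => by
      rw [mem_un]; exact ⟨fun h' => h'.elim (fun h' => hbo.trans h h') id, Or.inr⟩
    rw [this]; exact hb
  · subst h
    have : CF.un a a = a := ext fun x => by simp
    rw [this]; exact ha
  · have : CF.un a b = a := ext fun x => by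
      rw [mem_un]; exact ⟨fun h' => h'.elim id (fun h' => hao.trans h h'), Or.inl⟩
    rw [this]; exact ha

theorem glt_trans {k x y z : M} (hk : Ord k) (hx : x ∈ prod k k) (hy : y ∈ prod k k)
    (hz : z ∈ prod k k) (h1 : GLt x y) (h2 : GLt y z) : GLt x z := by
  obtain ⟨a, b, ha, hb, rfl⟩ := mem_prod.1 hx
  obtain ⟨c, d, hc, hd, rfl⟩ := mem_prod.1 hy
  obtain ⟨e, f, he, hf, rfl⟩ := mem_prod.1 hz
  rw [glt_iff] at *
  have huo : Ord (un e f) := (hk.mem he).un (hk.mem hf)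
  have heo := hk.mem he
  have hfo := hk.mem hf
  rcases h1 with h1 | ⟨h1, h1'⟩
  · rcases h2 with h2 | ⟨h2, _⟩
    · exact Or.inl (huo.trans h2 h1)
    · exact Or.inl (h2 ▸ h1)
  · rcases h2 with h2 | ⟨h2, h2'⟩
    · exact Or.inl (h1 ▸ h2)
    · refine Or.inr ⟨h1.trans h2, ?_⟩
      rcases h1' with h1' | ⟨rfl, h1'⟩
      · rcases h2' with h2' | ⟨rfl, _⟩
        · exact Or.inl (heo.trans h2' h1')
        · exact Or.inl h1'
      · rcases h2' with h2' | ⟨rfl, h2'⟩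
        · exact Or.inl h2'
        · exact Or.inr ⟨rfl, hfo.trans h2' h1'⟩

theorem glt_linear {k x y : M} (hk : Ord k) (hx : x ∈ prod k k) (hy : y ∈ prod k k) :
    GLt x y ∨ x = y ∨ GLt y x := by
  obtain ⟨a, b, ha, hb, rfl⟩ := mem_prod.1 hx
  obtain ⟨c, d, hc, hd, rfl⟩ := mem_prod.1 hy
  rw [glt_iff, glt_iff]
  rcases ((hk.mem ha).un (hk.mem hb)).trichotomy ((hk.mem hc).un (hk.mem hd)) with h | h | h
  · exact Or.inl (Or.inl h)
  · rcases (hk.mem ha).trichotomy (hk.mem hc) with h1 | h1 | h1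
    · exact Or.inl (Or.inr ⟨h, Or.inl h1⟩)
    · rcases (hk.mem hb).trichotomy (hk.mem hd) with h2 | h2 | h2
      · exact Or.inl (Or.inr ⟨h, Or.inr ⟨h1, h2⟩⟩)
      · exact Or.inr (Or.inl (by rw [h1, h2]))
      · exact Or.inr (Or.inr (Or.inr ⟨h.symm, Or.inr ⟨h1.symm, h2⟩⟩))
    · exact Or.inr (Or.inr (Or.inr ⟨h.symm, Or.inl h1⟩))
  · exact Or.inr (Or.inr (Or.inl h))

theorem glt_wf {k : M} (hk : Ord k) : WF (GLt : M → M → Prop) (prod k k) := by
  intro s hs hne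
  have hpair : ∀ z, z ∈ s → ∃ a b, a ∈ k ∧ b ∈ k ∧ z = opair a b := fun z hz =>
    mem_prod.1 (hs z hz)
  obtain ⟨z0, hz0⟩ := hne
  obtain ⟨a0, b0, ha0, hb0, rfl⟩ := hpair z0 hz0
  -- minimize the maximum
  obtain ⟨m, hm, ⟨a1, b1, hab1, hm1⟩, hmin⟩ := exists_least
    (fun m => ∃ a b, opair a b ∈ s ∧ m = un a b) ((hk.mem ha0).un (hk.mem hb0))
    ⟨a0, b0, hz0, rfl⟩
  obtain ⟨a1', b1', ha1, hb1, e⟩ := hpair _ hab1
  obtain ⟨rfl, rfl⟩ := opair_inj.1 e
  -- minimize the first coordinate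
  obtain ⟨a, ha, ⟨b2, hab2, hm2⟩, hamin⟩ := exists_least
    (fun a => ∃ b, opair a b ∈ s ∧ m = un a b) (hk.mem ha1) ⟨b1, hab1, hm1⟩
  obtain ⟨a2', b2', ha2, hb2, e⟩ := hpair _ hab2
  obtain ⟨rfl, rfl⟩ := opair_inj.1 e
  -- minimize the second coordinate
  obtain ⟨b, hb, ⟨hab, hm3⟩, hbmin⟩ := exists_least
    (fun b => opair a b ∈ s ∧ m = un a b) (hk.mem hb2) ⟨hab2, hm2⟩
  refine ⟨opair a b, hab, fun y hy hlt => ?_⟩
  obtain ⟨c, d, hc, hd, rfl⟩ := hpair y hy
  rcases glt_iff.1 hlt with h | ⟨h, h' | ⟨rfl, h'⟩⟩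
  · exact hmin (un c d) (hm3 ▸ h) ⟨c, d, hy, rfl⟩
  · exact hamin c h' ⟨d, hy, hm3.trans h.symm⟩
  · exact hbmin d h' ⟨hy, hm3.trans h.symm⟩

/-! ### Hessenberg's theorem -/

/-- If `k` is an infinite cardinal and `b × b` is an image of `b` for all infinite `b < k`, then
Gödel's pairing maps `k × k` into `k`. -/
theorem godel_aux {k : M} (hk : Card k) (hω : Sub omega k)
    (ih : ∀ b, b ∈ k → Sub omega b → ∃ f, Onto f b (prod b b)) :
    ∃ r, IsFun r (prod k k) ∧ (∀ x, x ∈ prod k k → ap r x ∈ k) ∧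
      ∀ x y, x ∈ prod k k → y ∈ prod k k → ap r x = ap r y → x = y := by
  have hko := hk.1
  obtain ⟨r, hr, hmem, hord, hinj⟩ := exists_otp (W := prod k k) (lt := GLt) (glt_wf hko)
    (fun x y z hx hy hz h1 h2 => glt_trans hko hx hy hz h1 h2)
    (fun x y hx hy => glt_linear hko hx hy)
  refine ⟨r, hr, ?_, hinj⟩
  intro z hz
  obtain ⟨x, y, hx, hy, rfl⟩ := mem_prod.1 hz
  by_contra hnot
  have hsub : Sub k (ap r (opair x y)) := ((hord _ hz).not_mem_iff hko).1 hnot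
  have hd : succ (un x y) ∈ k := hk.succ_mem hω (hko.un_mem hx hy)
  have hdo : Ord (succ (un x y)) := hko.mem hd
  -- the predecessors lie in `d × d`
  have hpred : ∀ w, w ∈ prod k k → GLt w (opair x y) →
      w ∈ prod (succ (un x y)) (succ (un x y)) := by
    intro w hw hlt
    obtain ⟨a, b, ha, hb, rfl⟩ := mem_prod.1 hw
    have hu : un a b ∈ succ (un x y) := by
      rcases glt_iff.1 hlt with h | ⟨h, _⟩
      · exact mem_succ.2 (Or.inl h)
      · exact mem_succ.2 (Or.inr h)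
    have h1 : ∀ c, Ord c → Sub c (un a b) → c ∈ succ (un x y) := by
      intro c hc hsub
      rcases (hc.sub_iff ((hko.mem ha).un (hko.mem hb))).1 hsub with h | h
      · exact hdo.trans hu h
      · exact h ▸ hu
    rw [opair_mem_prod]
    exact ⟨h1 a (hko.mem ha) fun t ht => mem_un.2 (Or.inl ht),
      h1 b (hko.mem hb) fun t ht => mem_un.2 (Or.inr ht)⟩
  -- hence `d × d` maps onto `k`
  have honto : ∃ f, Onto f (prod (succ (un x y)) (succ (un x y))) k := by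
    refine ⟨_, onto_lam (fun w => cases (w ∈ prod k k ∧ ap r w ∈ k) (ap r w) empt) ?_ ?_⟩
    · intro w _
      by_cases h : w ∈ prod k k ∧ ap r w ∈ k
      · rw [cases_pos h]; exact h.2
      · rw [cases_neg h]; exact hω _ empt_mem_omega
    · intro g hg
      obtain ⟨w, hw, hlt, rfl⟩ := (hmem _ hz g).1 (hsub g hg)
      exact ⟨w, hpred w hw hlt, cases_pos ⟨hw, hg⟩⟩
  obtain ⟨f, hf⟩ := honto
  by_cases hfin : succ (un x y) ∈ (omega : M)
  · exact not_onto_of_fint ((fint_of_mem_omega hfin).prod (fint_of_mem_omega hfin)) hω hf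
  · obtain ⟨g, hg⟩ := ih _ hd ((hdo.not_mem_iff ord_omega).1 hfin)
    exact hk.2 _ hd _ (hg.comp hf)

/-- Hessenberg's theorem: if `a` is an infinite ordinal then `a × a` is an image of `a`. -/
theorem hessenberg {a : M} (ha : Ord a) (hω : Sub omega a) : ∃ f, Onto f a (prod a a) := by
  refine ord_induction (fun a => Sub omega a → ∃ f, Onto f a (prod a a)) ?_ a ha hω
  intro a ha ih hω
  by_cases hc : Card a
  · obtain ⟨r, hr, hrk, hinj⟩ := godel_aux hc hω fun b hb hb' => ih b hb hb'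
    have h0 : (empt : M) ∈ a := hω _ empt_mem_omega
    obtain ⟨f, hf⟩ := exists_repl a (fun x w => ∃ z, w = opair x z ∧
      ((z ∈ prod a a ∧ ap r z = x) ∨ ((¬ ∃ u, u ∈ prod a a ∧ ap r u = x) ∧
        z = opair empt empt))) (by
        intro x hx
        by_cases h : ∃ u, u ∈ prod a a ∧ ap r u = x
        · obtain ⟨u, hu, hux⟩ := h
          refine ⟨opair x u, ⟨u, rfl, Or.inl ⟨hu, hux⟩⟩, ?_⟩
          rintro w ⟨z, rfl, ⟨hz, hzx⟩ | ⟨hno, _⟩⟩
          · rw [hinj z u hz hu (hzx.trans hux.symm)]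
          · exact absurd ⟨u, hu, hux⟩ hno
        · refine ⟨opair x (opair empt empt), ⟨_, rfl, Or.inr ⟨h, rfl⟩⟩, ?_⟩
          rintro w ⟨z, rfl, hz | ⟨_, rfl⟩⟩
          · exact absurd ⟨z, hz⟩ h
          · rfl)
    have hval : ∀ x z, opair x z ∈ f ↔ x ∈ a ∧ ((z ∈ prod a a ∧ ap r z = x) ∨
        ((¬ ∃ u, u ∈ prod a a ∧ ap r u = x) ∧ z = opair empt empt)) := by
      intro x z
      rw [hf]
      constructor
      · rintro ⟨x', hx', z', e, h⟩
        obtain ⟨rfl, rfl⟩ := opair_inj.1 e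
        exact ⟨hx', h⟩
      · rintro ⟨hx, h⟩
        exact ⟨x, hx, z, rfl, h⟩
    have hfun : IsFun f a := by
      constructor
      · intro w hw
        obtain ⟨x, hx, z, rfl, _⟩ := (hf w).1 hw
        exact ⟨x, z, hx, rfl⟩
      · intro x hx
        by_cases h : ∃ u, u ∈ prod a a ∧ ap r u = x
        · obtain ⟨u, hu, hux⟩ := h
          refine ⟨u, (hval x u).2 ⟨hx, Or.inl ⟨hu, hux⟩⟩, fun z hz => ?_⟩
          rcases ((hval x z).1 hz).2 with ⟨hz1, hz2⟩ | ⟨hno, _⟩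
          · exact hinj z u hz1 hu (hz2.trans hux.symm)
          · exact absurd ⟨u, hu, hux⟩ hno
        · refine ⟨opair empt empt, (hval x _).2 ⟨hx, Or.inr ⟨h, rfl⟩⟩, fun z hz => ?_⟩
          rcases ((hval x z).1 hz).2 with hz1 | ⟨_, rfl⟩
          · exact absurd ⟨z, hz1⟩ h
          · rfl
    refine ⟨f, hfun, ?_, ?_⟩
    · intro x hx
      rcases ((hval x _).1 (hfun.opair_ap hx)).2 with h | h
      · exact h.1
      · rw [h.2]
        exact opair_mem_prod.2 ⟨h0, h0⟩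
    · intro z hz
      exact ⟨ap r z, hrk z hz, hfun.ap_eq ((hval _ z).2 ⟨hrk z hz, Or.inl ⟨hz, rfl⟩⟩)⟩
  · -- `a` is the image of a smaller ordinal
    have : ∃ b, b ∈ a ∧ ∃ f, Onto f b a := by
      by_contra hcon
      push Not at hcon
      exact hc ⟨ha, hcon⟩
    obtain ⟨b, hb, f, hf⟩ := this
    have hbo := ha.mem hb
    have hbω : Sub omega b := by
      rw [← hbo.not_mem_iff ord_omega]
      intro hbfin
      exact not_onto_of_fint (fint_of_mem_omega hbfin) hω hf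
    obtain ⟨g, hg⟩ := ih b hb hbω
    obtain ⟨h, hh⟩ := hf.prod hf
    have h1 := (onto_id a).sub (ha.1 b hb) (hbω _ empt_mem_omega)
    exact ⟨_, (h1.comp hg).comp hh⟩

/-- Gödel's pairing on an infinite cardinal. -/
theorem exists_pairing {k : M} (hk : Card k) (hω : Sub omega k) :
    ∃ r, IsFun r (prod k k) ∧ (∀ x, x ∈ prod k k → ap r x ∈ k) ∧
      ∀ x y, x ∈ prod k k → y ∈ prod k k → ap r x = ap r y → x = y :=
  godel_aux hk hω fun _ hb hb' => hessenberg (hk.1.mem hb) hb'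

end CF
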