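import Pool.Agent.Work.MP_cbc9f3_lc.Force

/-!
# The forcing relation for arbitrary formulas
-/

namespace CF

universe u

variable {M : Type u} [ZFM M]

theorem isOPair_iff {z a b : M} : IsOPair ZFM.E z a b ↔ z = opair a b := by
  constructor
  · rintro ⟨c, d, hc, hd, hz⟩
    have h1 : c = sing a := ext fun x => (hc x).trans mem_sing.symm
    have h2 : d = upair a b := ext fun x => (hd x).trans mem_upair.symm
    subst h1 h2
    exact ext fun x => (hz x).trans mem_upair.symm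
  · rintro rfl
    exact ⟨sing a, upair a b, fun x => mem_sing, fun x => mem_upair, fun x => mem_upair⟩

theorem app_iff {a b f : M} : App ZFM.E a b f ↔ opair a b ∈ f := by
  constructor
  · rintro ⟨z, hz, hf⟩
    rw [isOPair_iff] at hz
    subst hz
    exact hf
  · intro h
    exact ⟨_, isOPair_iff.2 rfl, h⟩

section
variable {P : M} {le : M → M → Prop} {Q : M → M → M → Prop}

/-- forcing over the model `M` -/
abbrev F (P : M) (le : M → M → Prop) (Q : M → M → M → Prop) (φ : Fml) (p : M) (v : ℕ → M) : Prop :=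
  Forces ZFM.E P le Q φ p v

theorem f_mem {i j : ℕ} {p : M} {v : ℕ → M} :
    F P le Q (.mem i j) p v ↔ FMem P le Q p (v i) (v j) := by
  unfold F Forces FMem
  simp only [app_iff]
  exact Iff.rfl

theorem f_eq {i j : ℕ} {p : M} {v : ℕ → M} : F P le Q (.eq i j) p v ↔ Q p (v i) (v j) := Iff.rfl

theorem f_neg {φ : Fml} {p : M} {v : ℕ → M} :
    F P le Q (.neg φ) p v ↔ ∀ q, q ∈ P → le q p → ¬ F P le Q φ q v := Iff.rfl

theorem f_and {φ ψ : Fml} {p : M} {v : ℕ → M} :
    F P le Q (.and φ ψ) p v ↔ F P le Q φ p v ∧ F P le Q ψ p v := Iff.rfl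

theorem f_all {φ : Fml} {p : M} {v : ℕ → M} :
    F P le Q (.all φ) p v ↔ ∀ x, F P le Q φ p (cons x v) := Iff.rfl

variable (h : Frc P le Q)

include h

theorem Frc.f_mono (φ : Fml) : ∀ {p q : M} {v : ℕ → M}, p ∈ P → q ∈ P → le q p →
    F P le Q φ p v → F P le Q φ q v := by
  induction φ with
  | mem i j =>
    intro p q v hp hq hqp hf
    rw [f_mem] at hf ⊢
    exact h.mem_mono hp hq hqp hf
  | eq i j => exact fun hp hq hqp hf => h.mono hp hq hqp hf
  | neg φ ih => exact fun hp hq hqp hf r hr hrq => hf r hr (h.trans _ _ _ hr hq hp hrq hqp)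
  | and φ ψ ih1 ih2 => exact fun hp hq hqp hf => ⟨ih1 hp hq hqp hf.1, ih2 hp hq hqp hf.2⟩
  | all φ ih => exact fun hp hq hqp hf x => ih hp hq hqp (hf x)

theorem Frc.f_reg (φ : Fml) : ∀ {p : M} {v : ℕ → M}, p ∈ P →
    (∀ q, q ∈ P → le q p → ∃ r, r ∈ P ∧ le r q ∧ F P le Q φ r v) → F P le Q φ p v := by
  induction φ with
  | mem i j =>
    intro p v hp hd
    rw [f_mem]
    refine h.mem_reg hp fun q hq hqp => ?_
    obtain ⟨r, hr, hrq, hf⟩ := hd q hq hqp
    exact ⟨r, hr, hrq, f_mem.1 hf⟩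
  | eq i j => exact fun hp hd => h.reg hp hd
  | neg φ ih =>
    intro p v hp hd q hq hqp hf
    obtain ⟨r, hr, hrq, hn⟩ := hd q hq hqp
    exact hn r hr (h.refl r hr) (h.f_mono φ hq hr hrq hf)
  | and φ ψ ih1 ih2 =>
    intro p v hp hd
    exact ⟨ih1 hp fun q hq hqp => (hd q hq hqp).imp fun r hr => ⟨hr.1, hr.2.1, hr.2.2.1⟩,
      ih2 hp fun q hq hqp => (hd q hq hqp).imp fun r hr => ⟨hr.1, hr.2.1, hr.2.2.2⟩⟩
  | all φ ih =>
    intro p v hp hd x
    exact ih hp fun q hq hqp => (hd q hq hqp).imp fun r hr => ⟨hr.1, hr.2.1, hr.2.2 x⟩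

theorem Frc.f_subst (φ : Fml) : ∀ {p : M} {v v' : ℕ → M}, p ∈ P → (∀ i, Q p (v i) (v' i)) →
    (F P le Q φ p v ↔ F P le Q φ p v') := by
  induction φ with
  | mem i j =>
    intro p v v' hp hv
    rw [f_mem, f_mem]
    constructor
    · intro hf
      exact h.mem_congr_left hp (hv i) (h.mem_congr_right hp (hv j) hf)
    · intro hf
      exact h.mem_congr_left hp (h.eq_symm _ _ p hp (hv i))
        (h.mem_congr_right hp (h.eq_symm _ _ p hp (hv j)) hf)
  | eq i j =>
    intro p v v' hp hv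
    rw [f_eq, f_eq]
    constructor
    · intro hf
      exact h.eq_trans _ _ _ p hp (h.eq_trans _ _ _ p hp (h.eq_symm _ _ p hp (hv i)) hf) (hv j)
    · intro hf
      exact h.eq_trans _ _ _ p hp (h.eq_trans _ _ _ p hp (hv i) hf) (h.eq_symm _ _ p hp (hv j))
  | neg φ ih =>
    intro p v v' hp hv
    rw [f_neg, f_neg]
    refine forall_congr' fun q => forall_congr' fun hq => forall_congr' fun hqp => not_congr ?_
    exact ih hq fun i => h.mono hp hq hqp (hv i)
  | and φ ψ ih1 ih2 => exact fun hp hv => and_congr (ih1 hp hv) (ih2 hp hv)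
  | all φ ih =>
    intro p v v' hp hv
    refine forall_congr' fun x => ih hp fun i => ?_
    cases i with
    | zero => exact h.eq_refl x p hp
    | succ i => exact hv i

theorem Frc.f_imp {φ ψ : Fml} {p : M} {v : ℕ → M} (hp : p ∈ P) :
    F P le Q (.imp φ ψ) p v ↔ ∀ q, q ∈ P → le q p → F P le Q φ q v → F P le Q ψ q v := by
  constructor
  · intro hf q hq hqp h1
    refine h.f_reg ψ hq fun q' hq' hqq' => ?_
    by_contra hcon
    push Not at hcon
    refine hf q' hq' (h.trans _ _ _ hq' hq hp hqq' hqp) ⟨h.f_mono φ hq hq' hqq' h1, ?_⟩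
    exact fun r hr hrq hψ => hcon r hr hrq hψ
  · rintro hf q hq hqp ⟨h1, h2⟩
    exact h2 q hq (h.refl q hq) (hf q hq hqp h1)

omit h in
theorem f_or {φ ψ : Fml} {p : M} {v : ℕ → M} :
    F P le Q (.or φ ψ) p v ↔ ∀ q, q ∈ P → le q p → ∃ r, r ∈ P ∧ le r q ∧
      (F P le Q φ r v ∨ F P le Q ψ r v) := by
  constructor
  · intro hf q hq hqp
    by_contra hcon
    push Not at hcon
    exact hf q hq hqp ⟨fun r hr hrq h1 => (hcon r hr hrq).1 h1,
      fun r hr hrq h2 => (hcon r hr hrq).2 h2⟩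
  · rintro hf q hq hqp ⟨h1, h2⟩
    obtain ⟨r, hr, hrq, h3 | h3⟩ := hf q hq hqp
    · exact h1 r hr hrq h3
    · exact h2 r hr hrq h3

omit h in
theorem f_ex {φ : Fml} {p : M} {v : ℕ → M} :
    F P le Q (.ex φ) p v ↔ ∀ q, q ∈ P → le q p → ∃ r x, r ∈ P ∧ le r q ∧
      F P le Q φ r (cons x v) := by
  constructor
  · intro hf q hq hqp
    by_contra hcon
    push Not at hcon
    exact hf q hq hqp fun x r hr hrq h1 => hcon r x hr hrq h1
  · rintro hf q hq hqp h1
    obtain ⟨r, x, hr, hrq, h3⟩ := hf q hq hqp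
    exact h1 x r hr hrq h3

theorem Frc.f_iff {φ ψ : Fml} {p : M} {v : ℕ → M} (hp : p ∈ P) :
    F P le Q (.iff φ ψ) p v ↔ ∀ q, q ∈ P → le q p → (F P le Q φ q v ↔ F P le Q ψ q v) := by
  unfold Fml.iff
  rw [f_and, h.f_imp hp, h.f_imp hp]
  constructor
  · rintro ⟨h1, h2⟩ q hq hqp
    exact ⟨h1 q hq hqp, h2 q hq hqp⟩
  · intro h1
    exact ⟨fun q hq hqp => (h1 q hq hqp).1, fun q hq hqp => (h1 q hq hqp).2⟩

/-- a bounded universal quantifier -/
theorem Frc.f_ball {φ : Fml} {i : ℕ} {p : M} {v : ℕ → M} (hp : p ∈ P) :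
    F P le Q (.all (.imp (.mem 0 (i + 1)) φ)) p v ↔ ∀ x q, q ∈ P → le q p →
      FMem P le Q q x (v i) → F P le Q φ q (cons x v) := by
  rw [f_all]
  refine forall_congr' fun x => ?_
  rw [h.f_imp hp]
  refine forall_congr' fun q => forall_congr' fun hq => forall_congr' fun hqp => ?_
  rw [f_mem]
  exact Iff.rfl

/-- a bounded universal quantifier over a name: it is enough to consider the names in it -/
theorem Frc.f_ball' {φ : Fml} {i : ℕ} {p : M} {v : ℕ → M} (hp : p ∈ P)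
    (hf : ∀ w t q, opair w t ∈ v i → t ∈ P → q ∈ P → le q p → le q t → F P le Q φ q (cons w v)) :
    F P le Q (.all (.imp (.mem 0 (i + 1)) φ)) p v := by
  rw [h.f_ball hp]
  intro x q hq hqp hm
  refine h.f_reg φ hq fun q' hq' hqq' => ?_
  obtain ⟨s, w, t, hs, hsq, hw, ht, hst, hS⟩ := hm q' hq' hqq'
  have hsp := h.trans _ _ _ hs hq' hp hsq (h.trans _ _ _ hq' hq hp hqq' hqp)
  refine ⟨s, hs, hsq, ?_⟩
  have h1 := hf w t s hw ht hs hsp hst
  refine (h.f_subst φ hs fun j => ?_).2 h1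
  cases j with
  | zero => exact hS
  | succ j => exact h.eq_refl _ s hs

end

end CF
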