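import Pool.Agent.Work.MP_cbc9f3_lc.Rec

/-!
# `ω`, transitive closures, `∈`-induction and `∈`-recursion
-/

namespace CF

universe u

variable {M : Type u} [ZFM M]

/-- `a` is transitive -/
def Trans (a : M) : Prop := ∀ x, x ∈ a → Sub x a

instance dfn_trans {s : (ℕ → M) → M} [hs : DT s] : Dfn (fun v => Trans (s v)) :=
  Dfn.comp1 (R := Trans) (by unfold Trans; infer_instance) hs

/-- membership is well-founded on every set -/
theorem wf_mem (W : M) : WF (fun x y => x ∈ y) W := by
  intro s _ hs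
  obtain ⟨x, hx, h⟩ := foundation hs
  exact ⟨x, hx, fun y hy hyx => h y hyx hy⟩

/-- `a` is inductive -/
def Inductive (a : M) : Prop := empt ∈ a ∧ ∀ x, x ∈ a → succ x ∈ a

instance dfn_inductive {s : (ℕ → M) → M} [hs : DT s] : Dfn (fun v => Inductive (s v)) :=
  Dfn.comp1 (R := Inductive) (by unfold Inductive; infer_instance) hs

theorem eq_empt {a : M} (h : ∀ x, ¬ x ∈ a) : a = empt :=
  ext fun x => ⟨fun hx => absurd hx (h x), fun hx => absurd hx (not_mem_empt x)⟩

theorem exists_inductive : ∃ c : M, Inductive c := by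
  obtain ⟨c, ⟨x, hx, hx0⟩, hc⟩ := (ZFM.zf (M := M)).infinity
  refine ⟨c, ?_, ?_⟩
  · have : x = empt := eq_empt hx0
    exact this ▸ hx
  · intro y hy
    obtain ⟨z, hz, hz'⟩ := hc y hy
    have : z = succ y := ext fun w => (hz' w).trans mem_succ.symm
    exact this ▸ hz

/-- the set of natural numbers of the model -/
noncomputable def omega : M :=
  sep (exists_inductive (M := M)).choose (fun x => ∀ I : M, Inductive I → x ∈ I)

theorem mem_omega {x : M} : x ∈ (omega : M) ↔ ∀ I : M, Inductive I → x ∈ I := by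
  unfold omega
  rw [mem_sep]
  exact ⟨fun h => h.2, fun h => ⟨h _ exists_inductive.choose_spec, h⟩⟩

theorem empt_mem_omega : (empt : M) ∈ (omega : M) := mem_omega.2 fun _ h => h.1

theorem succ_mem_omega {x : M} (h : x ∈ (omega : M)) : succ x ∈ (omega : M) :=
  mem_omega.2 fun I hI => hI.2 x (mem_omega.1 h I hI)

/-- Induction on the natural numbers of the model. -/
theorem omega_induction (R : M → Prop) [Dfn (fun v => R (v 0))] (h0 : R empt)
    (hs : ∀ n, n ∈ (omega : M) → R n → R (succ n)) : ∀ n, n ∈ (omega : M) → R n := by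
  intro n hn
  have : Inductive (sep omega R) :=
    ⟨mem_sep.2 ⟨empt_mem_omega, h0⟩, fun x hx => mem_sep.2 ⟨succ_mem_omega (mem_sep.1 hx).1,
      hs x (mem_sep.1 hx).1 (mem_sep.1 hx).2⟩⟩
  exact (mem_sep.1 (mem_omega.1 hn _ this)).2

theorem trans_omega : Trans (omega : M) := by
  refine omega_induction (fun n => Sub n omega) ?_ ?_
  · intro x hx
    exact absurd hx (not_mem_empt x)
  · intro n hn ih x hx
    rcases mem_succ.1 hx with hx | rfl
    · exact ih x hx
    · exact hn

theorem trans_of_mem_omega {n : M} (hn : n ∈ (omega : M)) : Trans n := by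
  refine omega_induction (fun n => Trans n) ?_ ?_ n hn
  · intro x hx
    exact absurd hx (not_mem_empt x)
  · intro n _ ih x hx y hy
    rcases mem_succ.1 hx with hx | rfl
    · exact mem_succ.2 (Or.inl (ih x hx y hy))
    · exact mem_succ.2 (Or.inl hy)

/-- every set is contained in a transitive set -/
theorem exists_trans (x : M) : ∃ T : M, Trans T ∧ Sub x T := by
  obtain ⟨f, hf, hrec⟩ := exists_rec (W := (omega : M)) (lt := fun a b => a ∈ b)
    (G := fun n g => un x (sUn (sUn (img n (fun m => ap g m))))) (wf_mem _)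
  have hval : ∀ n, n ∈ (omega : M) → ap f n = un x (sUn (sUn (img n (fun m => ap f m)))) := by
    intro n hn
    rw [hrec n hn]
    congr 3
    have hsep : sep omega (fun y => y ∈ n) = n :=
      ext fun z => mem_sep.trans ⟨fun h => h.2, fun h => ⟨trans_omega n hn z h, h⟩⟩
    rw [hsep]
    refine ext fun y => ?_
    rw [mem_img, mem_img]
    refine exists_congr fun z => and_congr_right fun hz => ?_
    rw [hf.ap_restr (trans_omega n hn) hz]
  refine ⟨sUn (img omega (fun n => ap f n)), ?_, ?_⟩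
  · intro y hy z hz
    obtain ⟨w, hw, hyw⟩ := mem_sUn.1 hy
    obtain ⟨n, hn, rfl⟩ := mem_img.1 hw
    refine mem_sUn.2 ⟨ap f (succ n), mem_img.2 ⟨succ n, succ_mem_omega hn, rfl⟩, ?_⟩
    rw [hval _ (succ_mem_omega hn)]
    refine mem_un.2 (Or.inr (mem_sUn.2 ⟨y, mem_sUn.2 ⟨ap f n, mem_img.2 ⟨n, ?_, rfl⟩, hyw⟩, hz⟩))
    exact mem_succ.2 (Or.inr rfl)
  · intro y hy
    refine mem_sUn.2 ⟨ap f empt, mem_img.2 ⟨empt, empt_mem_omega, rfl⟩, ?_⟩
    rw [hval _ empt_mem_omega]
    exact mem_un.2 (Or.inl hy)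

theorem exists_trans_mem (x : M) : ∃ T : M, Trans T ∧ x ∈ T := by
  obtain ⟨T, hT, hx⟩ := exists_trans (sing x)
  exact ⟨T, hT, hx x (mem_sing.2 rfl)⟩

/-- `∈`-induction for definable predicates. -/
theorem mem_induction (R : M → Prop) [Dfn (fun v => R (v 0))]
    (h : ∀ x, (∀ y, y ∈ x → R y) → R x) : ∀ x, R x := by
  intro x
  obtain ⟨T, hT, hx⟩ := exists_trans_mem x
  exact (wf_mem T).induction R (fun y hy ih => h y fun z hz => ih z (hT y hy z hz) hz) x hx

/-- `f` solves the recursion `f z = G z (f ↾ z)` on the transitive set `T`. -/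
def Solves (G : M → M → M) (f T : M) : Prop :=
  Trans T ∧ IsFun f T ∧ ∀ z, z ∈ T → ap f z = G z (restr f z)

/-- `∈`-recursion for definable class functions. -/
theorem exists_mem_rec (G : M → M → M) [hG : DT (fun v : ℕ → M => G (v 0) (v 1))] :
    ∃ F : M → M, DT (fun v => F (v 0)) ∧ ∀ x, F x = G x (lam x F) := by
  have h2 : ∀ (s t : (ℕ → M) → M) [DT s] [DT t], DT (fun v => G (s v) (t v)) :=
    fun s t hs ht => DT.comp2 hG hs ht
  have hS : ∀ (s t : (ℕ → M) → M) [DT s] [DT t], Dfn (fun v => Solves G (s v) (t v)) :=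
    fun s t hs ht => Dfn.comp2 (R := Solves G) (by unfold Solves; infer_instance) hs ht
  have hagree : ∀ f T f' T', Solves G f T → Solves G f' T' → ∀ x, x ∈ T → x ∈ T' →
      ap f x = ap f' x := by
    intro f T f' T' h h'
    refine mem_induction (fun x => x ∈ T → x ∈ T' → ap f x = ap f' x) ?_
    intro x ih hx hx'
    rw [h.2.2 x hx, h'.2.2 x hx']
    congr 1
    refine (h.2.1.restr (h.1 x hx)).ext (h'.2.1.restr (h'.1 x hx')) fun y hy => ?_
    rw [h.2.1.ap_restr (h.1 x hx) hy, h'.2.1.ap_restr (h'.1 x hx') hy]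
    exact ih y hy (h.1 x hx y hy) (h'.1 x hx' y hy)
  have hex : ∀ x : M, ∃ f T, Solves G f T ∧ x ∈ T := by
    intro x
    obtain ⟨T, hT, hx⟩ := exists_trans_mem x
    obtain ⟨f, hf, hrec⟩ := exists_rec (W := T) (lt := fun a b => a ∈ b) (G := G) (wf_mem _)
    refine ⟨f, T, ⟨hT, hf, fun z hz => ?_⟩, hx⟩
    rw [hrec z hz]
    congr 2
    exact ext fun w => mem_sep.trans ⟨fun h => h.2, fun h => ⟨hT z hz w h, h⟩⟩
  choose f T hfT hxT using hex
  let F : M → M := fun x => ap (f x) x
  have hFval : ∀ x g S, Solves G g S → x ∈ S → F x = ap g x := fun x g S hg hx =>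
    hagree _ _ _ _ (hfT x) hg x (hxT x) hx
  have hF : DT (fun v => F (v 0)) := by
    refine DT.of_graph (R := fun v y => ∃ g S, Solves G g S ∧ v 0 ∈ S ∧ y = ap g (v 0))
      inferInstance ?_
    intro v y
    constructor
    · rintro rfl
      exact ⟨_, _, hfT (v 0), hxT (v 0), rfl⟩
    · rintro ⟨g, S, hg, hv, rfl⟩
      exact (hFval (v 0) g S hg hv).symm
  refine ⟨F, hF, fun x => ?_⟩
  show ap (f x) x = _
  rw [(hfT x).2.2 x (hxT x)]
  congr 1
  have hs : Sub x (T x) := (hfT x).1 x (hxT x)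
  refine ((hfT x).2.1.restr hs).ext (isFun_lam x F) fun y hy => ?_
  rw [(hfT x).2.1.ap_restr hs hy, ap_lam hy]
  exact (hFval y _ _ (hfT x) (hs y hy)).symm

end CF
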