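import Pool.Agent.Work.MP_cbc9f3_lc.Sets

/-!
# Pairs, unions, power sets, functions in a model of ZF
-/

namespace CF

universe u

variable {M : Type u} [ZFM M]

/-! ### Operations -/

/-- unordered pair -/
noncomputable def upair (a b : M) : M := (ZFM.zf.pair a b).choose

@[simp] theorem mem_upair {a b x : M} : x ∈ upair a b ↔ x = a ∨ x = b :=
  (ZFM.zf.pair a b).choose_spec x

instance dt_upair {s t : (ℕ → M) → M} [hs : DT s] [ht : DT t] : DT (fun v => upair (s v) (t v)) := by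
  refine DT.comp2 (t := upair) ?_ hs ht
  refine DT.of_graph (R := fun v x => ∀ y, y ∈ x ↔ y = v 0 ∨ y = v 1) inferInstance ?_
  intro v x
  exact ⟨fun h => h ▸ fun y => mem_upair, fun h => ext fun y => (h y).trans mem_upair.symm⟩

/-- `{a}` -/
noncomputable def sing (a : M) : M := upair a a

@[simp] theorem mem_sing {a x : M} : x ∈ sing a ↔ x = a := by simp [sing]

instance dt_sing {s : (ℕ → M) → M} [hs : DT s] : DT (fun v => sing (s v)) :=
  dt_upair

/-- union of the elements of `a` -/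
noncomputable def sUn (a : M) : M := (ZFM.zf.union a).choose

@[simp] theorem mem_sUn {a x : M} : x ∈ sUn a ↔ ∃ y, y ∈ a ∧ x ∈ y :=
  (ZFM.zf.union a).choose_spec x

instance dt_sUn {s : (ℕ → M) → M} [hs : DT s] : DT (fun v => sUn (s v)) := by
  refine DT.comp1 (t := sUn) ?_ hs
  refine DT.of_graph (R := fun v x => ∀ y, y ∈ x ↔ ∃ z, z ∈ v 0 ∧ y ∈ z) inferInstance ?_
  intro v x
  exact ⟨fun h => h ▸ fun y => mem_sUn, fun h => ext fun y => (h y).trans mem_sUn.symm⟩

/-- `a` is a subset of `b` -/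
def Sub (a b : M) : Prop := ∀ x, x ∈ a → x ∈ b

instance dfn_sub {s t : (ℕ → M) → M} [hs : DT s] [ht : DT t] : Dfn (fun v => Sub (s v) (t v)) :=
  Dfn.comp2 (R := Sub) (by unfold Sub; infer_instance) hs ht

theorem Sub.refl (a : M) : Sub a a := fun _ h => h

theorem Sub.trans {a b c : M} (h1 : Sub a b) (h2 : Sub b c) : Sub a c := fun x h => h2 x (h1 x h)

theorem Sub.antisymm {a b : M} (h1 : Sub a b) (h2 : Sub b a) : a = b :=
  ext fun x => ⟨h1 x, h2 x⟩

/-- power set -/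
noncomputable def pow (a : M) : M := (ZFM.zf.power a).choose

@[simp] theorem mem_pow {a x : M} : x ∈ pow a ↔ Sub x a :=
  (ZFM.zf.power a).choose_spec x

instance dt_pow {s : (ℕ → M) → M} [hs : DT s] : DT (fun v => pow (s v)) := by
  refine DT.comp1 (t := pow) ?_ hs
  refine DT.of_graph (R := fun v x => ∀ y, y ∈ x ↔ Sub y (v 0)) inferInstance ?_
  intro v x
  exact ⟨fun h => h ▸ fun y => mem_pow, fun h => ext fun y => (h y).trans mem_pow.symm⟩

/-- `a ∪ b` -/
noncomputable def un (a b : M) : M := sUn (upair a b)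

@[simp] theorem mem_un {a b x : M} : x ∈ un a b ↔ x ∈ a ∨ x ∈ b := by
  simp only [un, mem_sUn, mem_upair]
  constructor
  · rintro ⟨y, rfl | rfl, h⟩
    · exact Or.inl h
    · exact Or.inr h
  · rintro (h | h)
    · exact ⟨a, Or.inl rfl, h⟩
    · exact ⟨b, Or.inr rfl, h⟩

instance dt_un {s t : (ℕ → M) → M} [hs : DT s] [ht : DT t] : DT (fun v => un (s v) (t v)) :=
  dt_sUn (s := fun v => upair (s v) (t v))

/-- `a ∪ {b}` -/
noncomputable def adj (a b : M) : M := un a (sing b)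

@[simp] theorem mem_adj {a b x : M} : x ∈ adj a b ↔ x ∈ a ∨ x = b := by simp [adj]

instance dt_adj {s t : (ℕ → M) → M} [hs : DT s] [ht : DT t] : DT (fun v => adj (s v) (t v)) :=
  dt_un (t := fun v => sing (t v))

/-- `a ∪ {a}` -/
noncomputable def succ (a : M) : M := adj a a

@[simp] theorem mem_succ {a x : M} : x ∈ succ a ↔ x ∈ a ∨ x = a := by simp [succ]

instance dt_succ {s : (ℕ → M) → M} [hs : DT s] : DT (fun v => succ (s v)) :=
  dt_adj

/-- ordered pair -/
noncomputable def opair (a b : M) : M := upair (sing a) (upair a b)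

instance dt_opair {s t : (ℕ → M) → M} [hs : DT s] [ht : DT t] : DT (fun v => opair (s v) (t v)) :=
  dt_upair (s := fun v => sing (s v)) (t := fun v => upair (s v) (t v))

theorem upair_eq_sing {a b c : M} (h : upair a b = sing c) : a = c ∧ b = c := by
  have h1 : a ∈ sing c := h ▸ mem_upair.2 (Or.inl rfl)
  have h2 : b ∈ sing c := h ▸ mem_upair.2 (Or.inr rfl)
  exact ⟨mem_sing.1 h1, mem_sing.1 h2⟩

theorem opair_inj {a b c d : M} : opair a b = opair c d ↔ a = c ∧ b = d := by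
  refine ⟨fun h => ?_, fun h => by rw [h.1, h.2]⟩
  have h1 : sing a ∈ opair c d := h ▸ mem_upair.2 (Or.inl rfl)
  have hac : a = c := by
    rcases mem_upair.1 h1 with h1 | h1
    · exact mem_sing.1 (h1 ▸ mem_sing.2 rfl : a ∈ sing c)
    · exact ((upair_eq_sing h1.symm).1).symm
  subst hac
  refine ⟨rfl, ?_⟩
  have h2 : upair a b ∈ opair a d := h ▸ mem_upair.2 (Or.inr rfl)
  have h3 : upair a d ∈ opair a b := h ▸ mem_upair.2 (Or.inr rfl)
  rcases mem_upair.1 h2 with h2 | h2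
  · have hb := (upair_eq_sing h2).2
    subst hb
    rcases mem_upair.1 h3 with h3 | h3
    · exact ((upair_eq_sing h3).2).symm
    · exact ((upair_eq_sing (h3.trans rfl)).2).symm
  · have hb : b ∈ upair a d := h2 ▸ mem_upair.2 (Or.inr rfl)
    have hd : d ∈ upair a b := h2 ▸ mem_upair.2 (Or.inr rfl)
    rcases mem_upair.1 hb with rfl | rfl
    · rcases mem_upair.1 hd with rfl | rfl <;> rfl
    · rfl

/-- cartesian product -/
noncomputable def prod (a b : M) : M := sUn (img a (fun x => img b (fun y => opair x y)))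

theorem mem_prod {a b z : M} : z ∈ prod a b ↔ ∃ x y, x ∈ a ∧ y ∈ b ∧ z = opair x y := by
  unfold prod
  simp only [mem_sUn, mem_img]
  constructor
  · rintro ⟨_, ⟨x, hx, rfl⟩, hz⟩
    obtain ⟨y, hy, rfl⟩ := mem_img.1 hz
    exact ⟨x, y, hx, hy, rfl⟩
  · rintro ⟨x, y, hx, hy, rfl⟩
    exact ⟨_, ⟨x, hx, rfl⟩, mem_img.2 ⟨y, hy, rfl⟩⟩

@[simp] theorem opair_mem_prod {a b x y : M} : opair x y ∈ prod a b ↔ x ∈ a ∧ y ∈ b := by
  rw [mem_prod]
  constructor
  · rintro ⟨x', y', hx, hy, h⟩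
    obtain ⟨rfl, rfl⟩ := opair_inj.1 h
    exact ⟨hx, hy⟩
  · rintro ⟨hx, hy⟩
    exact ⟨x, y, hx, hy, rfl⟩

instance dt_prod {s t : (ℕ → M) → M} [hs : DT s] [ht : DT t] : DT (fun v => prod (s v) (t v)) := by
  refine DT.comp2 (t := prod) ?_ hs ht
  unfold prod
  infer_instance

/-! ### Foundation -/

theorem foundation {a : M} (h : ∃ x, x ∈ a) : ∃ x, x ∈ a ∧ ∀ y, y ∈ x → ¬ y ∈ a :=
  ZFM.zf.found a h

theorem not_mem_self (a : M) : ¬ a ∈ a := by
  intro h
  obtain ⟨x, hx, hx'⟩ := foundation (a := sing a) ⟨a, mem_sing.2 rfl⟩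
  have := mem_sing.1 hx
  subst this
  exact hx' x h (mem_sing.2 rfl)

theorem not_mem_mem {a b : M} (h1 : a ∈ b) (h2 : b ∈ a) : False := by
  obtain ⟨x, hx, hx'⟩ := foundation (a := upair a b) ⟨a, mem_upair.2 (Or.inl rfl)⟩
  rcases mem_upair.1 hx with rfl | rfl
  · exact hx' b h2 (mem_upair.2 (Or.inr rfl))
  · exact hx' a h1 (mem_upair.2 (Or.inl rfl))

/-- Foundation for definable subclasses of a set. -/
theorem foundation_sep {a : M} {R : M → Prop} [Dfn (fun v => R (v 0))] (h : ∃ x, x ∈ a ∧ R x) :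
    ∃ x, (x ∈ a ∧ R x) ∧ ∀ y, y ∈ x → y ∈ a → ¬ R y := by
  obtain ⟨x, hx⟩ := h
  obtain ⟨y, hy, hy'⟩ := foundation (a := sep a R) ⟨x, mem_sep.2 hx⟩
  refine ⟨y, mem_sep.1 hy, fun z hz hza hR => hy' z hz (mem_sep.2 ⟨hza, hR⟩)⟩

/-! ### Functions -/

/-- `f` is a function with domain `a` (a set of ordered pairs). -/
def IsFun (f a : M) : Prop :=
  (∀ z, z ∈ f → ∃ x y, x ∈ a ∧ z = opair x y) ∧ ∀ x, x ∈ a → ∃ y, opair x y ∈ f ∧
    ∀ y', opair x y' ∈ f → y' = y

instance dfn_isFun {s t : (ℕ → M) → M} [hs : DT s] [ht : DT t] :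
    Dfn (fun v => IsFun (s v) (t v)) :=
  Dfn.comp2 (R := IsFun) (by unfold IsFun; infer_instance) hs ht

/-- the value of `f` at `x` -/
noncomputable def ap (f x : M) : M := sUn (sep (sUn (sUn f)) (fun y => opair x y ∈ f))

instance dt_ap {s t : (ℕ → M) → M} [hs : DT s] [ht : DT t] : DT (fun v => ap (s v) (t v)) := by
  refine DT.comp2 (t := ap) ?_ hs ht
  unfold ap
  infer_instance

theorem mem_sUn_sUn_of_opair {f x y : M} (h : opair x y ∈ f) : x ∈ sUn (sUn f) ∧ y ∈ sUn (sUn f) := by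
  have h1 : upair x y ∈ sUn f := mem_sUn.2 ⟨_, h, mem_upair.2 (Or.inr rfl)⟩
  exact ⟨mem_sUn.2 ⟨_, h1, mem_upair.2 (Or.inl rfl)⟩, mem_sUn.2 ⟨_, h1, mem_upair.2 (Or.inr rfl)⟩⟩

theorem ap_eq_of_unique {f x y : M} (h : opair x y ∈ f) (hu : ∀ y', opair x y' ∈ f → y' = y) :
    ap f x = y := by
  unfold ap
  apply ext
  intro z
  rw [mem_sUn]
  constructor
  · rintro ⟨w, hw, hz⟩
    have := hu w (mem_sep.1 hw).2
    subst this
    exact hz
  · intro hz
    exact ⟨y, mem_sep.2 ⟨(mem_sUn_sUn_of_opair h).2, h⟩, hz⟩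

theorem IsFun.ap_eq {f a x y : M} (hf : IsFun f a) (h : opair x y ∈ f) : ap f x = y := by
  obtain ⟨x', y', hx', e⟩ := hf.1 _ h
  obtain ⟨rfl, rfl⟩ := opair_inj.1 e
  obtain ⟨y'', _, hu⟩ := hf.2 x hx'
  refine ap_eq_of_unique h fun z hz => ?_
  rw [hu z hz, hu y h]

theorem IsFun.opair_ap {f a x : M} (hf : IsFun f a) (hx : x ∈ a) : opair x (ap f x) ∈ f := by
  obtain ⟨y, hy, _⟩ := hf.2 x hx
  rw [hf.ap_eq hy]
  exact hy

theorem IsFun.mem_iff {f a z : M} (hf : IsFun f a) : z ∈ f ↔ ∃ x, x ∈ a ∧ z = opair x (ap f x) := by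
  constructor
  · intro hz
    obtain ⟨x, y, hx, rfl⟩ := hf.1 z hz
    exact ⟨x, hx, by rw [hf.ap_eq hz]⟩
  · rintro ⟨x, hx, rfl⟩
    exact hf.opair_ap hx

theorem IsFun.opair_iff {f a x y : M} (hf : IsFun f a) : opair x y ∈ f ↔ x ∈ a ∧ y = ap f x := by
  rw [hf.mem_iff]
  constructor
  · rintro ⟨x', hx', e⟩
    obtain ⟨rfl, rfl⟩ := opair_inj.1 e
    exact ⟨hx', rfl⟩
  · rintro ⟨hx, rfl⟩
    exact ⟨x, hx, rfl⟩

theorem IsFun.ext {f g a : M} (hf : IsFun f a) (hg : IsFun g a) (h : ∀ x, x ∈ a → ap f x = ap g x) :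
    f = g := by
  apply CF.ext
  intro z
  rw [hf.mem_iff, hg.mem_iff]
  exact exists_congr fun x => and_congr_right fun hx => by rw [h x hx]

/-- the function `x ↦ t x` on the set `a` -/
noncomputable def lam (a : M) (t : M → M) : M := img a (fun x => opair x (t x))

instance dt_lam {s : (ℕ → M) → M} {t : (ℕ → M) → M → M} [hs : DT s]
    [h : DT (fun w => t (fun n => w (n + 1)) (w 0))] : DT (fun v => lam (s v) (t v)) := by
  have i : DT (fun w : ℕ → M => opair (w 0) (t (fun n => w (n + 1)) (w 0))) :=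
    dt_opair (s := fun w => w 0) (t := fun w => t (fun n => w (n + 1)) (w 0))
  exact dt_img (s := s) (t := fun v x => opair x (t v x)) (h := i)

theorem isFun_lam (a : M) (t : M → M) [DT (fun v => t (v 0))] : IsFun (lam a t) a := by
  unfold lam
  constructor
  · intro z hz
    obtain ⟨x, hx, rfl⟩ := mem_img.1 hz
    exact ⟨x, t x, hx, rfl⟩
  · intro x hx
    refine ⟨t x, mem_img.2 ⟨x, hx, rfl⟩, fun y' hy' => ?_⟩
    obtain ⟨x', _, e⟩ := mem_img.1 hy'
    obtain ⟨rfl, rfl⟩ := opair_inj.1 e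
    rfl

theorem ap_lam {a : M} {t : M → M} [DT (fun v => t (v 0))] {x : M} (hx : x ∈ a) :
    ap (lam a t) x = t x :=
  (isFun_lam a t).ap_eq (mem_img.2 ⟨x, hx, rfl⟩)

/-- restriction of the function `f` to `a` -/
noncomputable def restr (f a : M) : M := sep f (fun z => ∃ x y, x ∈ a ∧ z = opair x y)

instance dt_restr {s t : (ℕ → M) → M} [hs : DT s] [ht : DT t] : DT (fun v => restr (s v) (t v)) := by
  refine DT.comp2 (t := restr) ?_ hs ht
  unfold restr
  infer_instance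

theorem opair_mem_restr {f a x y : M} : opair x y ∈ restr f a ↔ opair x y ∈ f ∧ x ∈ a := by
  unfold restr
  rw [mem_sep]
  refine and_congr_right fun _ => ?_
  constructor
  · rintro ⟨x', y', hx', e⟩
    obtain ⟨rfl, rfl⟩ := opair_inj.1 e
    exact hx'
  · intro h
    exact ⟨x, y, h, rfl⟩

theorem IsFun.restr {f a b : M} (hf : IsFun f a) (hb : Sub b a) : IsFun (restr f b) b := by
  constructor
  · intro z hz
    obtain ⟨_, x, y, hx, rfl⟩ := mem_sep.1 hz
    exact ⟨x, y, hx, rfl⟩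
  · intro x hx
    obtain ⟨y, hy, hu⟩ := hf.2 x (hb x hx)
    exact ⟨y, opair_mem_restr.2 ⟨hy, hx⟩, fun y' hy' => hu y' (opair_mem_restr.1 hy').1⟩

theorem IsFun.ap_restr {f a b x : M} (hf : IsFun f a) (hb : Sub b a) (hx : x ∈ b) :
    ap (CF.restr f b) x = ap f x :=
  (hf.restr hb).ap_eq (opair_mem_restr.2 ⟨hf.opair_ap (hb x hx), hx⟩)

/-- domain of a set of ordered pairs -/
noncomputable def dom (f : M) : M := sep (sUn (sUn f)) (fun x => ∃ y, opair x y ∈ f)

instance dt_dom {s : (ℕ → M) → M} [hs : DT s] : DT (fun v => dom (s v)) := by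
  refine DT.comp1 (t := dom) ?_ hs
  unfold dom
  infer_instance

theorem mem_dom {f x : M} : x ∈ dom f ↔ ∃ y, opair x y ∈ f := by
  unfold dom
  rw [mem_sep]
  exact ⟨fun h => h.2, fun h => ⟨h.elim fun y hy => (mem_sUn_sUn_of_opair hy).1, h⟩⟩

/-- `f` is a function from `a` onto `b`. -/
def Onto (f a b : M) : Prop :=
  IsFun f a ∧ (∀ x, x ∈ a → ap f x ∈ b) ∧ ∀ y, y ∈ b → ∃ x, x ∈ a ∧ ap f x = y

instance dfn_onto {s t r : (ℕ → M) → M} [hs : DT s] [ht : DT t] [hr : DT r] :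
    Dfn (fun v => Onto (s v) (t v) (r v)) :=
  Dfn.comp3 (R := Onto) (by unfold Onto; infer_instance) hs ht hr

/-- A definable function which maps `a` onto `b` gives a function in the model. -/
theorem onto_lam {a b : M} (t : M → M) [DT (fun v => t (v 0))] (h1 : ∀ x, x ∈ a → t x ∈ b)
    (h2 : ∀ y, y ∈ b → ∃ x, x ∈ a ∧ t x = y) : Onto (lam a t) a b := by
  refine ⟨isFun_lam a t, fun x hx => by rw [ap_lam hx]; exact h1 x hx, fun y hy => ?_⟩
  obtain ⟨x, hx, rfl⟩ := h2 y hy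
  exact ⟨x, hx, ap_lam hx⟩

open Classical in
/-- definition by cases -/
noncomputable def cases (p : Prop) (a b : M) : M := if p then a else b

theorem cases_pos {p : Prop} {a b : M} (h : p) : cases p a b = a := if_pos h

theorem cases_neg {p : Prop} {a b : M} (h : ¬ p) : cases p a b = b := if_neg h

instance dt_cases {P : (ℕ → M) → Prop} {s t : (ℕ → M) → M} [h : Dfn P] [hs : DT s] [ht : DT t] :
    DT (fun v => cases (P v) (s v) (t v)) := by
  refine DT.of_graph (R := fun v x => (P v ∧ x = s v) ∨ (¬ P v ∧ x = t v)) ?_ ?_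
  · have h1 := h.ren (fun n => n + 1)
    have h2 := hs.ren (fun n => n + 1)
    have h3 := ht.ren (fun n => n + 1)
    exact dfn_or (P := fun w : ℕ → M => P (fun n => w (n + 1)) ∧ w 0 = s (fun n => w (n + 1)))
      (Q := fun w => ¬ P (fun n => w (n + 1)) ∧ w 0 = t (fun n => w (n + 1)))
  · intro v x
    by_cases hv : P v
    · simp [cases, hv]
    · simp [cases, hv]

end CF
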