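import Pool.Agent.Work.MP_cbc9f3_lc.Omega

/-!
# Ordinals in a model of ZF
-/

namespace CF

universe u

variable {M : Type u} [ZFM M]

/-- `a` is an ordinal -/
def Ord (a : M) : Prop := Trans a ∧ ∀ x, x ∈ a → Trans x

instance dfn_ord {s : (ℕ → M) → M} [hs : DT s] : Dfn (fun v => Ord (s v)) :=
  Dfn.comp1 (R := Ord) (by unfold Ord; infer_instance) hs

theorem Ord.mem {a x : M} (ha : Ord a) (hx : x ∈ a) : Ord x :=
  ⟨ha.2 x hx, fun y hy => ha.2 y (ha.1 x hx y hy)⟩

theorem Ord.trans {a : M} (ha : Ord a) {x y : M} (hx : x ∈ a) (hy : y ∈ x) : y ∈ a := ha.1 x hx y hy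

/-- Induction for definable predicates on the ordinals. -/
theorem ord_induction (R : M → Prop) [Dfn (fun v => R (v 0))]
    (h : ∀ a, Ord a → (∀ b, b ∈ a → R b) → R a) : ∀ a, Ord a → R a := by
  refine mem_induction (fun a => Ord a → R a) ?_
  intro a ih ha
  exact h a ha fun b hb => ih b hb (ha.mem hb)

theorem Ord.trichotomy {a b : M} (ha : Ord a) (hb : Ord b) : a ∈ b ∨ a = b ∨ b ∈ a := by
  have key : ∀ a : M, Ord a → ∀ b, Ord b → a ∈ b ∨ a = b ∨ b ∈ a := by
    refine ord_induction (fun a => ∀ b, Ord b → a ∈ b ∨ a = b ∨ b ∈ a) ?_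
    intro a ha ih1
    refine ord_induction (fun b => a ∈ b ∨ a = b ∨ b ∈ a) ?_
    intro b hb ih2
    by_contra hcon
    push Not at hcon
    obtain ⟨h1, h2, h3⟩ := hcon
    refine h2 (ext fun x => ⟨fun hx => ?_, fun hx => ?_⟩)
    · rcases ih1 x hx b hb with h | h | h
      · exact h
      · exact absurd (h ▸ hx) h3
      · exact absurd (ha.trans hx h) h3
    · rcases ih2 x hx with h | h | h
      · exact absurd (hb.trans hx h) h1
      · exact absurd (h ▸ hx) h1
      · exact h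
  exact key a ha b hb

theorem Ord.sub_iff {a b : M} (ha : Ord a) (hb : Ord b) : Sub a b ↔ a ∈ b ∨ a = b := by
  constructor
  · intro h
    rcases ha.trichotomy hb with h1 | h1 | h1
    · exact Or.inl h1
    · exact Or.inr h1
    · exact absurd (h b h1) (not_mem_self b)
  · rintro (h | rfl)
    · exact hb.1 a h
    · exact Sub.refl a

theorem Ord.not_mem_iff {a b : M} (ha : Ord a) (hb : Ord b) : ¬ a ∈ b ↔ Sub b a := by
  rw [hb.sub_iff ha]
  constructor
  · intro h
    rcases ha.trichotomy hb with h1 | h1 | h1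
    · exact absurd h1 h
    · exact Or.inr h1.symm
    · exact Or.inl h1
  · rintro (h | rfl) h'
    · exact not_mem_mem h h'
    · exact not_mem_self _ h'

theorem Ord.succ {a : M} (ha : Ord a) : Ord (succ a) := by
  constructor
  · intro x hx y hy
    rcases mem_succ.1 hx with hx | rfl
    · exact mem_succ.2 (Or.inl (ha.trans hx hy))
    · exact mem_succ.2 (Or.inl hy)
  · intro x hx
    rcases mem_succ.1 hx with hx | rfl
    · exact (ha.mem hx).1
    · exact ha.1

theorem ord_sUn {a : M} (h : ∀ x, x ∈ a → Ord x) : Ord (sUn a) := by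
  constructor
  · intro x hx y hy
    obtain ⟨z, hz, hxz⟩ := mem_sUn.1 hx
    exact mem_sUn.2 ⟨z, hz, (h z hz).trans hxz hy⟩
  · intro x hx
    obtain ⟨z, hz, hxz⟩ := mem_sUn.1 hx
    exact ((h z hz).mem hxz).1

theorem ord_empt : Ord (empt : M) :=
  ⟨fun x hx => absurd hx (not_mem_empt x), fun x hx => absurd hx (not_mem_empt x)⟩

theorem ord_omega : Ord (omega : M) := ⟨trans_omega, fun _ hx => trans_of_mem_omega hx⟩

/-- the least ordinal with a definable property -/
theorem exists_least (R : M → Prop) [Dfn (fun v => R (v 0))] {a : M} (ha : Ord a) (h : R a) :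
    ∃ b, Ord b ∧ R b ∧ ∀ c, c ∈ b → ¬ R c := by
  by_contra hcon
  push Not at hcon
  have : ∀ b : M, Ord b → ¬ R b := by
    refine ord_induction (fun b => ¬ R b) ?_
    intro b hb ih hR
    obtain ⟨c, hc, hRc⟩ := hcon b hb hR
    exact ih c hc hRc
  exact this a ha h

/-- the least element of an ordinal with a definable property -/
theorem exists_least_mem (R : M → Prop) [Dfn (fun v => R (v 0))] {d a : M} (hd : Ord d) (ha : a ∈ d)
    (h : R a) : ∃ b, b ∈ d ∧ R b ∧ ∀ c, c ∈ b → ¬ R c := by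
  obtain ⟨b, hb, hR, hmin⟩ := exists_least R (hd.mem ha) h
  refine ⟨b, ?_, hR, hmin⟩
  rcases hb.trichotomy (hd.mem ha) with h1 | h1 | h1
  · exact hd.trans ha h1
  · exact h1 ▸ ha
  · exact absurd h (hmin a h1)

/-- no set contains all ordinals; every set of ordinals is bounded -/
theorem exists_ord_bound {a : M} (h : ∀ x, x ∈ a → Ord x) :
    ∃ b : M, Ord b ∧ ∀ x, x ∈ a → x ∈ b := by
  refine ⟨CF.succ (sUn a), (ord_sUn h).succ, fun x hx => ?_⟩
  have hs : Sub x (sUn a) := fun y hy => mem_sUn.2 ⟨x, hx, hy⟩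
  rw [mem_succ]
  exact ((h x hx).sub_iff (ord_sUn h)).1 hs

theorem exists_ord_not_mem (a : M) : ∃ b : M, Ord b ∧ ¬ b ∈ a := by
  obtain ⟨b, hb, h⟩ := exists_ord_bound (a := sep a Ord) (fun x hx => (mem_sep.1 hx).2)
  exact ⟨b, hb, fun hba => not_mem_self b (h b (mem_sep.2 ⟨hba, hb⟩))⟩

theorem Ord.empt_mem {a : M} (ha : Ord a) (h : ∃ x, x ∈ a) : empt ∈ a := by
  obtain ⟨x, hx⟩ := h
  rcases ord_empt.trichotomy ha with h1 | h1 | h1
  · exact h1
  · exact absurd (h1 ▸ hx) (not_mem_empt x)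
  · exact absurd h1 (not_mem_empt a)

/-- every natural number is `0` or a successor -/
theorem omega_cases {n : M} (hn : n ∈ (omega : M)) : n = empt ∨ ∃ m, m ∈ (omega : M) ∧ n = CF.succ m := by
  refine omega_induction (fun n => n = empt ∨ ∃ m, m ∈ (omega : M) ∧ n = CF.succ m) (Or.inl rfl) ?_ n hn
  intro m hm _
  exact Or.inr ⟨m, hm, rfl⟩

theorem succ_inj {a b : M} (h : CF.succ a = CF.succ b) : a = b := by
  have h1 : a ∈ CF.succ b := h ▸ mem_succ.2 (Or.inr rfl)
  have h2 : b ∈ CF.succ a := h.symm ▸ mem_succ.2 (Or.inr rfl)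
  rcases mem_succ.1 h1 with h1 | h1
  · rcases mem_succ.1 h2 with h2 | h2
    · exact (not_mem_mem h1 h2).elim
    · exact h2.symm
  · exact h1

/-- `a` is a cardinal -/
def Card (a : M) : Prop := Ord a ∧ ∀ b, b ∈ a → ∀ f, ¬ Onto f b a

instance dfn_card {s : (ℕ → M) → M} [hs : DT s] : Dfn (fun v => Card (s v)) :=
  Dfn.comp1 (R := Card) (by unfold Card; infer_instance) hs

/-- composition of surjections -/
theorem Onto.comp {f g a b c : M} (hf : Onto f a b) (hg : Onto g b c) :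
    Onto (lam a (fun x => ap g (ap f x))) a c := by
  refine onto_lam (fun x => ap g (ap f x)) (fun x hx => hg.2.1 _ (hf.2.1 x hx)) ?_
  intro z hz
  obtain ⟨y, hy, rfl⟩ := hg.2.2 z hz
  obtain ⟨x, hx, rfl⟩ := hf.2.2 y hy
  exact ⟨x, hx, rfl⟩

/-- a nonempty subset of an image is an image -/
theorem Onto.sub {f a b c : M} (hf : Onto f a b) (hc : Sub c b) {x0 : M} (hx0 : x0 ∈ c) :
    Onto (lam a (fun x => cases (ap f x ∈ c) (ap f x) x0)) a c := by
  refine onto_lam (fun x => cases (ap f x ∈ c) (ap f x) x0) (fun x hx => ?_) ?_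
  · by_cases h : ap f x ∈ c
    · rw [cases_pos h]; exact h
    · rw [cases_neg h]; exact hx0
  · intro z hz
    obtain ⟨x, hx, rfl⟩ := hf.2.2 z (hc z hz)
    exact ⟨x, hx, cases_pos hz⟩

/-- surjections between products -/
theorem Onto.prod {f g a b c d : M} (hf : Onto f a b) (hg : Onto g c d) :
    ∃ h, Onto h (CF.prod a c) (CF.prod b d) := by
  obtain ⟨h, hh⟩ := exists_repl (CF.prod a c) (fun z w => ∃ x y, x ∈ a ∧ y ∈ c ∧ z = opair x y ∧
    w = opair z (opair (ap f x) (ap g y))) (by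
      intro z hz
      obtain ⟨x, y, hx, hy, rfl⟩ := mem_prod.1 hz
      refine ⟨_, ⟨x, y, hx, hy, rfl, rfl⟩, ?_⟩
      rintro w ⟨x', y', _, _, e, rfl⟩
      obtain ⟨rfl, rfl⟩ := opair_inj.1 e
      rfl)
  have hval : ∀ x y, x ∈ a → y ∈ c → ∀ w, opair (opair x y) w ∈ h ↔
      w = opair (ap f x) (ap g y) := by
    intro x y hx hy w
    rw [hh]
    constructor
    · rintro ⟨z, _, x', y', _, _, rfl, e⟩
      obtain ⟨e1, e2⟩ := opair_inj.1 e
      obtain ⟨rfl, rfl⟩ := opair_inj.1 e1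
      exact e2
    · rintro rfl
      exact ⟨opair x y, opair_mem_prod.2 ⟨hx, hy⟩, x, y, hx, hy, rfl, rfl⟩
  have hfun : IsFun h (CF.prod a c) := by
    constructor
    · intro z hz
      obtain ⟨p, hp, x, y, hx, hy, rfl, rfl⟩ := (hh z).1 hz
      exact ⟨_, _, hp, rfl⟩
    · intro z hz
      obtain ⟨x, y, hx, hy, rfl⟩ := mem_prod.1 hz
      exact ⟨_, (hval x y hx hy _).2 rfl, fun w hw => (hval x y hx hy w).1 hw⟩
  have hap : ∀ x y, x ∈ a → y ∈ c → ap h (opair x y) = opair (ap f x) (ap g y) :=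
    fun x y hx hy => hfun.ap_eq ((hval x y hx hy _).2 rfl)
  refine ⟨h, hfun, ?_, ?_⟩
  · intro z hz
    obtain ⟨x, y, hx, hy, rfl⟩ := mem_prod.1 hz
    rw [hap x y hx hy, opair_mem_prod]
    exact ⟨hf.2.1 x hx, hg.2.1 y hy⟩
  · intro z hz
    obtain ⟨x, y, hx, hy, rfl⟩ := mem_prod.1 hz
    obtain ⟨x', hx', rfl⟩ := hf.2.2 x hx
    obtain ⟨y', hy', rfl⟩ := hg.2.2 y hy
    exact ⟨opair x' y', opair_mem_prod.2 ⟨hx', hy'⟩, hap x' y' hx' hy'⟩

/-- the identity -/
theorem onto_id (a : M) : Onto (lam a (fun x => x)) a a :=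
  onto_lam (fun x => x) (fun _ h => h) (fun y hy => ⟨y, hy, rfl⟩)

end CF
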