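import Pool.Agent.Work.MP_cbc9f3_lc.Ops

/-!
# Recursion along a definable well-founded relation on a set
-/

namespace CF

universe u

variable {M : Type u} [ZFM M]

/-- `lt` is well-founded on the set `W` (every nonempty subset in the model has a minimal
element) -/
def WF (lt : M → M → Prop) (W : M) : Prop :=
  ∀ s : M, Sub s W → (∃ x, x ∈ s) → ∃ x, x ∈ s ∧ ∀ y, y ∈ s → ¬ lt y x

/-- Induction for definable predicates along a well-founded relation on a set. -/
theorem WF.induction {lt : M → M → Prop} {W : M} (hW : WF lt W) (R : M → Prop)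
    [Dfn (fun v => R (v 0))] (h : ∀ x, x ∈ W → (∀ y, y ∈ W → lt y x → R y) → R x) :
    ∀ x, x ∈ W → R x := by
  intro x hx
  by_contra hR
  have : Dfn (fun v : ℕ → M => ¬ R (v 0)) := inferInstance
  obtain ⟨m, hm, hmin⟩ := hW (sep W (fun x => ¬ R x)) (fun z hz => (mem_sep.1 hz).1)
    ⟨x, mem_sep.2 ⟨hx, hR⟩⟩
  refine (mem_sep.1 hm).2 (h m (mem_sep.1 hm).1 fun y hy hlt => ?_)
  by_contra hRy
  exact hmin y (mem_sep.2 ⟨hy, hRy⟩) hlt

section
variable (W : M) (lt : M → M → Prop) (G : M → M → M)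
  [hlt : Dfn (fun v : ℕ → M => lt (v 0) (v 1))] [hG : DT (fun v : ℕ → M => G (v 0) (v 1))]

/-- An attempt: a solution of the recursion on a downward closed subset `d` of `W`. -/
def Attempt (f d : M) : Prop :=
  Sub d W ∧ (∀ x, x ∈ d → ∀ y, y ∈ W → lt y x → y ∈ d) ∧ IsFun f d ∧
    ∀ x, x ∈ d → ap f x = G x (restr f (sep W (fun y => lt y x)))

include hlt hG in
theorem dfn_attempt : Dfn (fun v => Attempt W lt G (v 0) (v 1)) := by
  have h1 : ∀ (s t : (ℕ → M) → M) [DT s] [DT t], Dfn (fun v => lt (s v) (t v)) :=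
    fun s t hs ht => Dfn.comp2 hlt hs ht
  have h2 : ∀ (s t : (ℕ → M) → M) [DT s] [DT t], DT (fun v => G (s v) (t v)) :=
    fun s t hs ht => DT.comp2 hG hs ht
  unfold Attempt
  infer_instance

variable {W lt G}

include hlt in
omit hG in
theorem Attempt.agree (hW : WF lt W) {f d f' d' : M} (h : Attempt W lt G f d)
    (h' : Attempt W lt G f' d') : ∀ x, x ∈ W → x ∈ d → x ∈ d' → ap f x = ap f' x := by
  have h1 : ∀ (s t : (ℕ → M) → M) [DT s] [DT t], Dfn (fun v => lt (s v) (t v)) :=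
    fun s t hs ht => Dfn.comp2 hlt hs ht
  refine hW.induction (fun x => x ∈ d → x ∈ d' → ap f x = ap f' x) ?_
  intro x hxW ih hx hx'
  rw [h.2.2.2 x hx, h'.2.2.2 x hx']
  congr 1
  have hs : Sub (sep W (fun y => lt y x)) d := fun y hy =>
    h.2.1 x hx y (mem_sep.1 hy).1 (mem_sep.1 hy).2
  have hs' : Sub (sep W (fun y => lt y x)) d' := fun y hy =>
    h'.2.1 x hx' y (mem_sep.1 hy).1 (mem_sep.1 hy).2
  refine (h.2.2.1.restr hs).ext (h'.2.2.1.restr hs') fun y hy => ?_
  rw [h.2.2.1.ap_restr hs hy, h'.2.2.1.ap_restr hs' hy]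
  exact ih y (mem_sep.1 hy).1 (mem_sep.1 hy).2 (hs y hy) (hs' y hy)

include hlt hG in
/-- The recursion theorem on a set. -/
theorem exists_rec (hW : WF lt W) :
    ∃ f, IsFun f W ∧ ∀ x, x ∈ W → ap f x = G x (restr f (sep W (fun y => lt y x))) := by
  have h1 : ∀ (s t : (ℕ → M) → M) [DT s] [DT t], Dfn (fun v => lt (s v) (t v)) :=
    fun s t hs ht => Dfn.comp2 hlt hs ht
  have h2 : ∀ (s t : (ℕ → M) → M) [DT s] [DT t], DT (fun v => G (s v) (t v)) :=
    fun s t hs ht => DT.comp2 hG hs ht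
  have hA : Dfn (fun v => Attempt W lt G (v 0) (v 1)) := dfn_attempt W lt G
  have hA' : ∀ (s t : (ℕ → M) → M) [DT s] [DT t], Dfn (fun v => Attempt W lt G (s v) (t v)) :=
    fun s t _ _ => Dfn.comp2 hA inferInstance inferInstance
  -- the set of points at which an attempt is defined
  let D : M := sep W (fun x => ∃ f d, Attempt W lt G f d ∧ x ∈ d)
  have hD : ∀ x, x ∈ D ↔ x ∈ W ∧ ∃ f d, Attempt W lt G f d ∧ x ∈ d := fun x => mem_sep
  obtain ⟨F, hF⟩ := exists_repl D (fun x z => ∃ f d, Attempt W lt G f d ∧ x ∈ d ∧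
    z = opair x (ap f x)) (by
      intro x hx
      obtain ⟨hxW, f, d, hf, hxd⟩ := (hD x).1 hx
      refine ⟨opair x (ap f x), ⟨f, d, hf, hxd, rfl⟩, ?_⟩
      rintro z ⟨f', d', hf', hxd', rfl⟩
      rw [Attempt.agree hW hf' hf x hxW hxd' hxd])
  have hFap : ∀ x y, opair x y ∈ F ↔ ∃ f d, Attempt W lt G f d ∧ x ∈ d ∧ y = ap f x := by
    intro x y
    rw [hF]
    constructor
    · rintro ⟨x', _, f, d, hf, hxd, e⟩
      obtain ⟨rfl, rfl⟩ := opair_inj.1 e
      exact ⟨f, d, hf, hxd, rfl⟩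
    · rintro ⟨f, d, hf, hxd, rfl⟩
      exact ⟨x, (hD x).2 ⟨hf.1 x hxd, f, d, hf, hxd⟩, f, d, hf, hxd, rfl⟩
  have hFfun : IsFun F D := by
    constructor
    · intro z hz
      obtain ⟨x, hx, f, d, _, _, rfl⟩ := (hF z).1 hz
      exact ⟨x, _, hx, rfl⟩
    · intro x hx
      obtain ⟨hxW, f, d, hf, hxd⟩ := (hD x).1 hx
      refine ⟨ap f x, (hFap x _).2 ⟨f, d, hf, hxd, rfl⟩, fun y' hy' => ?_⟩
      obtain ⟨f', d', hf', hxd', rfl⟩ := (hFap x y').1 hy'
      exact Attempt.agree hW hf' hf x hxW hxd' hxd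
  have hFa : ∀ x f d, Attempt W lt G f d → x ∈ d → ap F x = ap f x := fun x f d hf hxd =>
    hFfun.ap_eq ((hFap x _).2 ⟨f, d, hf, hxd, rfl⟩)
  have hDdown : ∀ x, x ∈ D → ∀ y, y ∈ W → lt y x → y ∈ D := by
    intro x hx y hy hyx
    obtain ⟨hxW, f, d, hf, hxd⟩ := (hD x).1 hx
    exact (hD y).2 ⟨hy, f, d, hf, hf.2.1 x hxd y hy hyx⟩
  have hFA : Attempt W lt G F D := by
    refine ⟨fun x hx => ((hD x).1 hx).1, hDdown, hFfun, ?_⟩
    intro x hx
    obtain ⟨hxW, f, d, hf, hxd⟩ := (hD x).1 hx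
    rw [hFa x f d hf hxd, hf.2.2.2 x hxd]
    congr 1
    have hs : Sub (sep W (fun y => lt y x)) d := fun y hy =>
      hf.2.1 x hxd y (mem_sep.1 hy).1 (mem_sep.1 hy).2
    have hs' : Sub (sep W (fun y => lt y x)) D := fun y hy =>
      hDdown x hx y (mem_sep.1 hy).1 (mem_sep.1 hy).2
    refine (hf.2.2.1.restr hs).ext (hFfun.restr hs') fun y hy => ?_
    rw [hf.2.2.1.ap_restr hs hy, hFfun.ap_restr hs' hy, hFa y f d hf (hs y hy)]
  -- every point belongs to `D`
  have hall : ∀ x, x ∈ W → x ∈ D := by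
    refine hW.induction (fun x => x ∈ D) ?_
    intro x hx ih
    by_contra hxD
    -- extend `F`
    let g : M := adj F (opair x (G x (restr F (sep W (fun y => lt y x)))))
    have hgo : ∀ a b, opair a b ∈ g ↔ opair a b ∈ F ∨
        (a = x ∧ b = G x (restr F (sep W (fun y => lt y x)))) := by
      intro a b
      show opair a b ∈ adj F _ ↔ _
      rw [mem_adj, opair_inj]
    have hgfun : IsFun g (adj D x) := by
      constructor
      · intro z hz
        rcases mem_adj.1 hz with hz | rfl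
        · obtain ⟨a, b, ha, rfl⟩ := hFfun.1 z hz
          exact ⟨a, b, mem_adj.2 (Or.inl ha), rfl⟩
        · exact ⟨x, _, mem_adj.2 (Or.inr rfl), rfl⟩
      · intro a ha
        rcases mem_adj.1 ha with ha | rfl
        · obtain ⟨b, hb, hu⟩ := hFfun.2 a ha
          refine ⟨b, (hgo a b).2 (Or.inl hb), fun b' hb' => ?_⟩
          rcases (hgo a b').1 hb' with hb' | ⟨h0, _⟩
          · exact hu b' hb'
          · exact absurd (h0 ▸ ha) hxD
        · refine ⟨_, (hgo a _).2 (Or.inr ⟨rfl, rfl⟩), fun b' hb' => ?_⟩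
          rcases (hgo a b').1 hb' with hb' | ⟨_, h⟩
          · obtain ⟨a', b'', ha', e⟩ := hFfun.1 _ hb'
            obtain ⟨rfl, rfl⟩ := opair_inj.1 e
            exact absurd ha' hxD
          · exact h
    have hgF : ∀ a, a ∈ D → ap g a = ap F a := fun a ha =>
      hgfun.ap_eq ((hgo a _).2 (Or.inl (hFfun.opair_ap ha)))
    have hgx : ap g x = G x (restr F (sep W (fun y => lt y x))) :=
      hgfun.ap_eq ((hgo x _).2 (Or.inr ⟨rfl, rfl⟩))
    have hirr : ¬ lt x x := by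
      intro hxx
      obtain ⟨m, hm, hmin⟩ := hW (sing x) (fun z hz => mem_sing.1 hz ▸ hx) ⟨x, mem_sing.2 rfl⟩
      have := mem_sing.1 hm
      subst this
      exact hmin m hm hxx
    have hpred : ∀ a, a ∈ adj D x → Sub (sep W (fun y => lt y a)) D := by
      intro a ha y hy
      rcases mem_adj.1 ha with ha | rfl
      · exact hDdown a ha y (mem_sep.1 hy).1 (mem_sep.1 hy).2
      · exact ih y (mem_sep.1 hy).1 (mem_sep.1 hy).2
    have hDs : Sub D (adj D x) := fun y hy => mem_adj.2 (Or.inl hy)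
    have hres : ∀ a, a ∈ adj D x → restr g (sep W (fun y => lt y a)) =
        restr F (sep W (fun y => lt y a)) := by
      intro a ha
      refine (hgfun.restr ((hpred a ha).trans hDs)).ext (hFfun.restr (hpred a ha)) fun y hy => ?_
      rw [hgfun.ap_restr ((hpred a ha).trans hDs) hy, hFfun.ap_restr (hpred a ha) hy,
        hgF y (hpred a ha y hy)]
    have hgA : Attempt W lt G g (adj D x) := by
      refine ⟨?_, ?_, hgfun, ?_⟩
      · intro y hy
        rcases mem_adj.1 hy with hy | rfl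
        · exact ((hD y).1 hy).1
        · exact hx
      · intro a ha y hy hlt'
        exact mem_adj.2 (Or.inl (hpred a ha y (mem_sep.2 ⟨hy, hlt'⟩)))
      · intro a ha
        rw [hres a ha]
        rcases mem_adj.1 ha with ha | rfl
        · rw [hgF a ha, hFA.2.2.2 a ha]
        · exact hgx
    exact hxD ((hD x).2 ⟨hx, g, _, hgA, mem_adj.2 (Or.inr rfl)⟩)
  have hDW : D = W := Sub.antisymm (fun x hx => ((hD x).1 hx).1) hall
  exact ⟨F, hDW ▸ hFfun, fun x hx => hFA.2.2.2 x (hall x hx)⟩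

end

end CF
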