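import Pool.Agent.Work.MP_cbc9f3_lc.Base

/-!
# Basic set operations in a model of ZF

Every operation comes with its membership lemma and its definability instance.
-/

namespace CF

universe u

variable {M : Type u} [ZFM M]

theorem ext {a b : M} (h : ∀ x, x ∈ a ↔ x ∈ b) : a = b := ZFM.zf.ext a b h

/-! ### Separation and replacement -/

theorem exists_sep (a : M) (R : M → Prop) [h : Dfn (fun v => R (v 0))] :
    ∃ c : M, ∀ x, x ∈ c ↔ x ∈ a ∧ R x := by
  obtain ⟨φ, c, hφ⟩ := h.out
  obtain ⟨d, hd⟩ := (ZFM.zf (M := M)).sep (φ.ren (fun n => if n = 0 then 0 else n + 1))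
    (mix (fun _ => a) c) a
  refine ⟨d, fun x => ?_⟩
  have h1 := hd x
  have h2 := hφ (cons x (fun _ => a))
  rw [sat_ren] at h1
  refine h1.trans (and_congr_right fun _ => ?_)
  refine Iff.trans (iff_of_eq (congrArg _ ?_)) h2.symm
  funext n
  match n with
  | 0 => simp [mix, cons]
  | n + 1 =>
    by_cases hn : (n + 1) % 2 = 0
    · obtain ⟨k, hk⟩ : ∃ k, n + 1 = 2 * k + 2 := ⟨(n + 1) / 2 - 1, by omega⟩
      rw [hk]
      have e1 : (2 * k + 2) % 2 = 0 := by omega
      have e2 : (2 * k + 2) / 2 = k + 1 := by omega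
      simp [mix, e2, cons]
    · obtain ⟨k, hk⟩ : ∃ k, n + 1 = 2 * k + 1 := ⟨n / 2, by omega⟩
      rw [hk]
      have e1 : (2 * k + 1) % 2 = 1 := by omega
      have e2 : (2 * k + 1) / 2 = k := by omega
      simp [mix, e1, e2, cons]

open Classical in
/-- the empty set -/
noncomputable def empt : M :=
  (exists_sep (ZFM.zf (M := M)).nonempty.some (fun _ => False)).choose

@[simp] theorem not_mem_empt (x : M) : ¬ x ∈ (empt : M) := fun h =>
  (((exists_sep (ZFM.zf (M := M)).nonempty.some (fun _ => False)).choose_spec x).1 h).2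

open Classical in
/-- `{x ∈ a | R x}` -/
noncomputable def sep (a : M) (R : M → Prop) : M :=
  if h : ∃ c : M, ∀ x, x ∈ c ↔ x ∈ a ∧ R x then h.choose else empt

theorem mem_sep {a : M} {R : M → Prop} [Dfn (fun v => R (v 0))] {x : M} :
    x ∈ sep a R ↔ x ∈ a ∧ R x := by
  have h := exists_sep a R
  unfold sep
  rw [dif_pos h]
  exact h.choose_spec x

theorem mem_sep' {a : M} {R : M → Prop} (h : Dfn (fun v => R (v 0))) {x : M} :
    x ∈ sep a R ↔ x ∈ a ∧ R x := mem_sep

theorem exists_img (a : M) (t : M → M) [h : DT (fun v => t (v 0))] :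
    ∃ c : M, ∀ y, y ∈ c ↔ ∃ x, x ∈ a ∧ y = t x := by
  -- the graph of `t`
  obtain ⟨φ, c, hφ⟩ := h.out.out
  -- `hφ : w 0 = t (w 1) ↔ Sat φ (mix w c)`
  have key : ∀ x y : M, y = t x ↔ Sat ZFM.E (φ.ren (fun n => if n = 0 then 1
      else if n = 2 then 0 else n + 2)) (cons x (cons y (mix (fun _ => a) c))) := by
    intro x y
    have h2 := hφ (cons y (cons x (fun _ => a)))
    rw [sat_ren]
    refine Iff.trans ?_ (h2.trans (iff_of_eq (congrArg _ ?_)))
    · exact Iff.rfl
    · funext n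
      match n with
      | 0 => simp [mix, cons]
      | 1 => simp [mix, cons]
      | 2 => simp [mix, cons]
      | n + 3 =>
        by_cases hn : (n + 3) % 2 = 0
        · obtain ⟨k, hk⟩ : ∃ k, n + 3 = 2 * k + 4 := ⟨(n + 3) / 2 - 2, by omega⟩
          rw [hk]
          have e1 : (2 * k + 4) % 2 = 0 := by omega
          have e2 : (2 * k + 4) / 2 = k + 2 := by omega
          simp [mix, e2, cons]
        · obtain ⟨k, hk⟩ : ∃ k, n + 3 = 2 * k + 3 := ⟨(n + 3) / 2 - 1, by omega⟩
          rw [hk]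
          have e1 : (2 * k + 3) % 2 = 1 := by omega
          have e2 : (2 * k + 3) / 2 = k + 1 := by omega
          simp [mix, e1, e2, cons]
  obtain ⟨d, hd⟩ := (ZFM.zf (M := M)).repl (φ.ren (fun n => if n = 0 then 1
      else if n = 2 then 0 else n + 2)) (mix (fun _ => a) c) a
    (fun x _ => ⟨t x, (key x _).1 rfl, fun y hy => (key x y).2 hy⟩)
  refine ⟨d, fun y => ?_⟩
  refine (hd y).trans (exists_congr fun x => and_congr_right fun _ => (key x y).symm)

open Classical in
/-- `{t x | x ∈ a}` -/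
noncomputable def img (a : M) (t : M → M) : M :=
  if h : ∃ c : M, ∀ y, y ∈ c ↔ ∃ x, x ∈ a ∧ y = t x then h.choose else empt

theorem mem_img {a : M} {t : M → M} [DT (fun v => t (v 0))] {y : M} :
    y ∈ img a t ↔ ∃ x, x ∈ a ∧ y = t x := by
  have h := exists_img a t
  unfold img
  rw [dif_pos h]
  exact h.choose_spec y

theorem mem_img_of_mem {a : M} {t : M → M} [DT (fun v => t (v 0))] {x : M} (hx : x ∈ a) :
    t x ∈ img a t := mem_img.2 ⟨x, hx, rfl⟩

/-- Replacement for a functional definable relation. -/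
theorem exists_repl (a : M) (R : M → M → Prop) [h : Dfn (fun v => R (v 0) (v 1))]
    (hR : ∀ x, x ∈ a → ∃! y, R x y) : ∃ c : M, ∀ y, y ∈ c ↔ ∃ x, x ∈ a ∧ R x y := by
  classical
  -- extend `R` to a total function
  let t : M → M := fun x => if hx : ∃! y, R x y then hx.choose else empt
  have ht : DT (fun v => t (v 0)) := by
    have h1 : Dfn (fun v : ℕ → M => R (v 0) (v 1)) := h
    have e : Dfn (fun w : ℕ → M => (∃ y, R (w 1) y ∧ ∀ y', R (w 1) y' → y' = y) ∧ R (w 1) (w 0) ∨
        ¬ (∃ y, R (w 1) y ∧ ∀ y', R (w 1) y' → y' = y) ∧ w 0 = empt) := by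
      have i1 : Dfn (fun w : ℕ → M => R (w 2) (w 1)) := h1.ren (fun n => if n = 0 then 2 else 1)
      have i2 : Dfn (fun w : ℕ → M => R (w 3) (w 0)) := h1.ren (fun n => if n = 0 then 3 else 0)
      have i3 : Dfn (fun w : ℕ → M => R (w 2) (w 0)) := h1.ren (fun n => if n = 0 then 2 else 0)
      have i4 : Dfn (fun w : ℕ → M => R (w 1) (w 0)) := h1.ren (fun n => if n = 0 then 1 else 0)
      have j1 : Dfn (fun w : ℕ → M => ∃ y, R (w 1) y ∧ ∀ y', R (w 1) y' → y' = y) := by
        refine dfn_ex (R := fun w y => R (w 1) y ∧ ∀ y', R (w 1) y' → y' = y) (h := ?_)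
        refine dfn_and (h1 := i3) (h2 := ?_)
        refine dfn_all (R := fun w y' => R (w 2) y' → y' = w 0) (h := ?_)
        have := i2
        exact dfn_imp (P := fun w : ℕ → M => R (w 3) (w 0)) (Q := fun w => w 0 = w 1)
      exact dfn_or (P := fun w : ℕ → M => (∃ y, R (w 1) y ∧ ∀ y', R (w 1) y' → y' = y) ∧
        R (w 1) (w 0))
    refine ⟨e.congr fun w => ?_⟩
    have hiff : (∃ y, R (w 1) y ∧ ∀ y', R (w 1) y' → y' = y) ↔ ∃! y, R (w 1) y := Iff.rfl
    show w 0 = t (w 1) ↔ _
    rw [hiff]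
    by_cases hx : ∃! y, R (w 1) y
    · have : t (w 1) = hx.choose := dif_pos hx
      rw [this]
      constructor
      · intro h0
        exact Or.inl ⟨hx, h0 ▸ hx.choose_spec.1⟩
      · rintro (⟨_, h0⟩ | ⟨h0, _⟩)
        · exact hx.choose_spec.2 _ h0
        · exact absurd hx h0
    · have : t (w 1) = empt := dif_neg hx
      rw [this]
      constructor
      · intro h0
        exact Or.inr ⟨hx, h0⟩
      · rintro (⟨h0, _⟩ | ⟨_, h0⟩)
        · exact absurd h0 hx
        · exact h0
  obtain ⟨c, hc⟩ := exists_img a t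
  refine ⟨c, fun y => (hc y).trans (exists_congr fun x => and_congr_right fun hx => ?_)⟩
  have h1 := hR x hx
  have h2 : t x = h1.choose := dif_pos h1
  rw [h2]
  exact ⟨fun h => h ▸ h1.choose_spec.1, fun h => h1.choose_spec.2 _ h⟩

instance dt_empt : DT (fun _ : ℕ → M => (empt : M)) := dt_const _

instance dt_sep {s : (ℕ → M) → M} {R : (ℕ → M) → M → Prop} [hs : DT s]
    [h : Dfn (fun w => R (fun n => w (n + 1)) (w 0))] : DT (fun v => sep (s v) (R v)) := by
  refine DT.of_graph (R := fun v x => ∀ y, y ∈ x ↔ y ∈ s v ∧ R v y) ?_ ?_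
  · refine dfn_all (R := fun w y => y ∈ w 0 ↔ y ∈ s (fun n => w (n + 1)) ∧ R (fun n => w (n + 1)) y)
      (h := ?_)
    have i1 : DT (fun w : ℕ → M => s (fun n => w (n + 1 + 1))) := hs.ren _
    have i2 : Dfn (fun w : ℕ → M => R (fun n => w (n + 1 + 1)) (w 0)) :=
      h.ren (fun n => if n = 0 then 0 else n + 1)
    exact dfn_iff (P := fun w : ℕ → M => w 0 ∈ w 1)
      (Q := fun w => w 0 ∈ s (fun n => w (n + 1 + 1)) ∧ R (fun n => w (n + 1 + 1)) (w 0))
  · intro v x
    have := h.fix v
    constructor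
    · rintro rfl y
      exact mem_sep
    · intro hx
      exact ext fun y => (hx y).trans mem_sep.symm

instance dt_img {s : (ℕ → M) → M} {t : (ℕ → M) → M → M} [hs : DT s]
    [h : DT (fun w => t (fun n => w (n + 1)) (w 0))] : DT (fun v => img (s v) (t v)) := by
  have hfix : ∀ v, DT (fun w => t v (w 0)) := by
    intro v
    refine ⟨?_⟩
    have h0 : Dfn (fun w => w 1 = t (fun n => w (n + 1 + 1)) (w 0)) := by
      have := h.out.ren (fun n => if n = 0 then 1 else if n = 1 then 0 else n)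
      exact this
    -- fix all variables but the first two
    obtain ⟨φ, c, hφ⟩ := h0.out
    refine ⟨φ.ren (fun n => if n = 0 then 2 else if n = 2 then 0 else if n % 2 = 0 then
      2 * (2 * (n / 2 - 2)) + 1 else 2 * (2 * (n / 2) + 1) + 1), mix v c, fun w => ?_⟩
    have := hφ (cons (w 1) (cons (w 0) v))
    rw [sat_ren]
    refine Iff.trans (?_ : w 0 = t v (w 1) ↔ _) (this.trans ?_)
    · exact Iff.rfl
    · refine iff_of_eq (congrArg _ ?_)
      funext n
      match n with
      | 0 => simp [mix, cons]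
      | 1 =>
        have e3 : (2 * (2 * 0 + 1) + 1) % 2 = 1 := by omega
        simp [mix, cons]
      | 2 => simp [mix, cons]
      | n + 3 =>
        by_cases hn : (n + 3) % 2 = 0
        · obtain ⟨k, hk⟩ : ∃ k, n + 3 = 2 * k + 4 := ⟨(n + 3) / 2 - 2, by omega⟩
          rw [hk]
          have e1 : (2 * k + 4) % 2 = 0 := by omega
          have e2 : (2 * k + 4) / 2 = k + 2 := by omega
          have e3 : (2 * (2 * k) + 1) % 2 = 1 := by omega
          have e4 : (2 * (2 * k) + 1) / 2 = 2 * k := by omega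
          have e5 : (2 * k) / 2 = k := by omega
          simp [mix, e1, e2, e3, e4, cons]
        · obtain ⟨k, hk⟩ : ∃ k, n + 3 = 2 * k + 3 := ⟨(n + 3) / 2 - 1, by omega⟩
          rw [hk]
          have e1 : (2 * k + 3) % 2 = 1 := by omega
          have e2 : (2 * k + 3) / 2 = k + 1 := by omega
          have e3 : (2 * (2 * (k + 1) + 1) + 1) % 2 = 1 := by omega
          have e4 : (2 * (2 * (k + 1) + 1) + 1) / 2 = 2 * (k + 1) + 1 := by omega
          have e5 : (2 * (k + 1) + 1) % 2 = 1 := by omega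
          have e6 : (2 * (k + 1) + 1) / 2 = k + 1 := by omega
          have e7 : 2 * k + 3 ≠ 2 := by omega
          simp [mix, e1, e2, e3, e4, e5, e6, cons]
  refine DT.of_graph (R := fun v x => ∀ y, y ∈ x ↔ ∃ z, z ∈ s v ∧ y = t v z) ?_ ?_
  · refine dfn_all (R := fun w y => y ∈ w 0 ↔ ∃ z, z ∈ s (fun n => w (n + 1)) ∧
      y = t (fun n => w (n + 1)) z) (h := ?_)
    have i2 : Dfn (fun w : ℕ → M => ∃ z, z ∈ s (fun n => w (n + 1 + 1)) ∧
        w 0 = t (fun n => w (n + 1 + 1)) z) := by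
      refine dfn_ex (R := fun w z => z ∈ s (fun n => w (n + 1 + 1)) ∧
        w 0 = t (fun n => w (n + 1 + 1)) z) (h := ?_)
      have i3 : DT (fun w : ℕ → M => s (fun n => w (n + 1 + 1 + 1))) := hs.ren _
      have i4 : Dfn (fun w : ℕ → M => w 1 = t (fun n => w (n + 1 + 1 + 1)) (w 0)) := by
        have := h.out.ren (fun n => if n = 0 then 1 else if n = 1 then 0 else n + 1)
        exact this
      exact dfn_and (P := fun w : ℕ → M => w 0 ∈ s (fun n => w (n + 1 + 1 + 1)))
    exact dfn_iff (P := fun w : ℕ → M => w 0 ∈ w 1)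
      (Q := fun w => ∃ z, z ∈ s (fun n => w (n + 1 + 1)) ∧ w 0 = t (fun n => w (n + 1 + 1)) z)
  · intro v x
    have := hfix v
    constructor
    · rintro rfl y
      exact mem_img
    · intro hx
      exact ext fun y => (hx y).trans mem_img.symm

end CF
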