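import Pool.Agent.Work.MP_cbc9f3_lc.Hess

/-!
# Sets of cardinality less than a given infinite cardinal
-/

namespace CF

universe u

variable {M : Type u} [ZFM M]

/-! ### Projections -/

/-- first coordinate -/
noncomputable def fst (z : M) : M := sUn (sep (sUn z) (fun a => ∃ b, z = opair a b))

/-- second coordinate -/
noncomputable def snd (z : M) : M := sUn (sep (sUn z) (fun b => ∃ a, z = opair a b))

instance dt_fst {s : (ℕ → M) → M} [hs : DT s] : DT (fun v => fst (s v)) :=
  DT.comp1 (t := fst) (by unfold fst; infer_instance) hs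

instance dt_snd {s : (ℕ → M) → M} [hs : DT s] : DT (fun v => snd (s v)) :=
  DT.comp1 (t := snd) (by unfold snd; infer_instance) hs

@[simp] theorem fst_opair (a b : M) : fst (opair a b) = a := by
  unfold fst
  refine ext fun x => ?_
  rw [mem_sUn]
  constructor
  · rintro ⟨y, hy, hx⟩
    obtain ⟨_, b', e⟩ := mem_sep.1 hy
    rw [(opair_inj.1 e).1]
    exact hx
  · intro hx
    refine ⟨a, mem_sep.2 ⟨?_, b, rfl⟩, hx⟩
    exact mem_sUn.2 ⟨sing a, mem_upair.2 (Or.inl rfl), mem_sing.2 rfl⟩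

@[simp] theorem snd_opair (a b : M) : snd (opair a b) = b := by
  unfold snd
  refine ext fun x => ?_
  rw [mem_sUn]
  constructor
  · rintro ⟨y, hy, hx⟩
    obtain ⟨_, a', e⟩ := mem_sep.1 hy
    rw [(opair_inj.1 e).2]
    exact hx
  · intro hx
    refine ⟨b, mem_sep.2 ⟨?_, a, rfl⟩, hx⟩
    exact mem_sUn.2 ⟨upair a b, mem_upair.2 (Or.inr rfl), mem_upair.2 (Or.inr rfl)⟩

/-! ### Small sets -/

/-- `x` has cardinality less than `k` -/
def Small (k x : M) : Prop := ∃ b f, b ∈ k ∧ Onto f b x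

instance dfn_small {s t : (ℕ → M) → M} [hs : DT s] [ht : DT t] :
    Dfn (fun v => Small (s v) (t v)) :=
  Dfn.comp2 (R := Small) (by unfold Small; infer_instance) hs ht

section
variable {k : M} (hk : Card k) (hω : Sub (omega : M) k)

include hω in
theorem small_empt : Small k empt :=
  ⟨empt, _, hω _ empt_mem_omega, onto_id _⟩

theorem small_of_mem {b : M} (hb : b ∈ k) : Small k b := ⟨b, _, hb, onto_id b⟩

include hω in
theorem small_of_fint {x : M} (hx : Fint x) : Small k x := by
  obtain ⟨n, f, hn, hf⟩ := hx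
  exact ⟨n, f, hω n hn, hf⟩

include hω in
theorem Small.sub {x y : M} (hx : Small k x) (hy : Sub y x) : Small k y := by
  by_cases h : ∃ z, z ∈ y
  · obtain ⟨z, hz⟩ := h
    obtain ⟨b, f, hb, hf⟩ := hx
    exact ⟨b, _, hb, hf.sub hy hz⟩
  · have : y = empt := eq_empt fun z hz => h ⟨z, hz⟩
    rw [this]
    exact small_empt hω

theorem Small.onto {x y f : M} (hx : Small k x) (hf : Onto f x y) : Small k y := by
  obtain ⟨b, g, hb, hg⟩ := hx
  exact ⟨b, _, hb, hg.comp hf⟩

theorem Small.img {x : M} (hx : Small k x) (t : M → M) [DT (fun v => t (v 0))] :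
    Small k (img x t) :=
  hx.onto (onto_lam (a := x) t (fun _ h => mem_img_of_mem h) (fun y hy => by
    obtain ⟨z, hz, rfl⟩ := mem_img.1 hy
    exact ⟨z, hz, rfl⟩))

include hk in
theorem not_small_self : ¬ Small k k := fun ⟨b, f, hb, hf⟩ => hk.2 b hb f hf

include hk hω in
theorem Small.prod {x y : M} (hx : Small k x) (hy : Small k y) : Small k (prod x y) := by
  obtain ⟨b, f, hb, hf⟩ := hx
  obtain ⟨c, g, hc, hg⟩ := hy
  have hd : un b c ∈ k := hk.1.un_mem hb hc
  have hdo : Ord (un b c) := hk.1.mem hd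
  have h1 : Small k (CF.prod (un b c) (un b c)) := by
    by_cases hfin : un b c ∈ (omega : M)
    · exact small_of_fint hω ((fint_of_mem_omega hfin).prod (fint_of_mem_omega hfin))
    · obtain ⟨h, hh⟩ := hessenberg hdo ((hdo.not_mem_iff ord_omega).1 hfin)
      exact ⟨_, h, hd, hh⟩
  have h2 : Small k (CF.prod b c) := by
    refine h1.sub hω fun z hz => ?_
    obtain ⟨u, v, hu, hv, rfl⟩ := mem_prod.1 hz
    exact opair_mem_prod.2 ⟨mem_un.2 (Or.inl hu), mem_un.2 (Or.inr hv)⟩
  obtain ⟨h, hh⟩ := hf.prod hg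
  exact h2.onto hh

include hk hω in
theorem Small.un {x y : M} (hx : Small k x) (hy : Small k y) : Small k (un x y) := by
  have h2 : Small k (upair empt (sing empt) : M) := by
    refine small_of_fint hω ?_
    have : (upair empt (sing empt) : M) = adj (adj empt empt) (sing empt) :=
      ext fun z => by simp
    rw [this]
    exact (fint_empt.adj _).adj _
  obtain ⟨b, f, hb, hf⟩ := hx
  obtain ⟨c, g, hc, hg⟩ := hy
  have hd : CF.un b c ∈ k := hk.1.un_mem hb hc
  have h3 := (h2.prod hk hω (small_of_mem hd)).img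
    (fun z => cases (fst z = (empt : M)) (ap f (snd z)) (ap g (snd z)))
  refine h3.sub hω fun z hz => ?_
  rcases mem_un.1 hz with hz | hz
  · obtain ⟨i, hi, rfl⟩ := hf.2.2 z hz
    refine mem_img.2 ⟨opair empt i, opair_mem_prod.2 ⟨mem_upair.2 (Or.inl rfl),
      mem_un.2 (Or.inl hi)⟩, ?_⟩
    rw [fst_opair, snd_opair, cases_pos rfl]
  · obtain ⟨i, hi, rfl⟩ := hg.2.2 z hz
    refine mem_img.2 ⟨opair (sing empt) i, opair_mem_prod.2 ⟨mem_upair.2 (Or.inr rfl),
      mem_un.2 (Or.inr hi)⟩, ?_⟩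
    rw [fst_opair, snd_opair, cases_neg]
    intro e
    exact not_mem_empt empt (e ▸ mem_sing.2 rfl)

include hk hω in
theorem Small.adj {x : M} (hx : Small k x) (y : M) : Small k (adj x y) :=
  hx.un hk hω (small_of_fint hω (by
    have : sing y = CF.adj empt y := ext fun z => by simp
    rw [this]
    exact fint_empt.adj y))

include hk hω in
/-- a small subset of `k` all of whose elements are, together with all smaller ordinals, obtained
from a small set, is bounded -/
theorem exists_bound {x : M} (hx : Sub x k) (hs : Small k (sUn x)) : ∃ b, b ∈ k ∧ Sub x b := by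
  have ho : Ord (sUn x) := ord_sUn fun y hy => hk.1.mem (hx y hy)
  rcases ho.trichotomy hk.1 with h | h | h
  · refine ⟨succ (sUn x), hk.succ_mem hω h, fun y hy => ?_⟩
    have : Sub y (sUn x) := fun z hz => mem_sUn.2 ⟨y, hy, hz⟩
    rw [mem_succ]
    exact ((hk.1.mem (hx y hy)).sub_iff ho).1 this
  · exact absurd (h ▸ hs) (not_small_self hk)
  · exact absurd (hs.sub hω (ho.1 k h)) (not_small_self hk)

end

/-! ### The first infinite cardinals -/

/-- if every infinite cardinal below `a` is `b`, every element of `a` is small -/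
theorem exists_onto_of_mem {a b x : M} (hb : Sub (omega : M) b) (ha : Ord a) (hba : b ∈ a)
    (h : ∀ c, c ∈ a → Card c → ¬ b ∈ c) (hx : x ∈ a) (hne : ∃ y, y ∈ x) : ∃ f, Onto f b x := by
  -- the least ordinal mapping onto `x`
  obtain ⟨c, hc, ⟨f, hf⟩, hmin⟩ := exists_least (fun c => ∃ f, Onto f c x) (ha.mem hx)
    ⟨_, onto_id x⟩
  have hcc : Card c := by
    refine ⟨hc, fun d hd g hg => ?_⟩
    exact hmin d hd ⟨_, hg.comp hf⟩
  have hca : c ∈ a := by
    have hxo := ha.mem hx
    rcases hc.trichotomy ha with h1 | h1 | h1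
    · exact h1
    · exact absurd ⟨_, onto_id x⟩ (hmin x (h1 ▸ hx))
    · exact absurd ⟨_, onto_id x⟩ (hmin x (hc.trans h1 hx))
  have hbo := ha.mem hba
  have hcb : Sub c b := (hbo.not_mem_iff hc).1 (h c hca hcc)
  have hcne : ∃ y, y ∈ c := by
    obtain ⟨y, hy⟩ := hne
    obtain ⟨i, hi, _⟩ := hf.2.2 y hy
    exact ⟨i, hi⟩
  obtain ⟨i, hi⟩ := hcne
  exact ⟨_, ((onto_id b).sub hcb hi).comp hf⟩

end CF
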